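import Mathlib.ModelTheory.Order
import Mathlib.Combinatorics.SimpleGraph.Acyclic
import Mathlib.Data.Set.Card

/-! Definitions used in the statement. -/

namespace Pool.Agent.Work.MP_b730b2_lc

open FirstOrder FirstOrder.Language

/-- The vocabulary of `c`-coloured graphs: `c` unary symbols and one binary symbol. -/
def gl (c : ℕ) : Language :=
  Language.mk (fun _ => Empty) (fun n => {_i : Fin c // n = 1} ⊕ PLift (n = 2))

/-- The edge relation of a structure. -/
def Adj {c : ℕ} {V : Type} (S : (gl c).Structure V) (x y : V) : Prop :=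
  @Structure.RelMap (gl c) V S 2 (Sum.inr ⟨rfl⟩) ![x, y]

/-- The edge relation is symmetric and irreflexive. -/
def IsGraph {c : ℕ} {V : Type} (S : (gl c).Structure V) : Prop :=
  (∀ x y, Adj S x y → Adj S y x) ∧ ∀ x, ¬ Adj S x x

/-- Tree-width at most `k`: a tree decomposition with bags of size at most `k + 1`. -/
def TwLe {c : ℕ} {V : Type} (k : ℕ) (S : (gl c).Structure V) : Prop :=
  ∃ (m : ℕ) (T : SimpleGraph (Fin m)) (B : Fin m → Finset V),
    T.IsTree ∧ (∀ v : V, ∃ t, v ∈ B t) ∧ (∀ x y : V, Adj S x y → ∃ t, x ∈ B t ∧ y ∈ B t) ∧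
    (∀ v : V, (T.induce {t | v ∈ B t}).Connected) ∧ ∀ t, (B t).card ≤ k + 1

/-- Every vertex has at most `Δ` neighbours. -/
def DegLe {c : ℕ} {V : Type} (Δ : ℕ) (S : (gl c).Structure V) : Prop :=
  ∀ x, {y | Adj S x y}.ncard ≤ Δ

/-- The ordered graph satisfies the sentence. -/
def Holds {c : ℕ} {V : Type} (φ : ((gl c).sum Language.order).Sentence) (S : (gl c).Structure V)
    (o : LinearOrder V) : Prop :=
  @Sentence.Realize ((gl c).sum Language.order) V
    (@sumStructure (gl c) Language.order V S (@orderStructure V o.toLE)) φ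

end Pool.Agent.Work.MP_b730b2_lc
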