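import Pool.Agent.Work.MP_b730b2_lc.Depth
import Pool.Agent.Work.MP_b730b2_lc.Defs

/-! The link between games and first-order formulas. -/

namespace Pool.Agent.Work.MP_b730b2_lc

open FirstOrder FirstOrder.Language

variable {c : ℕ} {V W : Type}

/-- The graph of a structure. -/
def toGr (S : (gl c).Structure V) (h : ∀ x y, Adj S x y → Adj S y x) : Gr c V where
  C i x := @Structure.RelMap (gl c) V S 1 (Sum.inl ⟨i, rfl⟩) ![x]
  E := Adj S
  symm := h

/-- Quantifier depth. -/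
def qr {L : Language} {α : Type} : ∀ {n : ℕ}, L.BoundedFormula α n → ℕ
  | _, .falsum => 0
  | _, .equal _ _ => 0
  | _, .rel _ _ => 0
  | _, .imp a b => max (qr a) (qr b)
  | _, .all a => qr a + 1

theorem term_var {m : ℕ} (t : ((gl c).sum Language.order).Term (Empty ⊕ Fin m)) :
    ∃ i, t = Term.var (Sum.inr i) := by
  cases t with
  | var a =>
    rcases a with a | a
    · exact a.elim
    · exact ⟨a, rfl⟩
  | func f _ => rcases f with f | f <;> exact f.elim

/-- The ordered structure. -/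
@[reducible] def ost (S : (gl c).Structure V) (o : LinearOrder V) :
    ((gl c).sum Language.order).Structure V :=
  @sumStructure (gl c) Language.order V S (@orderStructure V o.toLE)

theorem realize_of_EF (S : (gl c).Structure V) (S' : (gl c).Structure W) (h) (h')
    (o : LinearOrder V) (o' : LinearOrder W) {m : ℕ}
    (φ : ((gl c).sum Language.order).BoundedFormula Empty m) :
    ∀ (n : ℕ) (x : Fin m → V) (y : Fin m → W), qr φ ≤ n →
      EF ((toGr S h).ostr (@LT.lt V o.toLT)) ((toGr S' h').ostr (@LT.lt W o'.toLT)) n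
        (Set.range fun i => (x i, y i)) →
      (@BoundedFormula.Realize _ V (ost S o) _ _ φ default x ↔
        @BoundedFormula.Realize _ W (ost S' o') _ _ φ default y) := by
  induction φ with
  | falsum => exact fun _ _ _ _ _ => Iff.rfl
  | equal t₁ t₂ =>
    intro n x y _ e
    obtain ⟨i, rfl⟩ := term_var t₁
    obtain ⟨j, rfl⟩ := term_var t₂
    exact (e.pi _ ⟨i, rfl⟩ _ ⟨j, rfl⟩).1
  | @rel m l R ts =>
    intro n x y _ e
    choose ι hι using fun i => term_var (ts i)
    obtain rfl : ts = fun i => Term.var (Sum.inr (ι i)) := funext hι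
    change @Structure.RelMap _ V (ost S o) l R (fun i => x (ι i)) ↔
      @Structure.RelMap _ W (ost S' o') l R (fun i => y (ι i))
    rcases R with (⟨i, rfl⟩ | ⟨⟨rfl⟩⟩) | R
    · have := (e.pi _ ⟨ι 0, rfl⟩ _ ⟨ι 0, rfl⟩).2.1 i
      rw [show (fun i => x (ι i)) = ![x (ι 0)] from by funext i; fin_cases i; rfl,
        show (fun i => y (ι i)) = ![y (ι 0)] from by funext i; fin_cases i; rfl]
      exact this
    · have := (e.pi _ ⟨ι 0, rfl⟩ _ ⟨ι 1, rfl⟩).2.2 false
      rw [show (fun i => x (ι i)) = ![x (ι 0), x (ι 1)] from by funext i; fin_cases i <;> rfl,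
        show (fun i => y (ι i)) = ![y (ι 0), y (ι 1)] from by funext i; fin_cases i <;> rfl]
      exact this
    · cases R
      have h1 := (e.pi _ ⟨ι 1, rfl⟩ _ ⟨ι 0, rfl⟩).2.2 true
      change @LE.le V o.toLE (x (ι 0)) (x (ι 1)) ↔ @LE.le W o'.toLE (y (ι 0)) (y (ι 1))
      rw [← @not_lt V o, ← @not_lt W o']
      exact not_congr h1
  | imp a b iha ihb =>
    intro n x y hn e
    exact imp_congr (iha n x y (le_of_max_le_left hn) e) (ihb n x y (le_of_max_le_right hn) e)
  | all a ih =>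
    intro n x y hn e
    obtain ⟨n, rfl⟩ : ∃ n', n = n' + 1 := ⟨n - 1, by simp only [qr] at hn; omega⟩
    have hn' : qr a ≤ n := by simp only [qr] at hn; omega
    constructor
    · intro H b
      obtain ⟨a', -, e'⟩ := e.2.2 b trivial
      rw [← range_snoc] at e'
      exact (ih n _ _ hn' e').1 (H a')
    · intro H b
      obtain ⟨a', -, e'⟩ := e.2.1 b trivial
      rw [← range_snoc] at e'
      exact (ih n _ _ hn' e').2 (H a')

/-- Uniform definability without order. -/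
def Df {m : ℕ} (P : ∀ (V : Type) (S : (gl c).Structure V),
    (∀ x y, Adj S x y → Adj S y x) → (Fin m → V) → Prop) : Prop :=
  ∃ φ : (gl c).BoundedFormula Empty m, ∀ V S h x,
    @BoundedFormula.Realize _ V S _ _ φ default x ↔ P V S h x

theorem Df.congr {m : ℕ} {P Q} (h : Df (c := c) (m := m) P)
    (e : ∀ V S h x, P V S h x ↔ Q V S h x) : Df Q := by
  obtain ⟨φ, hφ⟩ := h
  exact ⟨φ, fun V S h x => (hφ V S h x).trans (e V S h x)⟩

theorem Df.const {m : ℕ} (p : Prop) : Df (c := c) (m := m) (fun _ _ _ _ => p) := by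
  by_cases h : p
  · exact ⟨⊤, fun V S _ x => by simp [h]⟩
  · exact ⟨⊥, fun V S _ x => by simp [h]⟩

theorem Df.imp {m : ℕ} {P Q} (h : Df (c := c) (m := m) P) (h' : Df Q) :
    Df (fun V S h x => P V S h x → Q V S h x) := by
  obtain ⟨φ, hφ⟩ := h
  obtain ⟨ψ, hψ⟩ := h'
  exact ⟨φ.imp ψ, fun V S h x => imp_congr (hφ V S h x) (hψ V S h x)⟩

theorem Df.not {m : ℕ} {P} (h : Df (c := c) (m := m) P) : Df (fun V S h x => ¬ P V S h x) :=
  h.imp (Df.const False)

theorem Df.and {m : ℕ} {P Q} (h : Df (c := c) (m := m) P) (h' : Df Q) :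
    Df (fun V S h x => P V S h x ∧ Q V S h x) :=
  (h.imp h'.not).not.congr (fun _ _ _ _ => by tauto)

theorem Df.iff {m : ℕ} {P Q} (h : Df (c := c) (m := m) P) (h' : Df Q) :
    Df (fun V S h x => P V S h x ↔ Q V S h x) :=
  ((h.imp h').and (h'.imp h)).congr (fun _ _ _ _ => by tauto)

theorem Df.fall {m : ℕ} {β : Type} [Finite β] {P : β → _}
    (h : ∀ b, Df (c := c) (m := m) (P b)) : Df (fun V S h x => ∀ b, P b V S h x) := by
  choose φ hφ using h
  refine ⟨BoundedFormula.iInf φ, fun V S h x => ?_⟩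
  rw [BoundedFormula.realize_iInf]
  exact forall_congr' fun b => hφ b V S h x

theorem Df.all {m : ℕ} {P} (h : Df (c := c) (m := m + 1) P) :
    Df (fun V S h x => ∀ a, P V S h (Fin.snoc x a)) := by
  obtain ⟨φ, hφ⟩ := h
  exact ⟨φ.all, fun V S h x => forall_congr' fun a => hφ V S h _⟩

theorem df_atom {m : ℕ} (τ : Atom (Fin c) Unit m) :
    Df (fun _ S h x => atom (toGr S h).str x = τ) := by
  have e : ∀ i j : Fin m, Df (c := c) (fun _ _ _ x => x i = x j) := fun i j =>
    ⟨BoundedFormula.equal (Term.var (Sum.inr i)) (Term.var (Sum.inr j)), fun _ _ _ _ => Iff.rfl⟩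
  have u : ∀ (a : Fin c) (i : Fin m), Df (c := c) (fun _ S h x => (toGr S h).C a (x i)) := by
    intro a i
    refine ⟨BoundedFormula.rel (l := 1) (Sum.inl ⟨a, rfl⟩) (fun _ => Term.var (Sum.inr i)),
      fun V S h x => ?_⟩
    change @Structure.RelMap _ V S 1 _ (fun _ => x i) ↔ @Structure.RelMap _ V S 1 _ ![x i]
    rw [show (fun _ => x i) = ![x i] from by funext i; fin_cases i; rfl]
  have r : ∀ i j : Fin m, Df (c := c) (fun _ S h x => (toGr S h).E (x i) (x j)) := by
    intro i j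
    refine ⟨BoundedFormula.rel (l := 2) (Sum.inr ⟨rfl⟩) (fun k => Term.var (Sum.inr (![i, j] k))),
      fun V S h x => ?_⟩
    change @Structure.RelMap _ V S 2 _ (fun k => x (![i, j] k)) ↔
      @Structure.RelMap _ V S 2 _ ![x i, x j]
    rw [show (fun k => x (![i, j] k)) = ![x i, x j] from by funext i; fin_cases i <;> rfl]
  refine ((Df.fall fun i => Df.fall fun j => (e i j).iff (Df.const (τ.1 i j))).and
    ((Df.fall fun a => Df.fall fun i => (u a i).iff (Df.const (τ.2.1 a i))).and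
    (Df.fall fun i => Df.fall fun j => (r i j).iff (Df.const (τ.2.2 () i j))))).congr ?_
  intro V S h x
  obtain ⟨τ1, τ2, τ3⟩ := τ
  simp only [atom, Prod.mk.injEq, funext_iff, eq_iff_iff, Gr.str, Unique.forall_iff]

theorem df_tp : ∀ (n : ℕ) {m : ℕ} (τ : Ty (Fin c) Unit n m),
    Df (fun _ S h x => tp (toGr S h).str n x = τ)
  | 0, _, τ => df_atom τ
  | n + 1, m, τ => by
    refine ((df_atom τ.1).and (Df.fall fun σ : Ty (Fin c) Unit n (m + 1) =>
      ((df_tp n σ).not.all.not).iff (Df.const (σ ∈ τ.2)))).congr ?_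
    intro V S h x
    refine Iff.trans ?_ (Prod.ext_iff (x := tp (toGr S h).str (n + 1) x) (y := τ)).symm
    refine and_congr_right fun _ => ?_
    rw [Set.ext_iff]
    refine forall_congr' fun σ => iff_congr ?_ Iff.rfl
    simp [tp, Gr.str]

theorem main (k c Δ : ℕ) (𝒞 : ∀ V : Type, (gl c).Structure V → Prop)
    (h𝒞 : ∀ V S, 𝒞 V S → Finite V ∧ IsGraph S ∧ TwLe k S ∧ DegLe Δ S)
    (φ : ((gl c).sum Language.order).Sentence)
    (hφ : ∀ V S, 𝒞 V S → ∀ o₁ o₂ : LinearOrder V, Holds φ S o₁ ↔ Holds φ S o₂) :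
    ∃ ψ : (gl c).Sentence, ∀ V S, 𝒞 V S → ∀ o : LinearOrder V,
      (Holds φ S o ↔ @Sentence.Realize (gl c) V S ψ) := by
  obtain ⟨D0, hD⟩ := exists_bg k Δ
  obtain ⟨n, hn⟩ := orders_main c (qr φ) Δ D0
  obtain ⟨ψ, hψ⟩ := (Df.fall fun τ : Ty (Fin c) Unit n 0 => (df_tp n τ).imp (Df.const
    (∃ W S', ∃ h : 𝒞 W S', ∃ o', Holds φ S' o' ∧ tp0 (toGr S' (h𝒞 W S' h).2.1.1).str n = τ)))
  refine ⟨ψ, fun V S h o => ?_⟩
  have e := hψ V S (h𝒞 V S h).2.1.1 Fin.elim0
  have e0 : (default : Fin 0 → V) = Fin.elim0 := Subsingleton.elim _ _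
  have e' : @Sentence.Realize (gl c) V S ψ ↔
      @BoundedFormula.Realize _ V S _ _ ψ default Fin.elim0 := by
    rw [← e0]; rfl
  rw [e', e]
  constructor
  · rintro H _ rfl
    exact ⟨V, S, h, o, H, rfl⟩
  · intro H
    obtain ⟨W, S', h', o', H', e1⟩ := H _ rfl
    obtain ⟨f1, g1, t1, d1⟩ := h𝒞 V S h
    obtain ⟨f2, g2, t2, d2⟩ := h𝒞 W S' h'
    obtain ⟨o1, o2, e2⟩ := hn V W (toGr S g1.1) (toGr S' g2.1) d1 d2 (hD c V _ t1 d1)
      (hD c W _ t2 d2) (tp0_iff.1 e1.symm)
    have := realize_of_EF S S' g1.1 g2.1 o1 o2 φ (qr φ) default default le_rfl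
      (by rwa [Set.range_eq_empty])
    exact (hφ V S h o o1).2 (this.2 ((hφ W S' h' o' o2).1 H'))

end Pool.Agent.Work.MP_b730b2_lc
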