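import Pool.Agent.Work.MP_b730b2_lc.Sep

/-! Height functions with bounded components. -/

namespace Pool.Agent.Work.MP_b730b2_lc

open Set

variable {c : ℕ} {V : Type} {G : Gr c V}

theorem Gr.comp_inv {A A' : Set V} {x : V} (I : V → Prop) (hx : I x)
    (h : ∀ y z, I y → G.E y z → y ∈ A → z ∈ A → I z ∧ y ∈ A' ∧ z ∈ A') :
    ∀ y ∈ G.comp A x, I y ∧ y ∈ G.comp A' x := by
  intro y hy
  induction hy with
  | refl => exact ⟨hx, Gr.mem_comp_self⟩
  | @tail y z _ e ih =>
    obtain ⟨a, b⟩ := h y z ih.1 e.1 e.2.1 e.2.2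
    exact ⟨a, Relation.ReflTransGen.tail ih.2 ⟨e.1, b⟩⟩

theorem Gr.comp_not_mem {A : Set V} {x : V} (hx : x ∉ A) : G.comp A x ⊆ {x} := fun y hy =>
  (Gr.comp_inv (A' := A) (fun y => y = x) rfl (fun _ _ e _ h _ => absurd (e ▸ h) hx) y hy).1

theorem exists_depth [Finite V] {k Δ : ℕ} (h : G.TW k) (d : G.Deg Δ) (n : ℕ) :
    ∀ U S : Set V, U.ncard < n → S ⊆ U → 4 * (k + 1) ≤ S.ncard →
      S.ncard ≤ 16 * (k + 1) * (Δ + 1) → ∃ l : V → ℕ, (∀ v ∈ S, l v = 0) ∧
      {v | v ∈ U ∧ l v = 0}.ncard + 4 * (k + 1) ≤ 2 * S.ncard ∧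
      (∀ v ∈ U, ∀ w ∈ U, G.E v w → l v ≤ l w + 1) ∧
      ∀ a x, x ∈ U → a + 1 ≤ l x → (G.comp {v | v ∈ U ∧ a + 1 ≤ l v} x ∩ {v | l v = a + 1}).ncard ≤
        32 * (k + 1) * (Δ + 1) := by
  classical
  induction n with
  | zero => exact fun U S h => absurd h (by omega)
  | succ n ih =>
  intro U S hU hS h1 h2
  have hK : 16 * (k + 1) * (Δ + 1) = 16 * (k + 1) * Δ + 16 * (k + 1) := by ring
  have hK' : 32 * (k + 1) * (Δ + 1) = 2 * (16 * (k + 1) * (Δ + 1)) := by ring
  by_cases c1 : S.ncard ≤ 16 * (k + 1)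
  · have e0 : ∀ l : V → ℕ, {v | v ∈ U ∧ (if v ∈ S then 0 else l v + 1) = 0} = S := by
      intro l
      ext v
      simp only [mem_ofPred_eq]
      split_ifs with c
      · simp [c, hS c]
      · simp [c]
    by_cases c2 : (U \ S).ncard < 4 * (k + 1)
    · refine ⟨fun v => if v ∈ S then 0 else 0 + 1, fun v hv => if_pos hv, ?_, ?_, ?_⟩
      · rw [e0 (fun _ => 0)]; omega
      · intro v _ w _ _
        simp only; split_ifs <;> omega
      · intro a x hx ha
        refine (ncard_le_ncard (t := U \ S) ?_).trans (by omega)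
        rintro y ⟨hy, hy'⟩
        have := (Gr.comp_sub (A := {v | v ∈ U ∧ a + 1 ≤ if v ∈ S then 0 else 0 + 1})
          ⟨hx, ha⟩ hy)
        refine ⟨this.1, fun hc => ?_⟩
        simp [hc] at hy'
    · obtain ⟨T0, t1, t2⟩ := exists_subset_card_eq (not_lt.1 c2)
      have s1 := ncard_le_ncard (subset_union_right (s := G.nb S ∩ (U \ S)) (t := T0))
      have s2 := ncard_union_le (G.nb S ∩ (U \ S)) T0
      have s3 := ncard_le_ncard (inter_subset_left (s := G.nb S) (t := U \ S))
      have s4 := (Gr.ncard_nb d S).trans (Nat.mul_le_mul_right Δ c1)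
      have s5 : (U \ S).ncard < U.ncard := by
        obtain ⟨x, hx⟩ : S.Nonempty := by rw [← ncard_pos]; omega
        exact ncard_lt_ncard ⟨sdiff_subset, fun hc => (hc (hS hx)).2 hx⟩
      obtain ⟨l, l1, l2, l3, l4⟩ := ih (U \ S) (G.nb S ∩ (U \ S) ∪ T0) (by omega)
        (union_subset inter_subset_right t1) (by omega) (by omega)
      refine ⟨fun v => if v ∈ S then 0 else l v + 1, fun v hv => if_pos hv, ?_, ?_, ?_⟩
      · rw [e0 l]; omega
      · intro v hv w hw e
        simp only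
        split_ifs with c3 c4 c4
        · omega
        · omega
        · rw [l1 v (Or.inl ⟨mem_biUnion c4 (G.symm _ _ e), hv, c3⟩)]
        · have := l3 v ⟨hv, c3⟩ w ⟨hw, c4⟩ e; omega
      · intro a x hx ha
        have e1 : {v | v ∈ U ∧ a + 1 ≤ if v ∈ S then 0 else l v + 1} =
            {v | v ∈ U \ S ∧ a ≤ l v} := by
          ext v
          simp only [mem_ofPred_eq, mem_sdiff]
          split_ifs with c <;> simp [c]
        have hx' : x ∈ {v | v ∈ U \ S ∧ a ≤ l v} := e1 ▸ ⟨hx, ha⟩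
        have e2 : G.comp {v | v ∈ U \ S ∧ a ≤ l v} x ∩
            {v | (if v ∈ S then 0 else l v + 1) = a + 1} ⊆
            G.comp {v | v ∈ U \ S ∧ a ≤ l v} x ∩ {v | l v = a} := by
          rintro y ⟨hy, hy'⟩
          refine ⟨hy, ?_⟩
          have := (Gr.comp_sub hx' hy).1.2
          simpa [this] using hy'
        rw [e1]
        refine (ncard_le_ncard e2).trans ?_
        rcases a with _ | a
        · refine (ncard_le_ncard (t := {v | v ∈ U \ S ∧ l v = 0}) ?_).trans (by omega)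
          rintro y ⟨hy, hy'⟩
          exact ⟨(Gr.comp_sub hx' hy).1, hy'⟩
        · exact l4 a x hx'.1 hx'.2
  · obtain ⟨X, P, x1, p1, p2, p3, p4⟩ := h.split S (by omega)
    have s0 := ncard_inter_add_ncard_sdiff_eq_ncard S P
    have s1 := ncard_le_ncard (inter_subset_left (s := X) (t := U))
    have s2 := ncard_union_le (S ∩ P) (X ∩ U)
    have s3 := ncard_union_le (S \ P) (X ∩ U)
    have s4 := ncard_le_ncard (subset_union_left (s := S ∩ P) (t := X ∩ U))
    have s5 := ncard_le_ncard (subset_union_left (s := S \ P) (t := X ∩ U))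
    have s6 : ((P ∪ X) ∩ U).ncard < U.ncard := by
      refine ncard_lt_ncard ⟨inter_subset_right, fun hc => ?_⟩
      have := ncard_le_ncard (show S \ P ⊆ X from fun v hv => (hc (hS hv.1)).1.resolve_left hv.2)
      omega
    have s7 : (U \ P).ncard < U.ncard := by
      obtain ⟨x, hx⟩ : (S ∩ P).Nonempty := by rw [← ncard_pos]; omega
      exact ncard_lt_ncard ⟨sdiff_subset, fun hc => (hc (hS hx.1)).2 hx.2⟩
    obtain ⟨l, l1, l2, l3, l4⟩ := ih ((P ∪ X) ∩ U) (S ∩ P ∪ X ∩ U) (by omega)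
      (union_subset (fun v hv => ⟨Or.inl hv.2, hS hv.1⟩) (fun v hv => ⟨Or.inr hv.1, hv.2⟩))
      (by omega) (by omega)
    obtain ⟨m, m1, m2, m3, m4⟩ := ih (U \ P) (S \ P ∪ X ∩ U) (by omega)
      (union_subset (fun v hv => ⟨hS hv.1, hv.2⟩) (fun v hv => ⟨hv.2, fun hc => p1 v hc hv.1⟩))
      (by omega) (by omega)
    refine ⟨fun v => if v ∈ P then l v else m v, fun v hv => ?_, ?_, ?_, ?_⟩
    · simp only
      split_ifs with c
      · exact l1 v (Or.inl ⟨hv, c⟩)
      · exact m1 v (Or.inl ⟨hv, c⟩)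
    · have := ncard_le_ncard (show {v | v ∈ U ∧ (if v ∈ P then l v else m v) = 0} ⊆
          {v | v ∈ (P ∪ X) ∩ U ∧ l v = 0} ∪ {v | v ∈ U \ P ∧ m v = 0} from by
        rintro v ⟨hv, hv'⟩
        split_ifs at hv' with c
        · exact Or.inl ⟨⟨Or.inl c, hv⟩, hv'⟩
        · exact Or.inr ⟨⟨hv, c⟩, hv'⟩)
      have := ncard_union_le {v | v ∈ (P ∪ X) ∩ U ∧ l v = 0} {v | v ∈ U \ P ∧ m v = 0}
      beta_reduce
      omega
    · intro v hv w hw e
      simp only
      split_ifs with c3 c4 c4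
      · exact l3 v ⟨Or.inl c3, hv⟩ w ⟨Or.inl c4, hw⟩ e
      · have hX : w ∈ X := by_contra fun hc => c4 (p2 v c3 w hc e)
        have := l3 v ⟨Or.inl c3, hv⟩ w ⟨Or.inr hX, hw⟩ e
        rw [l1 w (Or.inr ⟨hX, hw⟩)] at this
        omega
      · have hX : v ∈ X := by_contra fun hc => c3 (p2 w c4 v hc (G.symm _ _ e))
        rw [m1 v (Or.inr ⟨hX, hv⟩)]
        omega
      · exact m3 v ⟨hv, c3⟩ w ⟨hw, c4⟩ e
    · intro a x hx ha
      by_cases c : x ∈ P
      · simp only [if_pos c] at ha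
        refine (ncard_le_ncard ?_).trans (l4 a x ⟨Or.inl c, hx⟩ ha)
        rintro y ⟨hy, hy'⟩
        have := Gr.comp_inv (A' := {v | v ∈ (P ∪ X) ∩ U ∧ a + 1 ≤ l v}) (fun y => y ∈ P) c (by
          rintro y z hy e ⟨a1, a2⟩ ⟨b1, b2⟩
          beta_reduce at a2 b2
          have hz : z ∈ P := by
            by_contra hc
            have hX : z ∈ X := by_contra fun hd => hc (p2 y hy z hd e)
            rw [if_neg hc, m1 z (Or.inr ⟨hX, b1⟩)] at b2
            omega
          rw [if_pos hy] at a2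
          rw [if_pos hz] at b2
          exact ⟨hz, ⟨⟨Or.inl hy, a1⟩, a2⟩, ⟨Or.inl hz, b1⟩, b2⟩) y hy
        exact ⟨this.2, by simpa [this.1] using hy'⟩
      · simp only [if_neg c] at ha
        refine (ncard_le_ncard ?_).trans (m4 a x ⟨hx, c⟩ ha)
        rintro y ⟨hy, hy'⟩
        have := Gr.comp_inv (A' := {v | v ∈ U \ P ∧ a + 1 ≤ m v}) (fun y => y ∉ P) c (by
          rintro y z hy e ⟨a1, a2⟩ ⟨b1, b2⟩
          beta_reduce at a2 b2
          rw [if_neg hy] at a2
          have hz : z ∉ P := by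
            intro hc
            have hX : y ∈ X := by_contra fun hd => hy (p2 z hc y hd (G.symm _ _ e))
            rw [m1 y (Or.inr ⟨hX, a1⟩)] at a2
            omega
          rw [if_neg hz] at b2
          exact ⟨hz, ⟨⟨a1, hy⟩, a2⟩, ⟨b1, hz⟩, b2⟩) y hy
        exact ⟨this.2, by simpa [this.1] using hy'⟩

theorem exists_depth' [Finite V] {k Δ : ℕ} (h : G.TW k) (d : G.Deg Δ) :
    ∃ l : V → ℕ, (∀ v w, G.E v w → l v ≤ l w + 1) ∧
      ∀ a x, (G.comp {v | a ≤ l v} x ∩ {v | l v = a}).ncard ≤ 32 * (k + 1) * (Δ + 1) := by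
  have hK : 32 * (k + 1) * (Δ + 1) = 32 * (k + 1) * Δ + 32 * (k + 1) := by ring
  have hK' : 16 * (k + 1) * (Δ + 1) = 16 * (k + 1) * Δ + 16 * (k + 1) := by ring
  by_cases c : (univ : Set V).ncard < 4 * (k + 1)
  · exact ⟨fun _ => 0, fun _ _ _ => Nat.zero_le _, fun a x =>
      (ncard_le_ncard (subset_univ _)).trans (by omega)⟩
  · obtain ⟨S, -, hS⟩ := exists_subset_card_eq (not_lt.1 c)
    obtain ⟨l, -, l2, l3, l4⟩ := exists_depth h d _ univ S (Nat.lt_succ_self _) (subset_univ _)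
      (by omega) (by omega)
    refine ⟨l, fun v w => l3 v trivial w trivial, fun a x => ?_⟩
    rcases a with _ | a
    · refine (ncard_le_ncard (t := {v | v ∈ univ ∧ l v = 0}) ?_).trans (by omega)
      exact fun y hy => ⟨trivial, hy.2⟩
    · by_cases hx : a + 1 ≤ l x
      · simpa using l4 a x trivial hx
      · refine (ncard_le_ncard (t := {x})
          (inter_subset_left.trans (Gr.comp_not_mem hx))).trans ?_
        rw [ncard_singleton]; omega

/-- Bounds for bands. -/
def bnd (w Δ : ℕ) : ℕ → ℕ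
  | 0 => w + 1
  | i + 1 => w + bnd w Δ i + w * Δ * bnd w Δ i

theorem bnd_pos (w Δ : ℕ) : ∀ i, 1 ≤ bnd w Δ i
  | 0 => by simp [bnd]
  | i + 1 => by have := bnd_pos w Δ i; simp only [bnd]; omega

theorem band_bound [Finite V] {w Δ : ℕ} (d : G.Deg Δ) {l : V → ℕ}
    (h : ∀ a x, (G.comp {v | a ≤ l v} x ∩ {v | l v = a}).ncard ≤ w) :
    ∀ i a x, (G.comp {v | a ≤ l v} x ∩ {v | l v ≤ a + i}).ncard ≤ bnd w Δ i
  | 0, a, x => by
    by_cases hx : a ≤ l x
    · refine (ncard_le_ncard ?_).trans ((h a x).trans (Nat.le_succ _))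
      exact fun y hy => ⟨hy.1, le_antisymm hy.2 (Gr.comp_sub (A := {v | a ≤ l v}) hx hy.1)⟩
    · refine (ncard_le_ncard (t := {x})
        (inter_subset_left.trans (Gr.comp_not_mem hx))).trans ?_
      rw [ncard_singleton]; exact bnd_pos _ _ _
  | i + 1, a, x => by
    set N := G.comp {v | a ≤ l v} x ∩ {v | l v = a} with hN
    have sub : G.comp {v | a ≤ l v} x ⊆ N ∪ G.comp {v | a + 1 ≤ l v} x ∪
        ⋃ z ∈ G.nb N, G.comp {v | a + 1 ≤ l v} z := by
      intro y hy
      induction hy with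
      | refl => exact Or.inl (Or.inr Gr.mem_comp_self)
      | @tail y z hy e ih =>
        have hz : z ∈ G.comp {v | a ≤ l v} x := Relation.ReflTransGen.tail hy e
        by_cases c : l z = a
        · exact Or.inl (Or.inl ⟨hz, c⟩)
        · by_cases c' : l y = a
          · exact Or.inr (mem_biUnion (show z ∈ G.nb N from
              mem_biUnion (show y ∈ N from ⟨hy, c'⟩) e.1) Gr.mem_comp_self)
          · have e' : G.E y z ∧ y ∈ {v | a + 1 ≤ l v} ∧ z ∈ {v | a + 1 ≤ l v} :=
              ⟨e.1, lt_of_le_of_ne e.2.1 (Ne.symm c'), lt_of_le_of_ne e.2.2 (Ne.symm c)⟩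
            rcases ih with (b | b) | b
            · exact absurd b.2 c'
            · exact Or.inl (Or.inr (Relation.ReflTransGen.tail b e'))
            · simp only [mem_iUnion] at b
              obtain ⟨w, hw, b⟩ := b
              exact Or.inr (mem_biUnion hw (Relation.ReflTransGen.tail b e'))
    have sub' : G.comp {v | a ≤ l v} x ∩ {v | l v ≤ a + (i + 1)} ⊆
        N ∪ G.comp {v | a + 1 ≤ l v} x ∩ {v | l v ≤ a + 1 + i} ∪
        ⋃ z ∈ G.nb N, G.comp {v | a + 1 ≤ l v} z ∩ {v | l v ≤ a + 1 + i} := by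
      rintro y ⟨hy, hy'⟩
      have hy'' : y ∈ {v | l v ≤ a + 1 + i} := by
        simp only [mem_ofPred_eq] at hy' ⊢; omega
      rcases sub hy with (b | b) | b
      · exact Or.inl (Or.inl b)
      · exact Or.inl (Or.inr ⟨b, hy''⟩)
      · simp only [mem_iUnion] at b
        obtain ⟨w, hw, b⟩ := b
        exact Or.inr (mem_biUnion hw ⟨b, hy''⟩)
    have h1 := (ncard_le_ncard sub').trans (ncard_union_le _ _)
    have h2 := ncard_union_le N (G.comp {v | a + 1 ≤ l v} x ∩ {v | l v ≤ a + 1 + i})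
    have h3 := ncard_biUnion_mul (G.nb N) _ _ (fun z _ => band_bound d h i (a + 1) z)
    have h4 := Nat.mul_le_mul_right (bnd w Δ i)
      ((Gr.ncard_nb d N).trans (Nat.mul_le_mul_right Δ (h a x)))
    have h5 := band_bound d h i (a + 1) x
    have h6 : N.ncard ≤ w := h a x
    simp only [bnd]
    omega

/-- Folding the natural numbers onto an interval. -/
def fold (r n : ℕ) : ℕ := if n % (2 * r) ≤ r then n % (2 * r) else 2 * r - n % (2 * r)

theorem succ_cases {r : ℕ} (hr : 0 < r) (n : ℕ) :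
    ((n + 1) % (2 * r) = n % (2 * r) + 1 ∧ (n + 1) / (2 * r) = n / (2 * r)) ∨
      ((n + 1) % (2 * r) = 0 ∧ n % (2 * r) + 1 = 2 * r) := by
  have h1 := Nat.mod_lt n (show 0 < 2 * r by omega)
  have h2 := Nat.div_add_mod n (2 * r)
  by_cases c : n % (2 * r) + 1 = 2 * r
  · right
    refine ⟨?_, c⟩
    rw [show n + 1 = 2 * r * (n / (2 * r) + 1) by rw [mul_add]; omega]
    simp
  · left
    have := (Nat.div_mod_unique (show 0 < 2 * r by omega) (a := n + 1) (d := n / (2 * r))
      (c := n % (2 * r) + 1)).2 ⟨by omega, by omega⟩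
    exact ⟨this.2, this.1⟩

theorem exists_bg (k Δ : ℕ) : ∃ D0 : ℕ → ℕ, ∀ (c : ℕ) (V : Type) [Finite V] (G : Gr c V),
    G.TW k → G.Deg Δ → ∀ r, LG.Bg G r (D0 r) := by
  refine ⟨fun r => bnd (32 * (k + 1) * (Δ + 1)) Δ (2 * r), fun c V _ G h d r => ?_⟩
  obtain ⟨l, l1, l2⟩ := exists_depth' h d
  have f1 : ∀ n, fold r n ≤ r := by
    intro n; simp only [fold]; split_ifs <;> omega
  have f2 : ∀ n, fold r (n + 1) ≤ fold r n + 1 ∧ fold r n ≤ fold r (n + 1) + 1 := by
    intro n
    rcases Nat.eq_zero_or_pos r with hr | hr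
    · have := f1 n; have := f1 (n + 1); omega
    · have := succ_cases hr n
      simp only [fold]; split_ifs <;> omega
  have main : ∀ (s : ℕ) (A : Set V), 0 < r → (∀ v ∈ A, (l v + s) % (2 * r) ≠ 0) → ∀ x ∈ A,
      (G.comp A x).ncard ≤ bnd (32 * (k + 1) * (Δ + 1)) Δ (2 * r) := by
    intro s A hr hA x hx
    refine (ncard_le_ncard ?_).trans
      (band_bound d l2 (2 * r) (2 * r * ((l x + s) / (2 * r)) - s) x)
    intro y hy
    have lo : ∀ y, (l y + s) / (2 * r) = (l x + s) / (2 * r) →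
        2 * r * ((l x + s) / (2 * r)) - s ≤ l y ∧
          l y ≤ 2 * r * ((l x + s) / (2 * r)) - s + 2 * r := by
      intro y e
      have h1 := Nat.mod_lt (l y + s) (show 0 < 2 * r by omega)
      have h2 := Nat.div_add_mod (l y + s) (2 * r)
      rw [e] at h2
      omega
    have := Gr.comp_inv (A' := {v | 2 * r * ((l x + s) / (2 * r)) - s ≤ l v})
      (fun y => (l y + s) / (2 * r) = (l x + s) / (2 * r)) rfl (by
        intro y z hy e a b
        have hz : (l z + s) / (2 * r) = (l x + s) / (2 * r) := by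
          rw [← hy]
          have a1 := l1 y z e
          have a2 := l1 z y (G.symm _ _ e)
          rcases lt_trichotomy (l y) (l z) with c | c | c
          · have := hA z b
            rw [show l z + s = l y + s + 1 by omega] at this ⊢
            exact ((succ_cases hr _).resolve_right (fun h => this h.1)).2
          · rw [c]
          · have := hA y a
            rw [show l y + s = l z + s + 1 by omega] at this ⊢
            exact ((succ_cases hr _).resolve_right (fun h => this h.1)).2.symm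
        exact ⟨hz, (lo y hy).1, (lo z hz).1⟩) y hy
    exact ⟨this.2, (lo y this.1).2⟩
  refine ⟨fun v => fold r (l v), fun v => f1 _, fun v w e => ?_, fun κ x => ?_⟩
  · have a1 := l1 v w e
    have a2 := l1 w v (G.symm _ _ e)
    rcases lt_trichotomy (l v) (l w) with c | c | c
    · simp only; rw [show l w = l v + 1 by omega]; exact (f2 _).2
    · simp only; rw [c]; omega
    · simp only; rw [show l v = l w + 1 by omega]; exact (f2 _).1
  · by_cases hx : x ∈ (LG.mk G (fun v => fold r (l v)) (fun v => fold r (l v))).zone r κ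
    swap
    · refine (ncard_le_ncard (Gr.comp_not_mem hx)).trans ?_
      rw [ncard_singleton]; exact bnd_pos _ _ _
    have z0 : ∀ n, 0 < fold r n → (n + 0) % (2 * r) ≠ 0 := by
      intro n hn e
      rw [add_zero] at e
      simp [fold, e] at hn
    have z1 : ∀ n, fold r n < r → (n + r) % (2 * r) ≠ 0 := by
      intro n hn e
      have h1 := Nat.mod_lt n (show 0 < 2 * r by omega)
      rw [Nat.add_mod, Nat.mod_eq_of_lt (show r < 2 * r by omega)] at e
      have : n % (2 * r) = r := by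
        obtain ⟨j, hj⟩ := Nat.dvd_of_mod_eq_zero e
        rcases j with _ | _ | j
        · omega
        · omega
        · rw [mul_add, mul_add] at hj; omega
      simp [fold, this] at hn
    rcases κ with _ | _ | _
    · exact main 0 _ (lt_trans hx.1 hx.2) (fun v hv => z0 _ hv.1) x hx
    · exact main r _ (lt_of_le_of_lt (Nat.zero_le _) hx) (fun v hv => z1 _ hv) x hx
    · exact main 0 _ (lt_of_lt_of_le hx (f1 _)) (fun v hv => z0 _ hv) x hx

end Pool.Agent.Work.MP_b730b2_lc
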