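import Mathlib.Data.Set.Card
import Mathlib.Data.Fintype.Pi
import Mathlib.Data.Fintype.Prod
import Mathlib.Data.Fintype.Powerset
import Mathlib.Data.Set.Finite.Powerset
import Mathlib.Tactic

/-! Ehrenfeucht-Fraisse games for binary relational structures. -/

namespace Pool.Agent.Work.MP_b730b2_lc

/-- A structure with unary and binary relations, living on a subset of a type. -/
structure Str (ι κ V : Type) where
  dom : Set V
  U : ι → V → Prop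
  R : κ → V → V → Prop

variable {ι κ V W Z : Type}

/-- Atomic agreement of two pairs. -/
def Ag (A : Str ι κ V) (B : Str ι κ W) (p p' : V × W) : Prop :=
  (p.1 = p'.1 ↔ p.2 = p'.2) ∧ (∀ i, A.U i p.1 ↔ B.U i p.2) ∧
    ∀ k, A.R k p.1 p'.1 ↔ B.R k p.2 p'.2

/-- Local isomorphisms. -/
def PI (A : Str ι κ V) (B : Str ι κ W) (S : Set (V × W)) : Prop :=
  ∀ p ∈ S, ∀ p' ∈ S, Ag A B p p'

/-- The duplicator wins the `n`-round game from position `S`. -/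
def EF (A : Str ι κ V) (B : Str ι κ W) : ℕ → Set (V × W) → Prop
  | 0, S => PI A B S
  | n + 1, S => PI A B S ∧ (∀ a ∈ A.dom, ∃ b ∈ B.dom, EF A B n (insert (a, b) S)) ∧
      ∀ b ∈ B.dom, ∃ a ∈ A.dom, EF A B n (insert (a, b) S)

variable {A : Str ι κ V} {B : Str ι κ W}

theorem PI.mono {S S' : Set (V × W)} (h : PI A B S') (hs : S ⊆ S') : PI A B S :=
  fun p hp p' hp' => h p (hs hp) p' (hs hp')

theorem EF.pi : ∀ {n : ℕ} {S : Set (V × W)}, EF A B n S → PI A B S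
  | 0, _, h => h
  | _ + 1, _, h => h.1

theorem EF.of_inv (I : ℕ → Set (V × W) → Prop) (hpi : ∀ n S, I n S → PI A B S)
    (hf : ∀ n S, I (n + 1) S → ∀ a ∈ A.dom, ∃ b ∈ B.dom, I n (insert (a, b) S))
    (hb : ∀ n S, I (n + 1) S → ∀ b ∈ B.dom, ∃ a ∈ A.dom, I n (insert (a, b) S)) :
    ∀ n S, I n S → EF A B n S
  | 0, S, h => hpi 0 S h
  | n + 1, S, h => by
    refine ⟨hpi _ S h, fun a ha => ?_, fun b hb' => ?_⟩
    · obtain ⟨b, hb', h'⟩ := hf n S h a ha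
      exact ⟨b, hb', EF.of_inv I hpi hf hb n _ h'⟩
    · obtain ⟨a, ha, h'⟩ := hb n S h b hb'
      exact ⟨a, ha, EF.of_inv I hpi hf hb n _ h'⟩

theorem EF.mono : ∀ {n : ℕ} {S S' : Set (V × W)}, EF A B n S' → S ⊆ S' → EF A B n S
  | 0, _, _, h, hs => PI.mono h hs
  | n + 1, _, _, h, hs => by
    refine ⟨h.1.mono hs, fun a ha => ?_, fun b hb => ?_⟩
    · obtain ⟨b, hb, h'⟩ := h.2.1 a ha
      exact ⟨b, hb, h'.mono (Set.insert_subset_insert hs)⟩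
    · obtain ⟨a, ha, h'⟩ := h.2.2 b hb
      exact ⟨a, ha, h'.mono (Set.insert_subset_insert hs)⟩

theorem EF.pred : ∀ {n : ℕ} {S : Set (V × W)}, EF A B (n + 1) S → EF A B n S
  | 0, _, h => h.1
  | n + 1, _, h => by
    refine ⟨h.1, fun a ha => ?_, fun b hb => ?_⟩
    · obtain ⟨b, hb, h'⟩ := h.2.1 a ha
      exact ⟨b, hb, h'.pred⟩
    · obtain ⟨a, ha, h'⟩ := h.2.2 b hb
      exact ⟨a, ha, h'.pred⟩

theorem EF.of_le {n m : ℕ} {S : Set (V × W)} (h : EF A B m S) (hn : n ≤ m) : EF A B n S := by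
  induction hn with
  | refl => exact h
  | step _ ih => exact ih h.pred

theorem Ag.symm {p p' : V × W} (h : Ag A B p p') : Ag B A p.swap p'.swap :=
  ⟨h.1.symm, fun i => (h.2.1 i).symm, fun k => (h.2.2 k).symm⟩

theorem PI.symm {S : Set (V × W)} (h : PI A B S) : PI B A (Prod.swap '' S) := by
  rintro _ ⟨p, hp, rfl⟩ _ ⟨p', hp', rfl⟩
  exact (h p hp p' hp').symm

theorem EF.symm : ∀ {n : ℕ} {S : Set (V × W)}, EF A B n S → EF B A n (Prod.swap '' S)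
  | 0, _, h => PI.symm h
  | n + 1, _, h => by
    refine ⟨h.1.symm, fun b hb => ?_, fun a ha => ?_⟩
    · obtain ⟨a, ha, h'⟩ := h.2.2 b hb
      refine ⟨a, ha, ?_⟩
      simpa [Set.image_insert_eq] using h'.symm
    · obtain ⟨b, hb, h'⟩ := h.2.1 a ha
      refine ⟨b, hb, ?_⟩
      simpa [Set.image_insert_eq] using h'.symm

theorem EF.symm0 {n : ℕ} (h : EF A B n ∅) : EF B A n ∅ := by
  simpa using h.symm

/-- Passing to a quantifier-free definable reduct. -/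
theorem EF.reduct {ι' κ' : Type} {A' : Str ι' κ' V} {B' : Str ι' κ' W} (hA : A'.dom = A.dom)
    (hB : B'.dom = B.dom)
    (h : ∀ p p' : V × W, p.1 ∈ A.dom → p.2 ∈ B.dom → p'.1 ∈ A.dom → p'.2 ∈ B.dom →
      Ag A B p p → Ag A B p' p' → Ag A B p p' → Ag A B p' p → Ag A' B' p p')
    {n : ℕ} (hn : EF A B n ∅) : EF A' B' n ∅ := by
  refine EF.of_inv (fun n S => (∀ p ∈ S, p.1 ∈ A.dom ∧ p.2 ∈ B.dom) ∧ EF A B n S) ?_ ?_ ?_ n ∅
    ⟨by simp, hn⟩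
  · rintro n S ⟨h1, h2⟩ p hp p' hp'
    exact h p p' (h1 p hp).1 (h1 p hp).2 (h1 p' hp').1 (h1 p' hp').2 (h2.pi p hp p hp)
      (h2.pi p' hp' p' hp') (h2.pi p hp p' hp') (h2.pi p' hp' p hp)
  · rintro n S ⟨h1, h2⟩ a ha
    rw [hA] at ha
    obtain ⟨b, hb, h'⟩ := h2.2.1 a ha
    refine ⟨b, hB ▸ hb, ?_, h'⟩
    rintro p (rfl | hp)
    · exact ⟨ha, hb⟩
    · exact h1 p hp
  · rintro n S ⟨h1, h2⟩ b hb
    rw [hB] at hb
    obtain ⟨a, ha, h'⟩ := h2.2.2 b hb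
    refine ⟨a, hA ▸ ha, ?_, h'⟩
    rintro p (rfl | hp)
    · exact ⟨ha, hb⟩
    · exact h1 p hp

/-- A total local isomorphism is a winning strategy. -/
theorem EF.of_iso {T : Set (V × W)} (h : PI A B T) (hA : ∀ a ∈ A.dom, ∃ b ∈ B.dom, (a, b) ∈ T)
    (hB : ∀ b ∈ B.dom, ∃ a ∈ A.dom, (a, b) ∈ T) (n : ℕ) : EF A B n ∅ := by
  refine EF.of_inv (fun _ S => S ⊆ T) (fun _ S hS => h.mono hS) ?_ ?_ n ∅ (Set.empty_subset _)
  · intro n S hS a ha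
    obtain ⟨b, hb, h'⟩ := hA a ha
    exact ⟨b, hb, Set.insert_subset h' hS⟩
  · intro n S hS b hb
    obtain ⟨a, ha, h'⟩ := hB b hb
    exact ⟨a, ha, Set.insert_subset h' hS⟩

/-- Atomic diagrams of `m`-tuples. -/
abbrev Atom (ι κ : Type) (m : ℕ) : Type :=
  (Fin m → Fin m → Prop) × (ι → Fin m → Prop) × (κ → Fin m → Fin m → Prop)

/-- Rank `n` types of `m`-tuples. -/
def Ty (ι κ : Type) : ℕ → ℕ → Type
  | 0, m => Atom ι κ m
  | n + 1, m => Atom ι κ m × Set (Ty ι κ n (m + 1))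

instance Ty.finite [Finite ι] [Finite κ] : ∀ n m : ℕ, Finite (Ty ι κ n m)
  | 0, m => inferInstanceAs (Finite (Atom ι κ m))
  | n + 1, m =>
    haveI := Ty.finite n (m + 1)
    inferInstanceAs (Finite (Atom ι κ m × Set (Ty ι κ n (m + 1))))

/-- The atomic diagram of a tuple. -/
def atom (A : Str ι κ V) {m : ℕ} (x : Fin m → V) : Atom ι κ m :=
  (fun i j => x i = x j, fun u i => A.U u (x i), fun k i j => A.R k (x i) (x j))

/-- The rank `n` type of a tuple. -/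
def tp (A : Str ι κ V) : ∀ (n : ℕ) {m : ℕ}, (Fin m → V) → Ty ι κ n m
  | 0, _, x => atom A x
  | n + 1, _, x => (atom A x, {τ | ∃ a ∈ A.dom, tp A n (Fin.snoc x a) = τ})

theorem atom_iff {m : ℕ} (x : Fin m → V) (y : Fin m → W) :
    atom A x = atom B y ↔ PI A B (Set.range fun i => (x i, y i)) := by
  constructor
  · intro h
    rintro _ ⟨i, rfl⟩ _ ⟨j, rfl⟩
    simp only [atom, Prod.mk.injEq] at h
    obtain ⟨h1, h2, h3⟩ := h
    exact ⟨iff_of_eq (congrFun (congrFun h1 i) j), fun u => iff_of_eq (congrFun (congrFun h2 u) i),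
      fun k => iff_of_eq (congrFun (congrFun (congrFun h3 k) i) j)⟩
  · intro h
    simp only [atom, Prod.mk.injEq]
    refine ⟨?_, ?_, ?_⟩
    · funext i j
      exact propext (h _ ⟨i, rfl⟩ _ ⟨j, rfl⟩).1
    · funext u i
      exact propext ((h _ ⟨i, rfl⟩ _ ⟨i, rfl⟩).2.1 u)
    · funext k i j
      exact propext ((h _ ⟨i, rfl⟩ _ ⟨j, rfl⟩).2.2 k)

theorem range_snoc {m : ℕ} (x : Fin m → V) (y : Fin m → W) (a : V) (b : W) :
    (Set.range fun i => ((Fin.snoc x a : Fin (m + 1) → V) i, (Fin.snoc y b : Fin (m + 1) → W) i)) =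
      insert (a, b) (Set.range fun i => (x i, y i)) := by
  ext p
  simp only [Set.mem_range, Set.mem_insert_iff]
  constructor
  · rintro ⟨i, rfl⟩
    refine Fin.lastCases ?_ (fun i => ?_) i
    · left; simp
    · right; exact ⟨i, by simp⟩
  · rintro (rfl | ⟨i, rfl⟩)
    · exact ⟨Fin.last m, by simp⟩
    · exact ⟨i.castSucc, by simp⟩

theorem tp_iff : ∀ (n : ℕ) {m : ℕ} (x : Fin m → V) (y : Fin m → W),
    tp A n x = tp B n y ↔ EF A B n (Set.range fun i => (x i, y i))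
  | 0, _, x, y => atom_iff x y
  | n + 1, m, x, y => by
    have e : tp A (n + 1) x = tp B (n + 1) y ↔ atom A x = atom B y ∧
        {τ | ∃ a ∈ A.dom, tp A n (Fin.snoc x a) = τ} =
          {τ | ∃ b ∈ B.dom, tp B n (Fin.snoc y b) = τ} := Prod.ext_iff
    rw [e, atom_iff]
    refine and_congr_right fun _ => ?_
    simp only [← range_snoc, ← tp_iff n]
    constructor
    · intro h
      constructor
      · intro a ha
        have : tp A n (Fin.snoc x a) ∈ {τ | ∃ b ∈ B.dom, tp B n (Fin.snoc y b) = τ} := by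
          rw [← h]; exact ⟨a, ha, rfl⟩
        obtain ⟨b, hb, h'⟩ := this
        exact ⟨b, hb, h'.symm⟩
      · intro b hb
        have : tp B n (Fin.snoc y b) ∈ {τ | ∃ a ∈ A.dom, tp A n (Fin.snoc x a) = τ} := by
          rw [h]; exact ⟨b, hb, rfl⟩
        exact this
    · rintro ⟨h1, h2⟩
      ext τ
      constructor
      · rintro ⟨a, ha, rfl⟩
        obtain ⟨b, hb, h'⟩ := h1 a ha
        exact ⟨b, hb, h'.symm⟩
      · rintro ⟨b, hb, rfl⟩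
        exact h2 b hb

/-- The rank `n` type of a structure. -/
def tp0 (A : Str ι κ V) (n : ℕ) : Ty ι κ n 0 := tp A n Fin.elim0

theorem tp0_iff {n : ℕ} : tp0 A n = tp0 B n ↔ EF A B n ∅ := by
  rw [tp0, tp0, tp_iff]
  simp [Set.range_eq_empty]

theorem EF.trans0 {C : Str ι κ Z} {n : ℕ} (h : EF A B n ∅) (h' : EF B C n ∅) : EF A C n ∅ :=
  tp0_iff.1 ((tp0_iff.2 h).trans (tp0_iff.2 h'))

theorem EF.refl0 (A : Str ι κ V) (n : ℕ) : EF A A n ∅ := tp0_iff.1 rfl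

/-- Generalised sums. -/
theorem EF.gsum {ι' κ' ι'' κ'' I J : Type} {X : Str ι' κ' I} {Y : Str ι' κ' J}
    (π : V → I) (σ : W → J) (C : I → Str ι'' κ'' V) (D : J → Str ι'' κ'' W) {q : ℕ}
    (hπ : ∀ a ∈ A.dom, π a ∈ X.dom) (hσ : ∀ b ∈ B.dom, σ b ∈ Y.dom)
    (hC : ∀ i ∈ X.dom, ∀ a, a ∈ (C i).dom ↔ a ∈ A.dom ∧ π a = i)
    (hD : ∀ j ∈ Y.dom, ∀ b, b ∈ (D j).dom ↔ b ∈ B.dom ∧ σ b = j)
    (hcomp : ∀ i ∈ X.dom, ∀ j ∈ Y.dom, Ag X Y (i, j) (i, j) → EF (C i) (D j) q ∅)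
    (hsame : ∀ p p' : V × W, p.1 ∈ A.dom → p.2 ∈ B.dom → p'.1 ∈ A.dom → p'.2 ∈ B.dom →
      π p.1 = π p'.1 → σ p.2 = σ p'.2 → Ag X Y (π p.1, σ p.2) (π p.1, σ p.2) →
      Ag (C (π p.1)) (D (σ p.2)) p p' →
      Ag (C (π p.1)) (D (σ p.2)) p' p → Ag A B p p')
    (hdiff : ∀ p p' : V × W, p.1 ∈ A.dom → p.2 ∈ B.dom → p'.1 ∈ A.dom → p'.2 ∈ B.dom →
      π p.1 ≠ π p'.1 → σ p.2 ≠ σ p'.2 → Ag X Y (π p.1, σ p.2) (π p'.1, σ p'.2) →
      Ag X Y (π p'.1, σ p'.2) (π p.1, σ p.2) →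
      Ag (C (π p.1)) (D (σ p.2)) p p → Ag (C (π p'.1)) (D (σ p'.2)) p' p' → Ag A B p p')
    (h : EF X Y q ∅) : EF A B q ∅ := by
  let I : ℕ → Set (V × W) → Prop := fun n S => n ≤ q ∧ (∀ p ∈ S, p.1 ∈ A.dom ∧ p.2 ∈ B.dom) ∧
    EF X Y n (Prod.map π σ '' S) ∧
    ∀ p ∈ S, EF (C (π p.1)) (D (σ p.2)) n {p' | p' ∈ S ∧ π p'.1 = π p.1}
  have key : ∀ n S, I (n + 1) S → ∀ i ∈ X.dom, ∀ j ∈ Y.dom,
      EF X Y n (insert (i, j) (Prod.map π σ '' S)) →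
      EF (C i) (D j) (n + 1) {p' | p' ∈ S ∧ π p'.1 = i} := by
    rintro n S ⟨h0, h1, h2, h3⟩ i hi j hj hij
    by_cases hS : ∃ p ∈ S, π p.1 = i
    · obtain ⟨p, hp, rfl⟩ := hS
      have : σ p.2 = j :=
        (hij.pi (π p.1, σ p.2) (Or.inr ⟨p, hp, rfl⟩) (π p.1, j) (Or.inl rfl)).1.1 rfl
      subst this
      exact h3 p hp
    · have : {p' | p' ∈ S ∧ π p'.1 = i} = (∅ : Set (V × W)) := by
        ext p; simp only [Set.mem_ofPred_eq, Set.mem_empty_iff_false, iff_false]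
        exact fun hp => hS ⟨p, hp⟩
      rw [this]
      exact (hcomp i hi j hj (hij.pi _ (Or.inl rfl) _ (Or.inl rfl))).of_le h0
  have step : ∀ n S, I (n + 1) S → ∀ a ∈ A.dom, ∀ b ∈ B.dom,
      EF X Y n (insert (π a, σ b) (Prod.map π σ '' S)) →
      EF (C (π a)) (D (σ b)) n (insert (a, b) {p' | p' ∈ S ∧ π p'.1 = π a}) →
      I n (insert (a, b) S) := by
    rintro n S ⟨h0, h1, h2, h3⟩ a ha b hb e1 e2
    refine ⟨by omega, ?_, ?_, ?_⟩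
    · rintro p (rfl | hp)
      · exact ⟨ha, hb⟩
      · exact h1 p hp
    · rw [Set.image_insert_eq]; exact e1
    · have e3 : ∀ p : V × W, π p.1 = π a → σ p.2 = σ b →
          EF (C (π p.1)) (D (σ p.2)) n {p' | p' ∈ insert (a, b) S ∧ π p'.1 = π p.1} := by
        intro p hp1 hp2
        rw [hp1, hp2]
        refine e2.mono ?_
        rintro p' ⟨rfl | hp', hp''⟩
        · exact Or.inl rfl
        · exact Or.inr ⟨hp', hp''⟩
      rintro p (rfl | hp)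
      · exact e3 _ rfl rfl
      · by_cases hpa : π p.1 = π a
        · exact e3 p hpa
            ((e1.pi (π p.1, σ p.2) (Or.inr ⟨p, hp, rfl⟩) (π a, σ b) (Or.inl rfl)).1.1 hpa)
        · refine (h3 p hp).pred.mono ?_
          rintro p' ⟨rfl | hp', hp''⟩
          · exact absurd hp''.symm hpa
          · exact ⟨hp', hp''⟩
  refine EF.of_inv I ?_ ?_ ?_ q ∅ ⟨le_rfl, by simp, by simpa using h, by simp⟩
  · rintro n S ⟨h0, h1, h2, h3⟩ p hp p' hp'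
    have a1 := h2.pi (π p.1, σ p.2) ⟨p, hp, rfl⟩ (π p'.1, σ p'.2) ⟨p', hp', rfl⟩
    have a2 := h2.pi (π p'.1, σ p'.2) ⟨p', hp', rfl⟩ (π p.1, σ p.2) ⟨p, hp, rfl⟩
    by_cases hpp : π p.1 = π p'.1
    · exact hsame p p' (h1 p hp).1 (h1 p hp).2 (h1 p' hp').1 (h1 p' hp').2 hpp (a1.1.1 hpp)
        (h2.pi (π p.1, σ p.2) ⟨p, hp, rfl⟩ (π p.1, σ p.2) ⟨p, hp, rfl⟩)
        ((h3 p hp).pi p ⟨hp, rfl⟩ p' ⟨hp', hpp.symm⟩) ((h3 p hp).pi p' ⟨hp', hpp.symm⟩ p ⟨hp, rfl⟩)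
    · exact hdiff p p' (h1 p hp).1 (h1 p hp).2 (h1 p' hp').1 (h1 p' hp').2 hpp
        (fun h => hpp (a1.1.2 h)) a1 a2
        ((h3 p hp).pi p ⟨hp, rfl⟩ p ⟨hp, rfl⟩) ((h3 p' hp').pi p' ⟨hp', rfl⟩ p' ⟨hp', rfl⟩)
  · intro n S hI a ha
    obtain ⟨j, hj, e1⟩ := hI.2.2.1.2.1 (π a) (hπ a ha)
    obtain ⟨b, hb, e2⟩ := (key n S hI _ (hπ a ha) j hj e1).2.1 a ((hC _ (hπ a ha) a).2 ⟨ha, rfl⟩)
    obtain ⟨hb1, rfl⟩ := (hD j hj b).1 hb
    exact ⟨b, hb1, step n S hI a ha b hb1 e1 e2⟩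
  · intro n S hI b hb
    obtain ⟨i, hi, e1⟩ := hI.2.2.1.2.2 (σ b) (hσ b hb)
    obtain ⟨a, ha, e2⟩ := (key n S hI i hi _ (hσ b hb) e1).2.2 b ((hD _ (hσ b hb) b).2 ⟨hb, rfl⟩)
    obtain ⟨ha1, rfl⟩ := (hC i hi a).1 ha
    exact ⟨a, ha1, step n S hI a ha1 b hb e1 e2⟩

end Pool.Agent.Work.MP_b730b2_lc
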