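import Pool.Agent.Work.MP_b730b2_lc.Inv
import Mathlib.Data.Set.Card.Arithmetic

/-! Extending a height function given on a bounded set. -/

namespace Pool.Agent.Work.MP_b730b2_lc

open Set

variable {c : ℕ} {V W : Type}

theorem ncard_biUnion_mul {α β : Type} [Finite α] (A : Set α) (F : α → Set β) (b : ℕ)
    (h : ∀ x ∈ A, (F x).ncard ≤ b) : (⋃ x ∈ A, F x).ncard ≤ A.ncard * b := by
  have hA := toFinite A
  have h1 := hA.toFinset.set_ncard_biUnion_le F
  simp only [Finite.mem_toFinset] at h1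
  refine h1.trans ?_
  rw [ncard_eq_toFinset_card A hA]
  exact Finset.sum_le_card_nsmul _ _ _ (fun x hx => h x (by simpa using hx))

namespace Gr

variable (G : Gr c V)

/-- Being joined by a walk of length at most `d`. -/
def Near : ℕ → V → V → Prop
  | 0, x, y => x = y
  | d + 1, x, y => Near d x y ∨ ∃ z, Near d x z ∧ G.E z y

/-- Degree bound. -/
def Deg (Δ : ℕ) : Prop := ∀ x, {y | G.E x y}.ncard ≤ Δ

/-- Neighbours of a set. -/
def nb (A : Set V) : Set V := ⋃ x ∈ A, {y | G.E x y}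

/-- Balls around a set. -/
def ball (Y : Set V) (d : ℕ) : Set V := {v | ∃ y ∈ Y, G.Near d y v}

variable {G}

theorem Near.mono {d d' : ℕ} {x y : V} (h : G.Near d x y) (hd : d ≤ d') : G.Near d' x y := by
  induction hd with
  | refl => exact h
  | step _ ih => exact Or.inl ih

theorem Near.head {x y : V} (e : G.E x y) : ∀ {d : ℕ} {z : V}, G.Near d y z → G.Near (d + 1) x z
  | 0, _, h => Or.inr ⟨x, rfl, h ▸ e⟩
  | _ + 1, _, Or.inl h => Or.inl (Near.head e h)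
  | _ + 1, _, Or.inr ⟨w, h, e'⟩ => Or.inr ⟨w, Near.head e h, e'⟩

theorem Near.symm : ∀ {d : ℕ} {x y : V}, G.Near d x y → G.Near d y x
  | 0, _, _, h => Eq.symm h
  | _ + 1, _, _, Or.inl h => Or.inl h.symm
  | _ + 1, _, _, Or.inr ⟨_, h, e⟩ => Near.head (G.symm _ _ e) h.symm

theorem Near.trans {d : ℕ} {x y : V} (h : G.Near d x y) :
    ∀ {d' : ℕ} {z : V}, G.Near d' y z → G.Near (d + d') x z
  | 0, _, h' => h' ▸ h
  | _ + 1, _, Or.inl h' => Or.inl (h.trans h')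
  | _ + 1, _, Or.inr ⟨w, h', e⟩ => Or.inr ⟨w, h.trans h', e⟩

theorem Near.lip {f : V → ℕ} (hf : ∀ v w, G.E v w → f v ≤ f w + 1) :
    ∀ {d : ℕ} {x y : V}, G.Near d x y → f x ≤ f y + d
  | 0, _, _, h => by rw [show _ = _ from h]; omega
  | d + 1, _, _, Or.inl h => by have := h.lip hf; omega
  | d + 1, _, _, Or.inr ⟨w, h, e⟩ => by have := h.lip hf; have := hf _ _ e; omega

theorem ncard_nb [Finite V] {Δ : ℕ} (h : G.Deg Δ) (A : Set V) : (G.nb A).ncard ≤ A.ncard * Δ :=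
  ncard_biUnion_mul A _ Δ (fun x _ => h x)

theorem ncard_ball [Finite V] {Δ : ℕ} (h : G.Deg Δ) (Y : Set V) :
    ∀ d, (G.ball Y d).ncard ≤ Y.ncard * (Δ + 1) ^ d
  | 0 => by
    rw [pow_zero, mul_one]
    refine ncard_le_ncard ?_
    rintro v ⟨y, hy, e⟩
    exact (show y = v from e) ▸ hy
  | d + 1 => by
    have h1 := ncard_ball h Y d
    have h2 := ncard_nb h (G.ball Y d)
    have h3 : G.ball Y (d + 1) ⊆ G.ball Y d ∪ G.nb (G.ball Y d) := by
      rintro v ⟨y, hy, e | ⟨z, e, e'⟩⟩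
      · exact Or.inl ⟨y, hy, e⟩
      · exact Or.inr (mem_biUnion (show z ∈ G.ball Y d from ⟨y, hy, e⟩) e')
    have h4 := (ncard_le_ncard h3).trans (ncard_union_le _ _)
    calc _ ≤ (G.ball Y d).ncard * (Δ + 1) := by rw [mul_add]; omega
      _ ≤ Y.ncard * (Δ + 1) ^ d * (Δ + 1) := Nat.mul_le_mul_right _ h1
      _ = _ := by ring

theorem near_transfer {H : Gr c W} : ∀ {d : ℕ} {S : Set (V × W)} {a b : V} {a' b' : W},
    EF G.str H.str d S → (a, a') ∈ S → (b, b') ∈ S → H.Near d a' b' → G.Near d a b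
  | 0, _, _, _, _, _, h, h1, h2, e => (h _ h1 _ h2).1.2 e
  | _ + 1, _, _, _, _, _, h, h1, h2, Or.inl e => Or.inl (near_transfer h.pred h1 h2 e)
  | _ + 1, _, _, _, _, _, h, h1, h2, Or.inr ⟨z', e, e'⟩ => by
    obtain ⟨z, -, h3⟩ := h.2.2 z' trivial
    exact Or.inr ⟨z, near_transfer h3 (Or.inr h1) (Or.inl rfl) e,
      ((h3.pi _ (Or.inl rfl) _ (Or.inr h2)).2.2 ()).2 e'⟩

theorem lip_extend {r : ℕ} (Y : Set V) (φ g : V → ℕ) (h1 : ∀ y ∈ Y, φ y ≤ r)
    (h2 : ∀ y ∈ Y, ∀ y' ∈ Y, ∀ d ≤ r, G.Near d y y' → φ y ≤ φ y' + d) (g1 : ∀ v, g v ≤ r)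
    (g2 : ∀ v w, G.E v w → g v ≤ g w + 1) : ∃ F : V → ℕ, (∀ v, F v ≤ r) ∧
      (∀ v w, G.E v w → F v ≤ F w + 1) ∧ (∀ y ∈ Y, F y = φ y) ∧
      ∀ v, v ∉ G.ball Y r → F v = g v := by
  have h3 : ∀ y ∈ Y, ∀ y' ∈ Y, ∀ d, G.Near d y y' → φ y ≤ φ y' + d := by
    intro y hy y' hy' d e
    by_cases c : d ≤ r
    · exact h2 y hy y' hy' d c e
    · have := h1 y hy; omega
  let hi : V → ℕ := fun v => sInf {m | m = r ∨ ∃ y ∈ Y, ∃ d, G.Near d y v ∧ m = φ y + d}
  let lo : V → ℕ := fun v => sSup {m | ∃ y ∈ Y, ∃ d, G.Near d y v ∧ m + d = φ y}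
  have hi1 : ∀ v, hi v = r ∨ ∃ y ∈ Y, ∃ d, G.Near d y v ∧ hi v = φ y + d := fun v =>
    Nat.sInf_mem (s := {m | m = r ∨ ∃ y ∈ Y, ∃ d, G.Near d y v ∧ m = φ y + d}) ⟨r, Or.inl rfl⟩
  have hi2 : ∀ v, hi v ≤ r := fun v => Nat.sInf_le (Or.inl rfl)
  have hi3 : ∀ v, ∀ y ∈ Y, ∀ d, G.Near d y v → hi v ≤ φ y + d := fun v y hy d e =>
    Nat.sInf_le (Or.inr ⟨y, hy, d, e, rfl⟩)
  have bd : ∀ v, BddAbove {m | ∃ y ∈ Y, ∃ d, G.Near d y v ∧ m + d = φ y} := by
    refine fun v => ⟨r, ?_⟩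
    rintro m ⟨y, hy, d, -, e⟩
    have := h1 y hy; omega
  have lo1 : ∀ v, lo v = 0 ∨ ∃ y ∈ Y, ∃ d, G.Near d y v ∧ lo v + d = φ y := by
    intro v
    rcases eq_empty_or_nonempty {m | ∃ y ∈ Y, ∃ d, G.Near d y v ∧ m + d = φ y} with e | e
    · left; simp only [lo, e]; simp
    · right; exact Nat.sSup_mem e (bd v)
  have lo2 : ∀ v, ∀ y ∈ Y, ∀ d, G.Near d y v → φ y ≤ lo v + d := by
    intro v y hy d e
    by_cases c : d ≤ φ y
    · have : φ y - d ≤ lo v := le_csSup (bd v) ⟨y, hy, d, e, by omega⟩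
      omega
    · omega
  refine ⟨fun v => max (lo v) (min (hi v) (g v)), fun v => ?_, fun v w e => ?_,
    fun y hy => ?_, fun v hv => ?_⟩
  · have := hi2 v
    rcases lo1 v with a | ⟨y, hy, d, -, a⟩
    · simp only; omega
    · have := h1 y hy; simp only; omega
  · have a1 : lo v ≤ lo w + 1 := by
      rcases lo1 v with a | ⟨y, hy, d, n, a⟩
      · omega
      · have := lo2 w y hy (d + 1) (Or.inr ⟨v, n, e⟩); omega
    have a2 : hi v ≤ hi w + 1 := by
      rcases hi1 w with a | ⟨y, hy, d, n, a⟩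
      · have := hi2 v; omega
      · have := hi3 v y hy (d + 1) (Or.inr ⟨w, n, G.symm _ _ e⟩); omega
    have := g2 v w e
    simp only; omega
  · have a1 := lo2 y y hy 0 rfl
    have a2 := hi3 y y hy 0 rfl
    have a3 : lo y ≤ φ y := by
      rcases lo1 y with a | ⟨y', hy', d, n, a⟩
      · omega
      · have := h3 y' hy' y hy d n; omega
    simp only; omega
  · have a1 : lo v = 0 := by
      rcases lo1 v with a | ⟨y, hy, d, n, a⟩
      · exact a
      · have := h1 y hy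
        exact absurd ⟨y, hy, n.mono (by omega)⟩ hv
    have a2 : r ≤ hi v := by
      rcases hi1 v with a | ⟨y, hy, d, n, a⟩
      · omega
      · by_contra c
        exact hv ⟨y, hy, n.mono (by omega)⟩
    have := g1 v
    simp only; omega

theorem comp_bound [Finite V] {Δ D0 : ℕ} (h : G.Deg Δ) {A A0 N : Set V}
    (hA : ∀ v ∈ A, v ∉ N → v ∈ A0) (h0 : ∀ x, (G.comp A0 x).ncard ≤ D0) (x : V) :
    (G.comp A x).ncard ≤ N.ncard + D0 + N.ncard * Δ * D0 := by
  have sub : G.comp A x ⊆ N ∪ G.comp A0 x ∪ ⋃ z ∈ G.nb N, G.comp A0 z := by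
    intro y hy
    induction hy with
    | refl => exact Or.inl (Or.inr mem_comp_self)
    | @tail y z _ e ih =>
      by_cases c : z ∈ N
      · exact Or.inl (Or.inl c)
      · by_cases d : y ∈ N
        · exact Or.inr (mem_biUnion (show z ∈ G.nb N from mem_biUnion d e.1) mem_comp_self)
        · have e' : G.E y z ∧ y ∈ A0 ∧ z ∈ A0 := ⟨e.1, hA y e.2.1 d, hA z e.2.2 c⟩
          rcases ih with (a | a) | a
          · exact absurd a d
          · exact Or.inl (Or.inr (Relation.ReflTransGen.tail a e'))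
          · simp only [mem_iUnion] at a
            obtain ⟨w, hw, a⟩ := a
            exact Or.inr (mem_biUnion hw (Relation.ReflTransGen.tail a e'))
  have h1 := (ncard_le_ncard sub).trans (ncard_union_le _ _)
  have h2 := ncard_union_le N (G.comp A0 x)
  have h3 := ncard_biUnion_mul (G.nb N) (G.comp A0) D0 (fun z _ => h0 z)
  have h4 := Nat.mul_le_mul_right D0 (ncard_nb h N)
  have h5 := h0 x
  omega

end Gr

theorem EF.play {ι κ : Type} {A : Str ι κ V} {B : Str ι κ W} (hA : A.dom = univ) {n : ℕ}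
    (X : Set V) (hX : X.Finite) : ∀ {S : Set (V × W)}, S.Finite → EF A B (n + X.ncard) S →
    ∃ S', S ⊆ S' ∧ S'.Finite ∧ EF A B n S' ∧ S'.ncard ≤ S.ncard + X.ncard ∧
      ∀ x ∈ X, ∃ y, (x, y) ∈ S' := by
  induction X, hX using Set.Finite.induction_on with
  | empty => exact fun hS h => ⟨_, Subset.rfl, hS, by simpa using h, by simp, by simp⟩
  | @insert a X ha hX ih =>
    intro S hS h
    rw [ncard_insert_of_notMem ha hX] at h ⊢
    obtain ⟨b, -, h1⟩ := h.2.1 a (hA ▸ trivial)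
    obtain ⟨S', a1, a2, a3, a4, a5⟩ := ih (hS.insert _) h1
    refine ⟨S', (subset_insert _ _).trans a1, a2, a3, ?_, ?_⟩
    · have := ncard_insert_le (a, b) S
      omega
    · rintro x (rfl | hx)
      · exact ⟨b, a1 (Or.inl rfl)⟩
      · exact a5 x hx

end Pool.Agent.Work.MP_b730b2_lc
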