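import Pool.Agent.Work.MP_b730b2_lc.Perm

/-! Hiding an arbitrary class-preserving permutation along a long sequence of orders. -/

namespace Pool.Agent.Work.MP_b730b2_lc

open Set

variable {Ω Ω' K : Type}

/-- The members of a class. -/
def cls (D : Set Ω) (key : Ω → K) (κ : K) : Set Ω := {x | x ∈ D ∧ key x = κ}

/-- Enumerations of all classes. -/
def Norm (D : Set Ω) (key : Ω → K) (o : Ω → ℕ) : Prop :=
  ∀ κ, BijOn o (cls D key κ) (Iio (cls D key κ).ncard)

/-- Two enumerations of all classes. -/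
def PS (D : Set Ω) (key : Ω → K) (o o' : Ω → ℕ) : Str K Bool Ω where
  dom := D
  U κ x := key x = κ
  R b x y := key x = key y ∧ if b then o' x < o' y else o x < o y

/-- Acting on enumerations. -/
def act (key : Ω → K) (g : K → ℕ → ℕ) (o : Ω → ℕ) : Ω → ℕ := fun x => g (key x) (o x)

/-- Class-wise permutations. -/
def Prm (D : Set Ω) (key : Ω → K) (g : K → ℕ → ℕ) : Prop :=
  ∀ κ, BijOn (g κ) (Iio (cls D key κ).ncard) (Iio (cls D key κ).ncard)

theorem Norm.act {D : Set Ω} {key : Ω → K} {o : Ω → ℕ} {g : K → ℕ → ℕ} (h : Norm D key o)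
    (hg : Prm D key g) : Norm D key (act key g o) := fun κ =>
  ((hg κ).comp (h κ)).congr (fun x hx => by simp [Pool.Agent.Work.MP_b730b2_lc.act, hx.2])

theorem exists_norm {β : Type} [LinearOrder β] {D : Set Ω} (hD : D.Finite) (key : Ω → K)
    (s : Ω → β) (hs : InjOn s D) : ∃ o, Norm D key o ∧
      ∀ x ∈ D, ∀ y ∈ D, key x = key y → (o x < o y ↔ s x < s y) := by
  let o : Ω → ℕ := fun x => {y | y ∈ cls D key (key x) ∧ s y < s x}.ncard
  have hf : ∀ κ, (cls D key κ).Finite := fun κ => hD.subset (fun x hx => hx.1)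
  have h1 : ∀ x ∈ D, ∀ y ∈ D, key x = key y → s x < s y → o x < o y := by
    intro x hx y hy e h
    refine ncard_lt_ncard ⟨?_, ?_⟩ ((hf _).subset (fun x hx => hx.1))
    · rintro z ⟨hz, hz'⟩
      exact ⟨e ▸ hz, hz'.trans h⟩
    · intro hc
      exact lt_irrefl _ (hc ⟨⟨hx, e⟩, h⟩).2
  have h2 : ∀ x ∈ D, ∀ y ∈ D, key x = key y → (o x < o y ↔ s x < s y) := by
    intro x hx y hy e
    refine ⟨fun h => ?_, h1 x hx y hy e⟩
    rcases lt_trichotomy (s x) (s y) with c | c | c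
    · exact c
    · rw [hs hx hy c] at h; exact absurd h (lt_irrefl _)
    · exact absurd (h1 y hy x hx e.symm c) (by omega)
  refine ⟨o, fun κ => ?_, h2⟩
  have m : MapsTo o (cls D key κ) (Iio (cls D key κ).ncard) := by
    rintro x ⟨hx, rfl⟩
    refine ncard_lt_ncard ⟨fun z hz => hz.1, fun hc => ?_⟩ (hf _)
    exact lt_irrefl _ (hc ⟨hx, rfl⟩).2
  have i : InjOn o (cls D key κ) := by
    intro x hx y hy e
    have e' : key x = key y := hx.2.trans hy.2.symm
    rcases lt_trichotomy (s x) (s y) with c | c | c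
    · exact absurd (h1 x hx.1 y hy.1 e' c) (by omega)
    · exact hs hx.1 hy.1 c
    · exact absurd (h1 y hy.1 x hx.1 e'.symm c) (by omega)
  refine ⟨m, i, fun b hb => ?_⟩
  obtain ⟨a, ha, e⟩ := surj_on_of_inj_on_of_ncard_le (s := cls D key κ) (fun a _ => o a)
    (fun a ha => m ha) (fun a b ha hb e => i ha hb e) (by simp) (finite_Iio _) b hb
  exact ⟨a, ha, e.symm⟩

/-- The trivial index structure on the set of classes. -/
def KS (K : Type) : Str K Empty K where
  dom := univ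
  U κ x := x = κ
  R := fun e _ _ => e.elim

section
variable {D : Set Ω} {key : Ω → K} {D' : Set Ω'} {key' : Ω' → K} {q : ℕ}

theorem PS_of_cls {o o1 : Ω → ℕ} {u u1 : Ω' → ℕ}
    (h : ∀ κ, EF (CS (cls D key κ) o o1) (CS (cls D' key' κ) u u1) q ∅) :
    EF (PS D key o o1) (PS D' key' u u1) q ∅ := by
  refine EF.gsum (X := KS K) (Y := KS K) key key' (fun κ => CS (cls D key κ) o o1)
    (fun κ => CS (cls D' key' κ) u u1) (fun _ _ => trivial) (fun _ _ => trivial)
    (fun _ _ _ => Iff.rfl) (fun _ _ _ => Iff.rfl) ?_ ?_ ?_ (EF.refl0 _ _)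
  · intro i _ j _ hij
    have : j = i := (hij.2.1 i).1 rfl
    subst this
    exact h j
  · intro p p' _ _ _ _ e1 e2 a1 a2 _
    have e : key' p.2 = key p.1 := (a1.2.1 (key p.1)).1 rfl
    refine ⟨a2.1, fun κ => by simp [PS, e], fun b => ?_⟩
    have := a2.2.2 b
    simp only [PS, e1, e2, true_and]
    exact this
  · intro p p' _ _ _ _ e1 e2 a1 _ _ _
    have e : key' p.2 = key p.1 := (a1.2.1 (key p.1)).1 rfl
    refine ⟨⟨fun h => absurd (congrArg key h) e1, fun h => absurd (congrArg key' h) e2⟩,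
      fun κ => by simp [PS, e], fun b => by simp [PS, e1, e2]⟩

theorem PS_act {o : Ω → ℕ} {u : Ω' → ℕ} {g h : K → ℕ → ℕ} (ho : Norm D key o)
    (hu : Norm D' key' u)
    (H : ∀ κ, EF (NS (cls D key κ).ncard (g κ)) (NS (cls D' key' κ).ncard (h κ)) q ∅) :
    EF (PS D key o (act key g o)) (PS D' key' u (act key' h u)) q ∅ := by
  refine PS_of_cls fun κ => ?_
  refine ((CS_NS (ho κ) ?_ q).trans0 (H κ)).trans0 (CS_NS (hu κ) ?_ q).symm0
  · intro x hx; simp [act, hx.2]
  · intro x hx; simp [act, hx.2]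

theorem PS_swap {o o1 : Ω → ℕ} {u u1 : Ω' → ℕ}
    (h : EF (PS D key o o1) (PS D' key' u u1) q ∅) :
    EF (PS D key o1 o) (PS D' key' u1 u) q ∅ := by
  refine EF.reduct (by rfl) (by rfl) ?_ h
  intro p p' _ _ _ _ _ _ a _
  refine ⟨a.1, a.2.1, fun b => ?_⟩
  cases b
  · exact a.2.2 true
  · exact a.2.2 false

theorem PS_diag {o o1 : Ω → ℕ} {u u1 : Ω' → ℕ}
    (h : EF (PS D key o o1) (PS D' key' u u1) q ∅) :
    EF (PS D key o o) (PS D' key' u u) q ∅ := by
  refine EF.reduct (by rfl) (by rfl) ?_ h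
  intro p p' _ _ _ _ _ _ a _
  refine ⟨a.1, a.2.1, fun b => ?_⟩
  cases b
  · exact a.2.2 false
  · exact a.2.2 false

end

/-- Sequences of enumerations, with the types of consecutive pairs. -/
inductive Path (D : Set Ω) (key : Ω → K) (q : ℕ) :
    (Ω → ℕ) → List (Ty K Bool q 0) → (Ω → ℕ) → Prop
  | nil {o} : Norm D key o → Path D key q o [] o
  | cons {o o1 o' w} : Norm D key o → Path D key q o1 w o' →
      Path D key q o (tp0 (PS D key o o1) q :: w) o'

section
variable {D : Set Ω} {key : Ω → K} {D' : Set Ω'} {key' : Ω' → K} {q : ℕ}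

theorem Path.append {o o' o'' w w'} (h : Path D key q o w o') (h' : Path D key q o' w' o'') :
    Path D key q o (w ++ w') o'' := by
  induction h with
  | nil _ => exact h'
  | cons hn _ ih => exact Path.cons hn (ih h')

theorem Path.seq {o o' w} (h : Path D key q o w o') : ∃ s : ℕ → Ω → ℕ, s 0 = o ∧
    s w.length = o' ∧ (∀ i, Norm D key (s i)) ∧
    ∀ i < w.length, w[i]? = some (tp0 (PS D key (s i) (s (i + 1))) q) := by
  induction h with
  | @nil o hn => exact ⟨fun _ => o, rfl, rfl, fun _ => hn, by simp⟩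
  | @cons o o1 o' w hn _ ih =>
    obtain ⟨s, h0, h1, h2, h3⟩ := ih
    refine ⟨fun i => Nat.casesOn i o s, rfl, h1, ?_, ?_⟩
    · rintro (_ | i)
      · exact hn
      · exact h2 i
    · rintro (_ | i) hi
      · simp [h0]
      · simpa using h3 i (by simpa using hi)

theorem updown {g : K → ℕ → ℕ} (hg : Prm D key g) {X Y : Ty K Bool q 0}
    (hX : ∀ o, Norm D key o → tp0 (PS D key o (act key g o)) q = X)
    (hY : ∀ o, Norm D key o → tp0 (PS D key (act key g o) o) q = Y) (N : ℕ) :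
    ∀ o, Norm D key o → Path D key q o (List.replicate N X ++ List.replicate N Y) o := by
  induction N with
  | zero => exact fun o ho => Path.nil ho
  | succ N ih =>
    intro o ho
    have h1 := Path.cons ho ((ih _ (ho.act hg)).append (Path.cons (ho.act hg) (Path.nil ho)))
    rw [hX o ho, hY o ho] at h1
    rw [List.replicate_succ, List.replicate_succ' (a := Y)]
    simpa only [List.cons_append, List.append_assoc] using h1

theorem stage {g h : K → ℕ → ℕ} (hg : Prm D key g) (hh : Prm D' key' h)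
    (H : ∀ κ, EF (NS (cls D key κ).ncard (g κ)) (NS (cls D' key' κ).ncard (h κ)) q ∅)
    {o : Ω → ℕ} (ho : Norm D key o) {u : Ω' → ℕ} (hu : Norm D' key' u) (N : ℕ) :
    ∃ X Y, Path D key q o (List.replicate (N + 1) X ++ List.replicate N Y) (act key g o) ∧
      Path D' key' q u (List.replicate N X ++ List.replicate N Y) u := by
  refine ⟨tp0 (PS D key o (act key g o)) q, tp0 (PS D key (act key g o) o) q, ?_, ?_⟩
  · rw [List.replicate_succ, List.cons_append]
    exact Path.cons ho (updown hg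
      (fun o' ho' => tp0_iff.2 (PS_act ho' ho fun κ => EF.refl0 _ _))
      (fun o' ho' => tp0_iff.2 (PS_swap (PS_act ho' ho fun κ => EF.refl0 _ _))) N _ (ho.act hg))
  · exact updown hh (fun u' hu' => (tp0_iff.2 (PS_act ho hu' H)).symm)
      (fun u' hu' => (tp0_iff.2 (PS_swap (PS_act ho hu' H))).symm) N _ hu

end

/-- Condition on the sizes of classes. -/
def Sz (n0 : ℕ) (D : Set Ω) (key : Ω → K) (D' : Set Ω') (key' : Ω' → K) : Prop :=
  ∀ κ, (cls D key κ).ncard = (cls D' key' κ).ncard ∨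
    (n0 ≤ (cls D key κ).ncard ∧ n0 ≤ (cls D' key' κ).ncard)

theorem Sz.symm {n0 : ℕ} {D : Set Ω} {key : Ω → K} {D' : Set Ω'} {key' : Ω' → K}
    (h : Sz n0 D key D' key') : Sz n0 D' key' D key := fun κ =>
  (h κ).imp Eq.symm And.symm

theorem half (q : ℕ) : ∃ n0, ∀ (K Ω Ω' : Type) (D : Set Ω) (key : Ω → K) (D' : Set Ω')
    (key' : Ω' → K), Sz n0 D key D' key' → ∀ o o' u, Norm D key o → Norm D key o' →
    Norm D' key' u → EF (PS D key o o) (PS D' key' u u) q ∅ ∧ ∀ N, ∃ X1 Y1 X2 Y2 o2,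
      Path D key q o (List.replicate (N + 1) X1 ++ List.replicate N Y1 ++
        (List.replicate (N + 1) X2 ++ List.replicate N Y2)) o2 ∧ Norm D key o2 ∧ EqOn o2 o' D ∧
      Path D' key' q u (List.replicate N X1 ++ List.replicate N Y1 ++
        (List.replicate N X2 ++ List.replicate N Y2)) u := by
  obtain ⟨n0, h0⟩ := two_steps q
  refine ⟨n0, fun K Ω Ω' D key D' key' hs o o' u ho ho' hu => ?_⟩
  have : ∀ κ, ∃ γ, BijOn γ (Iio (cls D key κ).ncard) (Iio (cls D key κ).ncard) ∧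
      ∀ x ∈ cls D key κ, γ (o x) = o' x := by
    intro κ
    by_cases hne : Nonempty Ω
    · have inv := (ho κ).invOn_invFunOn
      refine ⟨o' ∘ Function.invFunOn o (cls D key κ), (ho' κ).comp ((ho κ).symm inv.symm), ?_⟩
      intro x hx
      simp [inv.1 hx]
    · exact ⟨id, bijOn_id _, fun x _ => absurd ⟨x⟩ hne⟩
  choose γ hγ hγ' using this
  choose g1 g2 h1 h2 b1 b2 b3 b4 e1 e2 e3 using fun κ => h0 _ _ (hs κ) (γ κ) (hγ κ)
  refine ⟨PS_diag (PS_act ho hu e1), fun N => ?_⟩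
  obtain ⟨X1, Y1, p1, p2⟩ := stage b1 b3 e1 ho hu N
  obtain ⟨X2, Y2, p3, p4⟩ := stage b2 b4 e2 (ho.act b1) hu N
  refine ⟨X1, Y1, X2, Y2, _, p1.append p3, (ho.act b1).act b2, ?_, p2.append p4⟩
  intro x hx
  simp only [act]
  rw [e3 _ _ ((ho _).mapsTo ⟨hx, rfl⟩), hγ' _ _ ⟨hx, rfl⟩]

/-- Adding end markers to a word. -/
def ends {Γ : Type} (w : List Γ) : List (Γ ⊕ Bool) := Sum.inr false :: w.map Sum.inl ++ [Sum.inr true]

theorem ends_pump {Γ : Type} (u v : List Γ) (x : Γ) {n q : ℕ} (hn : 4 * 2 ^ q ≤ n) :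
    EF (Word (ends (u ++ List.replicate n x ++ v)))
      (Word (ends (u ++ List.replicate (n + 1) x ++ v))) q ∅ := by
  have := Word.pump (Sum.inr false :: u.map Sum.inl) (v.map Sum.inl ++ [Sum.inr true])
    (Sum.inl x) hn
  simpa only [ends, List.map_append, List.map_replicate, List.append_assoc, List.cons_append]
    using this

/-- The hiding lemma. -/
theorem hide (q : ℕ) : ∃ n0 M, ∀ (K Ω Ω' : Type) (D : Set Ω) (key : Ω → K) (D' : Set Ω')
    (key' : Ω' → K), Sz n0 D key D' key' →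
    (∀ o u, Norm D key o → Norm D' key' u → EF (PS D key o o) (PS D' key' u u) q ∅) ∧
    ∀ o o' u u', Norm D key o → Norm D key o' → Norm D' key' u → Norm D' key' u' →
      ∃ (w w' : List (Ty K Bool q 0)) (s : ℕ → Ω → ℕ) (s' : ℕ → Ω' → ℕ),
        w.length = M ∧ w'.length = M ∧ s 0 = o ∧ s' 0 = u ∧ EqOn (s M) o' D ∧ EqOn (s' M) u' D' ∧
        (∀ i, Norm D key (s i)) ∧ (∀ i, Norm D' key' (s' i)) ∧
        (∀ i < M, w[i]? = some (tp0 (PS D key (s i) (s (i + 1))) q)) ∧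
        (∀ i < M, w'[i]? = some (tp0 (PS D' key' (s' i) (s' (i + 1))) q)) ∧
        EF (Word (ends w)) (Word (ends w')) q ∅ := by
  obtain ⟨n0, h0⟩ := half q
  refine ⟨n0, 8 * (4 * 2 ^ q) + 2, fun K Ω Ω' D key D' key' hs =>
    ⟨fun o u ho hu => (h0 K Ω Ω' D key D' key' hs o o u ho ho hu).1, ?_⟩⟩
  intro o o' u u' ho ho' hu hu'
  obtain ⟨X1, Y1, X2, Y2, o2, p1, n1, q1, p2⟩ :=
    (h0 K Ω Ω' D key D' key' hs o o' u ho ho' hu).2 (4 * 2 ^ q)
  obtain ⟨X3, Y3, X4, Y4, u2, p3, n2, q2, p4⟩ :=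
    (h0 K Ω' Ω D' key' D key hs.symm u u' o2 hu hu' n1).2 (4 * 2 ^ q)
  obtain ⟨s, a1, a2, a3, a4⟩ := (p1.append p4).seq
  obtain ⟨s', b1, b2, b3, b4⟩ := (p2.append p3).seq
  have hN : 4 * 2 ^ q ≤ 4 * 2 ^ q := le_rfl
  generalize hNe : 4 * 2 ^ q = N at a2 a4 b2 b4 ⊢
  rw [hNe] at hN
  nth_rewrite 1 [← hNe] at hN
  refine ⟨_, _, s, s', ?_, ?_, a1, b1, ?_, ?_, a3, b3, fun i hi => a4 i ?_, fun i hi => b4 i ?_, ?_⟩
  · simp; omega
  · simp; omega
  · rw [← a2] at q1; convert q1 using 2; simp; omega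
  · rw [← b2] at q2; convert q2 using 2; simp; omega
  · simp; omega
  · simp; omega
  · let r := fun x : Ty K Bool q 0 => List.replicate N x
    let r' := fun x : Ty K Bool q 0 => List.replicate (N + 1) x
    have e1 := ends_pump [] (r Y1 ++ r' X2 ++ r Y2 ++ r X3 ++ r Y3 ++ r X4 ++ r Y4) X1 hN
    have e2 := ends_pump (r X1 ++ r Y1) (r Y2 ++ r X3 ++ r Y3 ++ r X4 ++ r Y4) X2 hN
    have e3 := ends_pump (r X1 ++ r Y1 ++ r X2 ++ r Y2) (r Y3 ++ r X4 ++ r Y4) X3 hN
    have e4 := ends_pump (r X1 ++ r Y1 ++ r X2 ++ r Y2 ++ r' X3 ++ r Y3) (r Y4) X4 hN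
    simp only [r, r', List.append_assoc, List.nil_append] at e1 e2 e3 e4 ⊢
    exact ((e1.symm0.trans0 e2.symm0).trans0 e3).trans0 e4

end Pool.Agent.Work.MP_b730b2_lc
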