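import Pool.Agent.Work.MP_b730b2_lc.Obj

/-! Matched objects have the same type. -/

namespace Pool.Agent.Work.MP_b730b2_lc

open Set

variable {c : ℕ} {V W : Type}

namespace LG

variable (Z : LG c V) (Z' : LG c W) (S : Set (V × W))

/-- Local isomorphisms respecting heights and numbers. -/
def Agr : Prop := PI Z.G.str Z'.G.str S ∧ ∀ p ∈ S, Z.f p.1 = Z'.f p.2 ∧ Z.rho p.1 = Z'.rho p.2

/-- Pairs all of whose neighbours are matched. -/
def Good (v : V) (v' : W) : Prop := (v, v') ∈ S ∧ (∀ w, Z.G.E v w → ∃ w', (w, w') ∈ S) ∧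
  ∀ w', Z'.G.E v' w' → ∃ w, (w, w') ∈ S

/-- Matched sets. -/
def Mt (C : Set V) (C' : Set W) : Prop :=
  (∀ v ∈ C, ∃ v' ∈ C', Good Z Z' S v v') ∧ ∀ v' ∈ C', ∃ v ∈ C, Good Z Z' S v v'

variable {Z Z' S}

theorem Agr.swap (h : Agr Z Z' S) : Agr Z' Z (Prod.swap '' S) := by
  refine ⟨h.1.symm, ?_⟩
  rintro _ ⟨p, hp, rfl⟩
  exact ⟨(h.2 p hp).1.symm, (h.2 p hp).2.symm⟩

theorem good_swap {v : V} {v' : W} : Good Z' Z (Prod.swap '' S) v' v ↔ Good Z Z' S v v' := by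
  have : ∀ (a : V) (b : W), (b, a) ∈ Prod.swap '' S ↔ (a, b) ∈ S := fun a b =>
    Prod.swap_injective.mem_set_image (a := (a, b))
  simp only [Good, this]
  tauto

theorem Agr.eq (h : Agr Z Z' S) {v w : V} {v' w' : W} (h1 : (v, v') ∈ S) (h2 : (w, w') ∈ S) :
    v = w ↔ v' = w' := (h.1 _ h1 _ h2).1

theorem Agr.edge (h : Agr Z Z' S) {v w : V} {v' w' : W} (h1 : (v, v') ∈ S) (h2 : (w, w') ∈ S) :
    Z.G.E v w ↔ Z'.G.E v' w' := (h.1 _ h1 _ h2).2.2 ()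

theorem Agr.col (h : Agr Z Z' S) {v : V} {v' : W} (h1 : (v, v') ∈ S) (i : Fin c) :
    Z.G.C i v ↔ Z'.G.C i v' := (h.1 _ h1 _ h1).2.1 i

theorem Agr.zone (h : Agr Z Z' S) {v : V} {v' : W} (h1 : (v, v') ∈ S) (r : ℕ) (k : Option Bool) :
    v ∈ Z.zone r k ↔ v' ∈ Z'.zone r k := by
  have : Z.f v = Z'.f v' := (h.2 _ h1).1
  rcases k with _ | _ | _ <;> simp [LG.zone, this]

theorem Agr.comp (h : Agr Z Z' S) {v : V} {v' : W} (h1 : (v, v') ∈ S) {r : ℕ} {k : Option Bool}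
    (hg : ∀ w ∈ Z.G.comp (Z.zone r k) v, ∃ w', Good Z Z' S w w') :
    Mt Z Z' S (Z.G.comp (Z.zone r k) v) (Z'.G.comp (Z'.zone r k) v') := by
  constructor
  · intro w hw
    induction hw with
    | refl =>
      obtain ⟨w', hw'⟩ := hg v Gr.mem_comp_self
      rw [← (h.eq hw'.1 h1).1 rfl]
      exact ⟨w', Gr.mem_comp_self, hw'⟩
    | @tail y z hy e ih =>
      obtain ⟨y', a1, a2⟩ := ih
      obtain ⟨z', a3⟩ := hg z (Relation.ReflTransGen.tail hy e)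
      exact ⟨z', Relation.ReflTransGen.tail a1 ⟨(h.edge a2.1 a3.1).1 e.1,
        (h.zone a2.1 r k).1 e.2.1, (h.zone a3.1 r k).1 e.2.2⟩, a3⟩
  · intro w' hw'
    induction hw' with
    | refl =>
      obtain ⟨w', hw'⟩ := hg v Gr.mem_comp_self
      rw [← (h.eq hw'.1 h1).1 rfl]
      exact ⟨v, Gr.mem_comp_self, hw'⟩
    | @tail y' z' hy e ih =>
      obtain ⟨y, a1, a2⟩ := ih
      obtain ⟨z, a3⟩ := a2.2.2 z' e.1
      have hz : z ∈ Z.G.comp (Z.zone r k) v := Relation.ReflTransGen.tail a1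
        ⟨(h.edge a2.1 a3).2 e.1, (h.zone a2.1 r k).2 e.2.1, (h.zone a3 r k).2 e.2.2⟩
      obtain ⟨z'', a4⟩ := hg z hz
      rw [← (h.eq a4.1 a3).1 rfl]
      exact ⟨z, hz, a4⟩

theorem Agr.chi (h : Agr Z Z' S) {C : Set V} {C' : Set W} (hm : Mt Z Z' S C C') (q : ℕ) :
    Z.chi q C = Z'.chi q C' := by
  funext a b
  refine tp0_iff.2 (EF.of_iso (T := S) ?_ ?_ ?_ q)
  · rintro ⟨v, v'⟩ h1 ⟨w, w'⟩ h2
    have a1 : Z.f v = Z'.f v' ∧ Z.rho v = Z'.rho v' := h.2 _ h1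
    have a2 : Z.f w = Z'.f w' ∧ Z.rho w = Z'.rho w' := h.2 _ h2
    refine ⟨h.eq h1 h2, fun i => ?_, fun k => ?_⟩
    · rcases i with i | i
      · exact h.col h1 i
      · simp only [XW, a1.1]
    · cases k
      · exact h.edge h1 h2
      · simp only [XW, a1.2, a2.2, if_true]
  · rintro v ⟨h1, h2⟩
    obtain ⟨v', h3, h4⟩ := hm.1 v h1
    have a1 : Z.f v = Z'.f v' := (h.2 _ h4.1).1
    exact ⟨v', ⟨h3, a1 ▸ h2⟩, h4.1⟩
  · rintro v' ⟨h1, h2⟩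
    obtain ⟨v, h3, h4⟩ := hm.2 v' h1
    have a1 : Z.f v = Z'.f v' := (h.2 _ h4.1).1
    exact ⟨v, ⟨h3, a1 ▸ h2⟩, h4.1⟩

theorem Agr.rho (h : Agr Z Z' S) {C : Set V} {C' : Set W} (hm : Mt Z Z' S C C') :
    Z.rho '' C = Z'.rho '' C' := by
  ext n
  constructor
  · rintro ⟨v, hv, rfl⟩
    obtain ⟨v', h3, h4⟩ := hm.1 v hv
    exact ⟨v', h3, (h.2 _ h4.1).2.symm⟩
  · rintro ⟨v', hv, rfl⟩
    obtain ⟨v, h3, h4⟩ := hm.2 v' hv
    exact ⟨v, h3, (h.2 _ h4.1).2⟩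

variable {q M : ℕ}

theorem Agr.lam (h : Agr Z Z' S) {v : V} {v' : W} (h1 : (v, v') ∈ S)
    (hm : v ∈ Z.zone (RR c q M) none → Mt Z Z' S (Z.un q M v) (Z'.un q M v')) :
    Z.lam q M v = Z'.lam q M v' := by
  have a1 : Z.f v = Z'.f v' := (h.2 _ h1).1
  by_cases c1 : v ∈ Z.zone (RR c q M) none
  · rw [LG.lam, LG.lam, h.chi (hm c1), a1]
  · simp only [LG.zone, mem_ofPred_eq, not_and_or, not_lt] at c1
    rcases c1 with c1 | c1
    · rw [LG.lam, LG.lam, ← a1, Nat.le_zero.1 c1, lev_zero, lev_zero]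
    · rw [LG.lam, LG.lam, ← a1, pth_top _ _ c1, pth_top _ _ c1]

theorem Agr.oty [Finite V] [Finite W] (h : Agr Z Z' S) (o : Z.Ok (RR c q M))
    (o' : Z'.Ok (RR c q M)) {k : Option Bool} {v : V} {v' : W}
    (hm : Mt Z Z' S (Z.G.comp (Z.zone (RR c q M) k) v) (Z'.G.comp (Z'.zone (RR c q M) k) v')) :
    oty q M o k (Z.G.comp (Z.zone (RR c q M) k) v) =
      oty q M o' k (Z'.G.comp (Z'.zone (RR c q M) k) v') := by
  rcases k with _ | b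
  · exact congrArg Sum.inl (congrArg (Pool.Agent.Work.MP_b730b2_lc.col M) (h.chi hm q))
  · refine congrArg Sum.inr (tp0_iff.2 ?_)
    set R := Z.G.comp (Z.zone (RR c q M) (some b)) v with hR
    set R' := Z'.G.comp (Z'.zone (RR c q M) (some b)) v' with hR'
    have un : ∀ w w', w ∈ R → (w, w') ∈ S → Mt Z Z' S (Z.un q M w) (Z'.un q M w') := by
      intro w w' hw hp
      refine h.comp hp fun y hy => ?_
      have hy' := Gr.comp_mono (zone_sub _ b) hy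
      rw [Gr.comp_eq hw] at hy'
      obtain ⟨y', -, g⟩ := hm.1 y hy'
      exact ⟨y', g⟩
    have la : ∀ w w', w ∈ R → (w, w') ∈ S → Z.lam q M w = Z'.lam q M w' :=
      fun w w' hw hp => h.lam hp fun _ => un w w' hw hp
    refine EF.of_iso (T := {p | p ∈ S ∧ p.1 ∈ R}) ?_ ?_ ?_ q
    · rintro ⟨x, x'⟩ ⟨h1, m1⟩ ⟨y, y'⟩ ⟨h2, m2⟩
      have a1 : Z.rho x = Z'.rho x' := (h.2 _ h1).2
      have a2 : Z.rho y = Z'.rho y' := (h.2 _ h2).2
      have l1 := la x x' m1 h1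
      have l2 := la y y' m2 h2
      refine ⟨h.eq h1 h2, fun i => ?_, fun k => ?_⟩
      · rcases i with (i | i) | i
        · exact h.col h1 i
        · simp only [Lay.PW, Lay.lab, lay0, l1]
        · simp only [Lay.PW, lay0, l1, h.chi (un x x' m1 h1)]
      · rcases k with _ | _ | _
        · simp only [Lay.PW, lay0, l1, l2, h.rho (un x x' m1 h1), h.rho (un y y' m2 h2)]
        · exact h.edge h1 h2
        · simp only [Lay.PW, lay0, a1, a2, if_true]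
    · rintro x ⟨h1, h2⟩
      have hx : x ∈ R := h2 ▸ Gr.mem_comp_self
      obtain ⟨x', h3, h4⟩ := hm.1 x hx
      refine ⟨x', ⟨?_, Gr.comp_eq h3⟩, h4.1, hx⟩
      have l1 := la x x' hx h4.1
      simp only [lay0] at h1 ⊢
      rwa [← l1]
    · rintro x' ⟨h1, h2⟩
      have hx : x' ∈ R' := h2 ▸ Gr.mem_comp_self
      obtain ⟨x, h3, h4⟩ := hm.2 x' hx
      refine ⟨x, ⟨?_, Gr.comp_eq h3⟩, h4.1, h3⟩
      have l1 := la x x' h3 h4.1
      simp only [lay0] at h1 ⊢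
      rwa [l1]

variable (Z' S)

/-- Matched objects of a given kind and type. -/
def MO [Finite V] (o : Z.Ok (RR c q M)) (k : Option Bool) (τ : Key c q ⊕ PTy c q) :
    Set (Set V) :=
  {C | C ∈ cls (Z.Obj (RR c q M) k) (LG.oty q M o k) τ ∧ ∀ v ∈ C, ∃ v', Good Z Z' S v v'}

variable {Z' S}

theorem Agr.MO_le [Finite V] [Finite W] (h : Agr Z Z' S) (o : Z.Ok (RR c q M))
    (o' : Z'.Ok (RR c q M)) (k : Option Bool) (τ : Key c q ⊕ PTy c q) :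
    (MO Z' S o k τ).ncard ≤ (MO Z (Prod.swap '' S) o' k τ).ncard := by
  have : ∀ C ∈ MO Z' S o k τ, ∃ C' ∈ MO Z (Prod.swap '' S) o' k τ, Mt Z Z' S C C' := by
    rintro _ ⟨⟨⟨v, hv, rfl⟩, e⟩, hg⟩
    obtain ⟨v', g⟩ := hg v Gr.mem_comp_self
    have hm := h.comp g.1 hg
    refine ⟨_, ⟨⟨⟨v', (h.zone g.1 _ k).1 hv, rfl⟩, (h.oty o o' hm).symm.trans e⟩, ?_⟩, hm⟩
    intro w' hw'
    obtain ⟨w, -, g'⟩ := hm.2 w' hw'
    exact ⟨w, good_swap.2 g'⟩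
  choose! F h1 h2 using this
  refine ncard_le_ncard_of_injOn F h1 ?_
  have sub : ∀ C C₂ C', Mt Z Z' S C C' → Mt Z Z' S C₂ C' → C ⊆ C₂ := by
    intro C C₂ C' m1 m2 v hv
    obtain ⟨v', a1, a2⟩ := m1.1 v hv
    obtain ⟨v₂, a3, a4⟩ := m2.2 v' a1
    rwa [(h.eq a2.1 a4.1).2 rfl]
  intro C hC C₂ hC₂ e
  exact Subset.antisymm (sub _ _ _ (h2 C hC) (e ▸ h2 C₂ hC₂)) (sub _ _ _ (e ▸ h2 C₂ hC₂) (h2 C hC))

theorem Agr.MO_eq [Finite V] [Finite W] (h : Agr Z Z' S) (o : Z.Ok (RR c q M))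
    (o' : Z'.Ok (RR c q M)) (k : Option Bool) (τ : Key c q ⊕ PTy c q) :
    (MO Z' S o k τ).ncard = (MO Z (Prod.swap '' S) o' k τ).ncard := by
  refine le_antisymm (h.MO_le o o' k τ) ?_
  have := h.swap.MO_le o' o k τ
  simpa only [image_image, Prod.swap_swap, image_id'] using this

end LG

end Pool.Agent.Work.MP_b730b2_lc
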