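import Pool.Agent.Work.MP_b730b2_lc.Hide

/-! Layered graphs and their orders. -/

namespace Pool.Agent.Work.MP_b730b2_lc

open Set

/-- Coloured graphs. -/
structure Gr (c : ℕ) (V : Type) where
  C : Fin c → V → Prop
  E : V → V → Prop
  symm : ∀ x y, E x y → E y x

/-- The structure of a graph. -/
def Gr.str {c : ℕ} {V : Type} (G : Gr c V) : Str (Fin c) Unit V where
  dom := univ
  U := G.C
  R _ := G.E

/-- The structure of a graph with a further relation. -/
def Gr.ostr {c : ℕ} {V : Type} (G : Gr c V) (lt : V → V → Prop) : Str (Fin c) Bool V where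
  dom := univ
  U := G.C
  R b x y := if b then lt x y else G.E x y

/-- Layered graphs with units and end pieces. -/
structure Lay (c : ℕ) (K T V Ω : Type) (M P : ℕ) where
  G : Gr c V
  lam : V → ℕ
  un : V → Ω
  D : Set Ω
  key : Ω → K
  u : Ω → ℕ
  rho : V → ℕ
  pc : Bool → V → Ω
  up : Bool → Ω → Ω
  Dp : Bool → Set Ω
  ty : Bool → Ω → T
  lam_le : ∀ v, lam v ≤ M * P
  lip : ∀ v w, G.E v w → lam v ≤ lam w + 1
  D_fin : D.Finite
  Dp_fin : ∀ b, (Dp b).Finite
  un_mem : ∀ v, 0 < lam v → lam v < M * P → un v ∈ D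
  un_edge : ∀ v w, G.E v w → 0 < lam v → lam v < M * P → 0 < lam w → lam w < M * P → un v = un w
  u_inj : InjOn u D
  rho_inj : Function.Injective rho
  pc_mem : ∀ b v, (if b then 0 < lam v else lam v < M * P) → pc b v ∈ Dp b
  pc_edge : ∀ b v w, G.E v w → (if b then 0 < lam v else lam v < M * P) →
    (if b then 0 < lam w else lam w < M * P) → pc b v = pc b w
  pc_un : ∀ b v, 0 < lam v → lam v < M * P → pc b v = up b (un v)

namespace Lay

variable {c : ℕ} {K T V Ω W Ω' : Type} {M P : ℕ} (X : Lay c K T V Ω M P)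

/-- Colours and relative levels. -/
def lab (j : ℕ) : Fin c ⊕ Fin (2 * P) → V → Prop
  | Sum.inl i, v => X.G.C i v
  | Sum.inr i, v => X.lam v + P = j * P + i

/-- A window of a unit. -/
def UW (j : ℕ) (x : Ω) : Str (Fin c ⊕ Fin (2 * P)) Bool V where
  dom := {v | (j * P < X.lam v + P ∧ X.lam v < j * P + P) ∧ X.un v = x}
  U := X.lab j
  R b v w := if b then X.rho v < X.rho w else X.G.E v w

/-- The end window of a piece. -/
def PW (b : Bool) (x : Ω) : Str ((Fin c ⊕ Fin (2 * P)) ⊕ K) (Option Bool) V where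
  dom := {v | ((if b then M else 0) * P < X.lam v + P ∧ X.lam v < (if b then M else 0) * P + P) ∧
    X.pc b v = x}
  U i v := match i with
    | Sum.inl i => X.lab (if b then M else 0) i v
    | Sum.inr κ => 0 < X.lam v ∧ X.lam v < M * P ∧ X.key (X.un v) = κ
  R k v w := match k with
    | none => (0 < X.lam v ∧ X.lam v < M * P) ∧ (0 < X.lam w ∧ X.lam w < M * P) ∧
        X.u (X.un v) < X.u (X.un w)
    | some b => if b then X.rho v < X.rho w else X.G.E v w

/-- A window of the whole graph. -/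
def GW (lt : V → V → Prop) (j : ℕ) : Str (Fin c ⊕ Fin (2 * P)) Bool V where
  dom := {v | j * P < X.lam v + P ∧ X.lam v < j * P + P}
  U := X.lab j
  R b v w := if b then lt v w else X.G.E v w

variable (eT : T → ℕ) (eK : K → ℕ) (op : Bool → Ω → ℕ) (s : ℕ → Ω → ℕ)

/-- Second sorting key. -/
def k2 (v : V) : ℕ := if X.lam v = 0 then eT (X.ty false (X.pc false v))
  else if X.lam v = M * P then eT (X.ty true (X.pc true v)) else eK (X.key (X.un v))

/-- Third sorting key. -/
def k3 (v : V) : ℕ := if X.lam v = 0 then op false (X.pc false v)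
  else if X.lam v = M * P then op true (X.pc true v) else s (X.lam v / P) (X.un v)

/-- The order. -/
def lt (v w : V) : Prop := X.lam v < X.lam w ∨ (X.lam v = X.lam w ∧
  (X.k2 eT eK v < X.k2 eT eK w ∨ (X.k2 eT eK v = X.k2 eT eK w ∧
    (X.k3 op s v < X.k3 op s w ∨ (X.k3 op s v = X.k3 op s w ∧ X.rho v < X.rho w)))))

theorem exists_order : ∃ o : LinearOrder V, ∀ v w, @LT.lt V o.toLT v w ↔ X.lt eT eK op s v w := by
  refine ⟨LinearOrder.lift' (fun v => toLex (X.lam v, toLex (X.k2 eT eK v,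
    toLex (X.k3 op s v, X.rho v)))) ?_, fun v w => ?_⟩
  · intro v w h
    simp only [toLex_inj, Prod.mk.injEq] at h
    exact X.rho_inj h.2.2.2
  · change toLex (X.lam v, toLex (X.k2 eT eK v, toLex (X.k3 op s v, X.rho v))) <
      toLex (X.lam w, toLex (X.k2 eT eK w, toLex (X.k3 op s w, X.rho w))) ↔ _
    simp only [Prod.Lex.toLex_lt_toLex, lt]

variable {X}

theorem lab_rel {Y : Lay c K T W Ω' M P} {i j : ℕ} {v : V} {v' : W}
    (h1 : i * P < X.lam v + P ∧ X.lam v < i * P + P)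
    (h : ∀ l, X.lab i l v ↔ Y.lab j l v') : X.lam v + j * P = Y.lam v' + i * P := by
  have := (h (Sum.inr ⟨X.lam v + P - i * P, by omega⟩)).1 (by simp only [lab]; omega)
  simp only [lab] at this
  omega

variable {eT eK op s}

theorem mid_facts {j : ℕ} (hj : 1 ≤ j) (hj' : j + 1 ≤ M) {v : V}
    (hv : j * P < X.lam v + P ∧ X.lam v < j * P + P) : 0 < X.lam v ∧ X.lam v < M * P ∧
      X.k2 eT eK v = eK (X.key (X.un v)) ∧
      X.k3 op s v = if X.lam v < j * P then s (j - 1) (X.un v) else s j (X.un v) := by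
  have h1 : 1 * P ≤ j * P := Nat.mul_le_mul_right _ hj
  have h2 : (j + 1) * P ≤ M * P := Nat.mul_le_mul_right _ hj'
  rw [add_mul] at h2
  refine ⟨by omega, by omega, ?_, ?_⟩
  · rw [k2, if_neg (by omega), if_neg (by omega)]
  · rw [k3, if_neg (by omega), if_neg (by omega)]
    split_ifs with h
    · rw [Nat.div_eq_of_lt_le (k := j - 1) (by rw [Nat.sub_mul]; omega)
        (by rw [Nat.sub_add_cancel hj]; exact h)]
    · rw [Nat.div_eq_of_lt_le (k := j) (by omega) (by rw [add_mul]; omega)]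

theorem middle {Y : Lay c K T W Ω' M P} {op' : Bool → Ω' → ℕ} {s' : ℕ → Ω' → ℕ} {q i j : ℕ}
    (heK : Function.Injective eK) (hs : ∀ i, Norm X.D X.key (s i))
    (hs' : ∀ i, Norm Y.D Y.key (s' i))
    (hi : 1 ≤ i) (hi' : i + 1 ≤ M) (hj : 1 ≤ j) (hj' : j + 1 ≤ M)
    (hU : ∀ x ∈ X.D, ∀ y ∈ Y.D, X.key x = Y.key y → EF (X.UW i x) (Y.UW j y) q ∅)
    (h : EF (PS X.D X.key (s (i - 1)) (s i)) (PS Y.D Y.key (s' (j - 1)) (s' j)) q ∅) :
    EF (X.GW (X.lt eT eK op s) i) (Y.GW (Y.lt eT eK op' s') j) q ∅ := by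
  refine EF.gsum X.un Y.un (X.UW i) (Y.UW j) ?_ ?_ (fun _ _ _ => Iff.rfl) (fun _ _ _ => Iff.rfl)
    ?_ ?_ ?_ h
  · intro a ha
    obtain ⟨a1, a2, -⟩ := mid_facts (eT := eT) (eK := eK) (op := op) (s := s) hi hi' ha
    exact X.un_mem a a1 a2
  · intro a ha
    obtain ⟨a1, a2, -⟩ := mid_facts (eT := eT) (eK := eK) (op := op') (s := s') hj hj' ha
    exact Y.un_mem a a1 a2
  · intro x hx y hy a
    exact hU x hx y hy ((a.2.1 (X.key x)).1 rfl).symm
  · rintro ⟨v, v'⟩ ⟨w, w'⟩ hv hv' hw hw' e1 e2 - a1 a2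
    refine ⟨a1.1, a1.2.1, fun b => ?_⟩
    cases b
    · exact a1.2.2 false
    · have r1 := lab_rel hv a1.2.1
      have r2 := lab_rel hw a2.2.1
      have r3 : X.rho v < X.rho w ↔ Y.rho v' < Y.rho w' := a1.2.2 true
      obtain ⟨-, -, b1, b2⟩ := mid_facts (eT := eT) (eK := eK) (op := op) (s := s) hi hi' hv
      obtain ⟨-, -, b3, b4⟩ := mid_facts (eT := eT) (eK := eK) (op := op) (s := s) hi hi' hw
      obtain ⟨-, -, b5, b6⟩ := mid_facts (eT := eT) (eK := eK) (op := op') (s := s') hj hj' hv'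
      obtain ⟨-, -, b7, b8⟩ := mid_facts (eT := eT) (eK := eK) (op := op') (s := s') hj hj' hw'
      simp only at e1 e2 r1 r2 b1 b2 b3 b4 b5 b6 b7 b8
      change X.lt eT eK op s v w ↔ Y.lt eT eK op' s' v' w'
      simp only [lt, b1, b2, b3, b4, b5, b6, b7, b8, e1, e2, true_and]
      clear * - r1 r2 r3
      split_ifs <;> omega
  · rintro ⟨v, v'⟩ ⟨w, w'⟩ hv hv' hw hw' e1 e2 a1 a2 a3 a4
    obtain ⟨c1, c2, b1, b2⟩ := mid_facts (eT := eT) (eK := eK) (op := op) (s := s) hi hi' hv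
    obtain ⟨c3, c4, b3, b4⟩ := mid_facts (eT := eT) (eK := eK) (op := op) (s := s) hi hi' hw
    obtain ⟨c5, c6, b5, b6⟩ := mid_facts (eT := eT) (eK := eK) (op := op') (s := s') hj hj' hv'
    obtain ⟨c7, c8, b7, b8⟩ := mid_facts (eT := eT) (eK := eK) (op := op') (s := s') hj hj' hw'
    simp only at e1 e2 b1 b2 b3 b4 b5 b6 b7 b8 c1 c2 c3 c4 c5 c6 c7 c8
    refine ⟨⟨fun h => absurd (congrArg X.un h) e1, fun h => absurd (congrArg Y.un h) e2⟩,
      a3.2.1, fun b => ?_⟩
    cases b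
    · exact ⟨fun h => absurd (X.un_edge v w h c1 c2 c3 c4) e1,
        fun h => absurd (Y.un_edge v' w' h c5 c6 c7 c8) e2⟩
    · have r1 := lab_rel hv a3.2.1
      have r2 := lab_rel hw a4.2.1
      have k1 : Y.key (Y.un v') = X.key (X.un v) := (a1.2.1 _).1 rfl
      have k2 : Y.key (Y.un w') = X.key (X.un w) := (a2.2.1 _).1 rfl
      simp only at r1 r2
      change X.lt eT eK op s v w ↔ Y.lt eT eK op' s' v' w'
      simp only [lt, b1, b2, b3, b4, b5, b6, b7, b8, k1, k2]
      by_cases hk : X.key (X.un v) = X.key (X.un w)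
      · have hk' : Y.key (Y.un v') = Y.key (Y.un w') := by rw [k1, k2, hk]
        have d1 := a1.2.2 false
        have d2 := a1.2.2 true
        simp only [PS, hk, hk', true_and, if_true, Bool.false_eq_true, if_false] at d1 d2
        have n1 : ∀ i, s i (X.un v) ≠ s i (X.un w) := fun i h =>
          e1 ((hs i _).injOn ⟨X.un_mem v c1 c2, hk⟩ ⟨X.un_mem w c3 c4, rfl⟩ h)
        have n2 : ∀ i, s' i (Y.un v') ≠ s' i (Y.un w') := fun i h =>
          e2 ((hs' i _).injOn ⟨Y.un_mem v' c5 c6, hk'⟩ ⟨Y.un_mem w' c7 c8, rfl⟩ h)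
        have g1 := n1 i
        have g2 := n1 (i - 1)
        have g3 := n2 j
        have g4 := n2 (j - 1)
        clear * - r1 r2 g1 g2 g3 g4 d1 d2
        split_ifs <;> omega
      · have : eK (X.key (X.un v)) ≠ eK (X.key (X.un w)) := fun h => hk (heK h)
        clear * - r1 r2 this
        split_ifs <;> omega

theorem end_facts (hM : 1 ≤ M) (b : Bool) {v : V}
    (hv : (if b then M else 0) * P < X.lam v + P ∧ X.lam v < (if b then M else 0) * P + P) :
    (if b then 0 < X.lam v else X.lam v < M * P) ∧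
    ((X.lam v = (if b then M else 0) * P ∧ ¬ (0 < X.lam v ∧ X.lam v < M * P) ∧
      X.k2 eT eK v = eT (X.ty b (X.pc b v)) ∧ X.k3 op s v = op b (X.pc b v)) ∨
    (X.lam v ≠ (if b then M else 0) * P ∧ (0 < X.lam v ∧ X.lam v < M * P) ∧
      X.k2 eT eK v = eK (X.key (X.un v)) ∧
      X.k3 op s v = s (if b then M - 1 else 0) (X.un v))) := by
  have h1 : 1 * P ≤ M * P := Nat.mul_le_mul_right _ hM
  have h2 := X.lam_le v
  cases b
  · simp only [Bool.false_eq_true, if_false, zero_mul] at hv ⊢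
    refine ⟨by omega, ?_⟩
    by_cases h : X.lam v = 0
    · left
      exact ⟨h, by omega, by rw [k2, if_pos h], by rw [k3, if_pos h]⟩
    · right
      refine ⟨h, by omega, by rw [k2, if_neg h, if_neg (by omega)], ?_⟩
      rw [k3, if_neg h, if_neg (by omega), Nat.div_eq_of_lt (by omega)]
  · simp only [if_true] at hv ⊢
    refine ⟨by omega, ?_⟩
    by_cases h : X.lam v = M * P
    · left
      exact ⟨h, by omega, by rw [k2, if_neg (by omega), if_pos h],
        by rw [k3, if_neg (by omega), if_pos h]⟩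
    · right
      refine ⟨h, by omega, by rw [k2, if_neg (by omega), if_neg h], ?_⟩
      rw [k3, if_neg (by omega), if_neg h, Nat.div_eq_of_lt_le (k := M - 1)
        (by rw [Nat.sub_mul]; omega) (by rw [Nat.sub_add_cancel hM]; omega)]

variable (X eT op s) in
/-- The enumeration of the units next to an end follows the enumeration of the pieces. -/
def EndOk (b : Bool) : Prop := ∀ x ∈ X.D, ∀ y ∈ X.D, X.key x = X.key y →
  (s (if b then M - 1 else 0) x < s (if b then M - 1 else 0) y ↔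
    eT (X.ty b (X.up b x)) < eT (X.ty b (X.up b y)) ∨
      (eT (X.ty b (X.up b x)) = eT (X.ty b (X.up b y)) ∧ (op b (X.up b x) < op b (X.up b y) ∨
        (op b (X.up b x) = op b (X.up b y) ∧ X.u x < X.u y))))

theorem endwin {Y : Lay c K T W Ω' M P} {op' : Bool → Ω' → ℕ} {s' : ℕ → Ω' → ℕ} {q : ℕ}
    (hM : 1 ≤ M) (b : Bool) (heK : Function.Injective eK) (heT : Function.Injective eT)
    (hop : Norm (X.Dp b) (X.ty b) (op b)) (hop' : Norm (Y.Dp b) (Y.ty b) (op' b))
    (hs : X.EndOk eT op s b) (hs' : Y.EndOk eT op' s' b)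
    (hU : ∀ x ∈ X.Dp b, ∀ y ∈ Y.Dp b, X.ty b x = Y.ty b y → EF (X.PW b x) (Y.PW b y) q ∅)
    (h : EF (PS (X.Dp b) (X.ty b) (op b) (op b)) (PS (Y.Dp b) (Y.ty b) (op' b) (op' b)) q ∅) :
    EF (X.GW (X.lt eT eK op s) (if b then M else 0))
      (Y.GW (Y.lt eT eK op' s') (if b then M else 0)) q ∅ := by
  have keyag : ∀ (x : Ω) (y : Ω') (v : V) (v' : W), 0 < X.lam v ∧ X.lam v < M * P →
      (∀ i, (X.PW b x).U i v ↔ (Y.PW b y).U i v') → Y.key (Y.un v') = X.key (X.un v) := by
    intro x y v v' hv a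
    exact ((a (Sum.inr (X.key (X.un v)))).1 ⟨hv.1, hv.2, rfl⟩).2.2
  refine EF.gsum (X.pc b) (Y.pc b) (X.PW b) (Y.PW b) ?_ ?_ (fun _ _ _ => Iff.rfl)
    (fun _ _ _ => Iff.rfl) ?_ ?_ ?_ h
  · intro a ha
    exact X.pc_mem b a (end_facts (eT := eT) (eK := eK) (op := op) (s := s) hM b ha).1
  · intro a ha
    exact Y.pc_mem b a (end_facts (eT := eT) (eK := eK) (op := op') (s := s') hM b ha).1
  · intro x hx y hy a
    exact hU x hx y hy ((a.2.1 (X.ty b x)).1 rfl).symm
  · rintro ⟨v, v'⟩ ⟨w, w'⟩ hv hv' hw hw' e1 e2 - a1 a2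
    refine ⟨a1.1, fun i => a1.2.1 (Sum.inl i), fun k => ?_⟩
    cases k
    · exact a1.2.2 (some false)
    · have r1 := lab_rel hv (fun i => a1.2.1 (Sum.inl i))
      have r2 := lab_rel hw (fun i => a2.2.1 (Sum.inl i))
      have r3 : X.rho v < X.rho w ↔ Y.rho v' < Y.rho w' := a1.2.2 (some true)
      have r4 := a1.2.2 none
      have r5 := a2.2.2 none
      obtain ⟨-, b1⟩ := end_facts (eT := eT) (eK := eK) (op := op) (s := s) hM b hv
      obtain ⟨-, b2⟩ := end_facts (eT := eT) (eK := eK) (op := op) (s := s) hM b hw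
      obtain ⟨-, b3⟩ := end_facts (eT := eT) (eK := eK) (op := op') (s := s') hM b hv'
      obtain ⟨-, b4⟩ := end_facts (eT := eT) (eK := eK) (op := op') (s := s') hM b hw'
      simp only [PW] at e1 e2 r1 r2 r4 r5 b1 b2 b3 b4
      change X.lt eT eK op s v w ↔ Y.lt eT eK op' s' v' w'
      by_cases hl : X.lam v = X.lam w
      swap
      · clear * - hl r1 r2
        simp only [lt]; omega
      rcases b1 with ⟨c1, -, c2, c3⟩ | ⟨c1, m1, c2, c3⟩
      · obtain ⟨-, -, c4, c5⟩ := b2.resolve_right (fun h => h.1 (by clear * - c1 hl r1 r2; omega))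
        obtain ⟨-, -, c6, c7⟩ := b3.resolve_right (fun h => h.1 (by clear * - c1 hl r1 r2; omega))
        obtain ⟨-, -, c8, c9⟩ := b4.resolve_right (fun h => h.1 (by clear * - c1 hl r1 r2; omega))
        simp only [lt, c2, c3, c4, c5, c6, c7, c8, c9, e1, e2, true_and]
        clear * - hl r1 r2 r3
        omega
      · obtain ⟨-, m2, c4, c5⟩ := b2.resolve_left (fun h => c1 (by have := h.1; clear * - this hl r1 r2; omega))
        obtain ⟨-, m3, c6, c7⟩ := b3.resolve_left (fun h => c1 (by have := h.1; clear * - this hl r1 r2; omega))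
        obtain ⟨-, m4, c8, c9⟩ := b4.resolve_left (fun h => c1 (by have := h.1; clear * - this hl r1 r2; omega))
        have k1 := keyag _ _ _ _ m1 a1.2.1
        have k2 := keyag _ _ _ _ m2 a2.2.1
        simp only at k1 k2
        simp only [lt, c2, c3, c4, c5, c6, c7, c8, c9, k1, k2]
        by_cases hk : X.key (X.un v) = X.key (X.un w)
        · have hk' : Y.key (Y.un v') = Y.key (Y.un w') := by rw [k1, k2, hk]
          have u1 : X.up b (X.un v) = X.up b (X.un w) := by
            rw [← X.pc_un b v m1.1 m1.2, ← X.pc_un b w m2.1 m2.2, e1]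
          have u2 : Y.up b (Y.un v') = Y.up b (Y.un w') := by
            rw [← Y.pc_un b v' m3.1 m3.2, ← Y.pc_un b w' m4.1 m4.2, e2]
          have t1 := hs _ (X.un_mem v m1.1 m1.2) _ (X.un_mem w m2.1 m2.2) hk
          have t2 := hs _ (X.un_mem w m2.1 m2.2) _ (X.un_mem v m1.1 m1.2) hk.symm
          have t3 := hs' _ (Y.un_mem v' m3.1 m3.2) _ (Y.un_mem w' m4.1 m4.2) hk'
          have t4 := hs' _ (Y.un_mem w' m4.1 m4.2) _ (Y.un_mem v' m3.1 m3.2) hk'.symm
          simp only [u1, u2, lt_irrefl, true_and, false_or] at t1 t2 t3 t4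
          simp only [m1, m2, m3, m4, true_and] at r4 r5
          simp only [hk, true_and]
          clear * - hl r1 r2 r3 r4 r5 t1 t2 t3 t4
          omega
        · have : eK (X.key (X.un v)) ≠ eK (X.key (X.un w)) := fun h => hk (heK h)
          clear * - hl r1 r2 this
          omega
  · rintro ⟨v, v'⟩ ⟨w, w'⟩ hv hv' hw hw' e1 e2 a1 a2 a3 a4
    obtain ⟨z1, b1⟩ := end_facts (eT := eT) (eK := eK) (op := op) (s := s) hM b hv
    obtain ⟨z2, b2⟩ := end_facts (eT := eT) (eK := eK) (op := op) (s := s) hM b hw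
    obtain ⟨z3, b3⟩ := end_facts (eT := eT) (eK := eK) (op := op') (s := s') hM b hv'
    obtain ⟨z4, b4⟩ := end_facts (eT := eT) (eK := eK) (op := op') (s := s') hM b hw'
    simp only at e1 e2 b1 b2 b3 b4 z1 z2 z3 z4
    refine ⟨⟨fun h => absurd (congrArg (X.pc b) h) e1, fun h => absurd (congrArg (Y.pc b) h) e2⟩,
      fun i => a3.2.1 (Sum.inl i), fun k => ?_⟩
    cases k
    · exact ⟨fun h => absurd (X.pc_edge b v w h z1 z2) e1,
        fun h => absurd (Y.pc_edge b v' w' h z3 z4) e2⟩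
    · have r1 := lab_rel hv (fun i => a3.2.1 (Sum.inl i))
      have r2 := lab_rel hw (fun i => a4.2.1 (Sum.inl i))
      have y1 : Y.ty b (Y.pc b v') = X.ty b (X.pc b v) := (a1.2.1 _).1 rfl
      have y2 : Y.ty b (Y.pc b w') = X.ty b (X.pc b w) := (a2.2.1 _).1 rfl
      have y3 : eT (X.ty b (X.pc b v)) = eT (X.ty b (X.pc b w)) →
          op b (X.pc b v) ≠ op b (X.pc b w) ∧ op' b (Y.pc b v') ≠ op' b (Y.pc b w') ∧
          (op b (X.pc b v) < op b (X.pc b w) ↔ op' b (Y.pc b v') < op' b (Y.pc b w')) := by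
        intro hk
        have hk := heT hk
        have hk' : Y.ty b (Y.pc b v') = Y.ty b (Y.pc b w') := by rw [y1, y2, hk]
        refine ⟨fun h => e1 ((hop _).injOn ⟨X.pc_mem b v z1, hk⟩ ⟨X.pc_mem b w z2, rfl⟩ h),
          fun h => e2 ((hop' _).injOn ⟨Y.pc_mem b v' z3, hk'⟩ ⟨Y.pc_mem b w' z4, rfl⟩ h), ?_⟩
        have d1 := a1.2.2 false
        simpa only [PS, hk, hk', true_and, Bool.false_eq_true, if_false] using d1
      simp only at r1 r2
      change X.lt eT eK op s v w ↔ Y.lt eT eK op' s' v' w'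
      by_cases hl : X.lam v = X.lam w
      swap
      · clear * - hl r1 r2
        simp only [lt]; omega
      rcases b1 with ⟨c1, -, c2, c3⟩ | ⟨c1, m1, c2, c3⟩
      · obtain ⟨-, -, c4, c5⟩ := b2.resolve_right (fun h => h.1 (by clear * - c1 hl r1 r2; omega))
        obtain ⟨-, -, c6, c7⟩ := b3.resolve_right (fun h => h.1 (by clear * - c1 hl r1 r2; omega))
        obtain ⟨-, -, c8, c9⟩ := b4.resolve_right (fun h => h.1 (by clear * - c1 hl r1 r2; omega))
        simp only [lt, c2, c3, c4, c5, c6, c7, c8, c9, y1, y2]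
        clear * - hl r1 r2 y3
        omega
      · obtain ⟨-, m2, c4, c5⟩ := b2.resolve_left (fun h => c1 (by have := h.1; clear * - this hl r1 r2; omega))
        obtain ⟨-, m3, c6, c7⟩ := b3.resolve_left (fun h => c1 (by have := h.1; clear * - this hl r1 r2; omega))
        obtain ⟨-, m4, c8, c9⟩ := b4.resolve_left (fun h => c1 (by have := h.1; clear * - this hl r1 r2; omega))
        have k1 := keyag _ _ _ _ m1 a3.2.1
        have k2 := keyag _ _ _ _ m2 a4.2.1
        simp only at k1 k2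
        simp only [lt, c2, c3, c4, c5, c6, c7, c8, c9, k1, k2]
        by_cases hk : X.key (X.un v) = X.key (X.un w)
        · have hk' : Y.key (Y.un v') = Y.key (Y.un w') := by rw [k1, k2, hk]
          have t1 := hs _ (X.un_mem v m1.1 m1.2) _ (X.un_mem w m2.1 m2.2) hk
          have t2 := hs _ (X.un_mem w m2.1 m2.2) _ (X.un_mem v m1.1 m1.2) hk.symm
          have t3 := hs' _ (Y.un_mem v' m3.1 m3.2) _ (Y.un_mem w' m4.1 m4.2) hk'
          have t4 := hs' _ (Y.un_mem w' m4.1 m4.2) _ (Y.un_mem v' m3.1 m3.2) hk'.symm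
          simp only [← X.pc_un b v m1.1 m1.2, ← X.pc_un b w m2.1 m2.2, ← Y.pc_un b v' m3.1 m3.2,
            ← Y.pc_un b w' m4.1 m4.2, y1, y2] at t1 t2 t3 t4
          simp only [hk, true_and]
          have hl' : Y.lam v' = Y.lam w' := by clear * - hl r1 r2; omega
          simp only [hl, hl', lt_irrefl, true_and, false_or]
          clear * - y3 t1 t2 t3 t4
          omega
        · have : eK (X.key (X.un v)) ≠ eK (X.key (X.un w)) := fun h => hk (heK h)
          clear * - hl r1 r2 this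
          omega

theorem exists_end (X : Lay c K T V Ω M P) (eT : T → ℕ) (op : Bool → Ω → ℕ) (b : Bool) :
    ∃ o, Norm X.D X.key o ∧ ∀ s : ℕ → Ω → ℕ, EqOn (s (if b then M - 1 else 0)) o X.D →
      X.EndOk eT op s b := by
  obtain ⟨o, h1, h2⟩ := exists_norm X.D_fin X.key
    (fun x => toLex (eT (X.ty b (X.up b x)), toLex (op b (X.up b x), X.u x))) (by
      intro x hx y hy h
      simp only [toLex_inj, Prod.mk.injEq] at h
      exact X.u_inj hx hy h.2.2)
  refine ⟨o, h1, fun s hs x hx y hy hk => ?_⟩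
  rw [hs hx, hs hy, h2 x hx y hy hk]
  simp only [Prod.Lex.toLex_lt_toLex]

end Lay

/-- Layered graphs with the same statistics have equivalent orders. -/
theorem lay_main (q : ℕ) : ∃ n0 M, 1 ≤ M ∧ ∀ (c : ℕ) (K T V Ω W Ω' : Type) [Finite K] [Finite T]
    (X : Lay c K T V Ω M (2 * (2 ^ q + 1))) (Y : Lay c K T W Ω' M (2 * (2 ^ q + 1))),
    Sz n0 X.D X.key Y.D Y.key → (∀ b, Sz n0 (X.Dp b) (X.ty b) (Y.Dp b) (Y.ty b)) →
    (∀ i j, 1 ≤ i → i + 1 ≤ M → 1 ≤ j → j + 1 ≤ M →
      ∀ x ∈ X.D, ∀ y ∈ Y.D, X.key x = Y.key y → EF (X.UW i x) (Y.UW j y) q ∅) →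
    (∀ b, ∀ x ∈ X.Dp b, ∀ y ∈ Y.Dp b, X.ty b x = Y.ty b y → EF (X.PW b x) (Y.PW b y) q ∅) →
    ∃ (o : LinearOrder V) (o' : LinearOrder W),
      EF (X.G.ostr (@LT.lt V o.toLT)) (Y.G.ostr (@LT.lt W o'.toLT)) q ∅ := by
  obtain ⟨n0, M, h0⟩ := hide q
  refine ⟨n0, M + 1, by omega, fun c K T V Ω W Ω' _ _ X Y z1 z2 hU hP => ?_⟩
  obtain ⟨eK, heK⟩ := exists_injective_nat K
  obtain ⟨eT, heT⟩ := exists_injective_nat T
  have f1 : ∀ b, ∃ o, Norm (X.Dp b) (X.ty b) o := by
    intro b
    obtain ⟨e, he⟩ := Set.countable_iff_exists_injOn.1 (X.Dp_fin b).countable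
    obtain ⟨o, ho, -⟩ := exists_norm (X.Dp_fin b) (X.ty b) e he
    exact ⟨o, ho⟩
  have f2 : ∀ b, ∃ o, Norm (Y.Dp b) (Y.ty b) o := by
    intro b
    obtain ⟨e, he⟩ := Set.countable_iff_exists_injOn.1 (Y.Dp_fin b).countable
    obtain ⟨o, ho, -⟩ := exists_norm (Y.Dp_fin b) (Y.ty b) e he
    exact ⟨o, ho⟩
  choose op hop using f1
  choose op' hop' using f2
  choose oE hoE hoE' using X.exists_end eT op
  choose uE huE huE' using Y.exists_end eT op'
  obtain ⟨w, w', s, s', l1, l2, s0, s0', s1, s1', n1, n2, w1, w2, hw⟩ :=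
    (h0 K Ω Ω' X.D X.key Y.D Y.key z1).2 _ _ _ _ (hoE false) (hoE true) (huE false) (huE true)
  have ok : ∀ b, X.EndOk eT op s b := by
    intro b
    apply hoE'
    cases b
    · simp [s0, EqOn]
    · simpa using s1
  have ok' : ∀ b, Y.EndOk eT op' s' b := by
    intro b
    apply huE'
    cases b
    · simp [s0', EqOn]
    · simpa using s1'
  obtain ⟨o, ho⟩ := X.exists_order eT eK op s
  obtain ⟨o', ho'⟩ := Y.exists_order eT eK op' s'
  refine ⟨o, o', ?_⟩
  rw [show @LT.lt V o.toLT = X.lt eT eK op s from by funext v w; exact propext (ho v w),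
    show @LT.lt W o'.toLT = Y.lt eT eK op' s' from by funext v w; exact propext (ho' v w)]
  have le : ∀ w : List (Ty K Bool q 0), w.length = M → (ends w).length = M + 2 := by
    intro w h; simp [ends, h]
  have lt : ∀ w : List (Ty K Bool q 0), w.length = M → ∀ i < M + 2,
      (ends w)[i]? = if i = 0 then some (Sum.inr false) else if i = M + 1 then some (Sum.inr true)
        else (w[i - 1]?).map Sum.inl := by
    intro w h i hi
    rcases i with _ | i
    · simp [ends]
    · simp only [ends, List.cons_append, List.getElem?_cons_succ, List.getElem?_append,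
        List.length_map, h, List.getElem?_map, Nat.add_sub_cancel, Nat.add_right_cancel_iff]
      rw [if_neg (Nat.succ_ne_zero i)]
      by_cases c : i = M
      · simp [c]
      · rw [if_pos (by omega), if_neg c]
  refine EF.layered X.lam Y.lam rfl (ends w) (ends w') (X.GW (X.lt eT eK op s))
    (Y.GW (Y.lt eT eK op' s')) ?_ ?_ ?_ ?_ ?_ ?_ ?_ ?_ hw
  · intro a _
    have := X.lam_le a
    rw [le w l1]
    linarith
  · intro a _
    have := Y.lam_le a
    rw [le w' l2]
    linarith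
  · intro i a; simp [Lay.GW, Gr.ostr]
  · intro i a; simp [Lay.GW, Gr.ostr]
  · intro i hi j hj e
    rw [le w l1] at hi
    rw [le w' l2] at hj
    rw [lt w l1 i hi, lt w' l2 j hj] at e
    have ew := fun b => Lay.endwin (eK := eK) (s := s) (s' := s') (by omega) b heK heT (hop b)
      (hop' b) (ok b) (ok' b) (hP b) ((h0 T Ω Ω' _ _ _ _ (z2 b)).1 _ _ (hop b) (hop' b))
    have g1 : i ≠ 0 → i ≠ M + 1 → w[i - 1]? =
        some (tp0 (PS X.D X.key (s (i - 1)) (s i)) q) := by
      intro h1 h2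
      rw [w1 _ (by omega), Nat.sub_add_cancel (by omega)]
    have g2 : j ≠ 0 → j ≠ M + 1 → w'[j - 1]? =
        some (tp0 (PS Y.D Y.key (s' (j - 1)) (s' j)) q) := by
      intro h1 h2
      rw [w2 _ (by omega), Nat.sub_add_cancel (by omega)]
    split_ifs at e with c1 c2 c3 c4 c5 c6 c7 c8
    · rw [c1, c2]; exact ew false
    · simp at e
    · rw [g2 c2 c3] at e; simp at e
    · simp at e
    · rw [c4, c6]; exact ew true
    · rw [g2 c5 c6] at e; simp at e
    · rw [g1 c1 c4] at e; simp at e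
    · rw [g1 c1 c4] at e; simp at e
    · rw [g1 c1 c4, g2 c7 c8] at e
      simp only [Option.map_some, Option.some.injEq, Sum.inl.injEq] at e
      exact Lay.middle heK n1 n2 (by omega) (by omega) (by omega) (by omega)
        (hU i j (by omega) (by omega) (by omega) (by omega)) (tp0_iff.1 e)
  · intro i j p h1 _ a
    exact Lay.lab_rel h1 a.2.1
  · intro i j p p' _ _ _ _ a
    exact ⟨a.1, fun k => a.2.1 (Sum.inl k), a.2.2⟩
  · rintro ⟨v, v'⟩ ⟨w, w'⟩ - - - - a1 a2 l1 l2
    simp only at l1 l2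
    have p1 := X.lip w v
    have p2 := X.lip v w
    have p3 := Y.lip w' v'
    have p4 := Y.lip v' w'
    have p5 := X.G.symm v w
    have p6 := Y.G.symm v' w'
    refine ⟨⟨⟨fun h => by simp only at h; subst h; omega,
        fun h => by simp only at h; subst h; omega⟩, a1.2.1, fun b => ?_⟩,
      ⟨⟨fun h => by simp only at h; subst h; omega,
        fun h => by simp only at h; subst h; omega⟩, a2.2.1, fun b => ?_⟩⟩
    · cases b
      · exact ⟨fun h => absurd (p1 (p5 h)) (by omega), fun h => absurd (p3 (p6 h)) (by omega)⟩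
      · exact ⟨fun _ => Or.inl (by simp only; omega), fun _ => Or.inl (by simp only; omega)⟩
    · cases b
      · exact ⟨fun h => absurd (p1 h) (by omega), fun h => absurd (p3 h) (by omega)⟩
      · change X.lt eT eK op s w v ↔ Y.lt eT eK op' s' w' v'
        simp only [Lay.lt]; omega

end Pool.Agent.Work.MP_b730b2_lc
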