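import Mathlib.Data.Fintype.Pigeonhole
import Mathlib.Data.Fintype.Pi
import Mathlib.Data.Fintype.BigOperators
import Mathlib.Data.Nat.Find
import Mathlib.Tactic

/-! Monochromatic increasing paths and the reparametrisation of levels. -/

namespace Pool.Agent.Work.MP_b730b2_lc

/-- Monochromatic chains ending at a point. -/
def Ch {K : Type} (χ : ℕ → ℕ → K) (κ : K) : ℕ → ℕ → Prop
  | 0, _ => True
  | n + 1, x => ∃ y < x, χ y x = κ ∧ Ch χ κ n y

theorem Ch.seq {K : Type} {χ : ℕ → ℕ → K} {κ : K} : ∀ {n x : ℕ}, Ch χ κ n x →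
    ∃ m : ℕ → ℕ, m n = x ∧ (∀ i ≤ n, m i ≤ x) ∧
      ∀ i < n, m i < m (i + 1) ∧ χ (m i) (m (i + 1)) = κ
  | 0, x, _ => ⟨fun _ => x, rfl, fun _ _ => le_rfl, fun i hi => absurd hi (by omega)⟩
  | n + 1, x, ⟨y, hy, h1, h2⟩ => by
    obtain ⟨m, e, a, b⟩ := h2.seq
    refine ⟨fun i => if i ≤ n then m i else x, by simp, fun i hi => ?_, fun i hi => ?_⟩
    · have := a i
      simp only
      split_ifs <;> omega
    · simp only [if_pos (show i ≤ n by omega)]
      by_cases c : i + 1 ≤ n
      · rw [if_pos c]; exact b i (by omega)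
      · rw [if_neg c, show i = n by omega, e]; exact ⟨hy, h1⟩

theorem mono_path (K : Type) [Finite K] (M : ℕ) : ∃ r0 : ℕ, ∀ χ : ℕ → ℕ → K,
    ∃ (m : ℕ → ℕ) (κ : K), (∀ i < M, m i < r0) ∧
      ∀ i, i + 1 < M → m i < m (i + 1) ∧ χ (m i) (m (i + 1)) = κ := by
  classical
  have := Fintype.ofFinite K
  refine ⟨Fintype.card (K → Fin (M + 1)) + 1, fun χ => ?_⟩
  by_cases h : ∃ x < Fintype.card (K → Fin (M + 1)) + 1, ∃ κ, Ch χ κ M x
  · obtain ⟨x, hx, κ, hc⟩ := h
    obtain ⟨m, -, a, b⟩ := hc.seq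
    exact ⟨m, κ, fun i hi => lt_of_le_of_lt (a i hi.le) hx, fun i hi => b i (by omega)⟩
  · exfalso
    let l : Fin (Fintype.card (K → Fin (M + 1)) + 1) → K → Fin (M + 1) := fun x κ =>
      ⟨Nat.findGreatest (fun n => Ch χ κ n x) M, Nat.lt_succ_of_le (Nat.findGreatest_le M)⟩
    have key : ∀ x y, y < x → l y ≠ l x := by
      intro x y hxy e
      have e' := congrArg Fin.val (congrFun e (χ y x))
      simp only [l] at e'
      have h1 : Ch χ (χ y x) (Nat.findGreatest (fun n => Ch χ (χ y x) n y) M) y :=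
        Nat.findGreatest_spec (P := fun n => Ch χ (χ y x) n y) (Nat.zero_le M) trivial
      have h2 : Nat.findGreatest (fun n => Ch χ (χ y x) n y) M < M := by
        refine lt_of_le_of_ne (Nat.findGreatest_le M) fun e => h ⟨y, y.2, χ y x, ?_⟩
        rwa [e] at h1
      have h3 := Nat.le_findGreatest (P := fun n => Ch χ (χ y x) n x) (Nat.succ_le_of_lt h2)
        ⟨y, hxy, rfl, h1⟩
      omega
    obtain ⟨x, y, hne, e⟩ := Fintype.exists_ne_map_eq_of_card_lt l (by simp)
    rcases lt_or_gt_of_ne hne with c | c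
    · exact key y x c e
    · exact key x y c e.symm

/-- The collapsed level. -/
def lev (P : ℕ) (p : ℕ → ℕ) (x : ℕ) : ℕ → ℕ
  | 0 => 0
  | M + 1 => lev P p x M + min P (x - p M)

variable {P : ℕ} {p : ℕ → ℕ}

theorem lev_le (x : ℕ) : ∀ M, lev P p x M ≤ M * P
  | 0 => by simp [lev]
  | M + 1 => by have := lev_le x M; simp only [lev, add_mul]; omega

theorem lev_full {x : ℕ} : ∀ {M}, (∀ i < M, p i + P ≤ x) → lev P p x M = M * P
  | 0, _ => by simp [lev]
  | M + 1, h => by
    have h1 := lev_full (M := M) (fun i hi => h i (by omega))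
    have h2 := h M (by omega)
    simp only [lev, add_mul]; omega

theorem lev_stop {x j M : ℕ} (hj : j ≤ M) (h : ∀ i, j ≤ i → i < M → x ≤ p i) :
    lev P p x M = lev P p x j := by
  induction hj with
  | refl => rfl
  | @step M hM ih =>
    have h1 := ih (fun i hi hi' => h i hi (by omega))
    have h2 := h M hM (by omega)
    simp only [lev]; omega

theorem lev_zero (M : ℕ) : lev P p 0 M = 0 := lev_stop (Nat.zero_le M) (fun _ _ _ => Nat.zero_le _)

theorem lev_mono {x y : ℕ} (h : x ≤ y) : ∀ M, lev P p x M ≤ lev P p y M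
  | 0 => le_rfl
  | M + 1 => by have := lev_mono h M; simp only [lev]; omega

theorem lev_lip (y : ℕ) : ∀ M, (∀ i j, i < j → j < M → p i + P ≤ p j) →
    lev P p (y + 1) M ≤ lev P p y M + 1
  | 0, _ => by simp [lev]
  | M + 1, h => by
    have h1 := lev_lip y M (fun i j hi hj => h i j hi (by omega))
    simp only [lev]
    by_cases c : y < p M
    · omega
    · rw [lev_full (x := y + 1) (fun i hi => by have := h i M hi (by omega); omega),
        lev_full (x := y) (fun i hi => by have := h i M hi (by omega); omega)]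
      omega

theorem lev_val {x j M : ℕ} (h : ∀ i j, i < j → j < M → p i + P ≤ p j) (hj : j + 2 ≤ M)
    (h1 : p j ≤ x) (h2 : x ≤ p (j + 1) + P) :
    lev P p x M = j * P + min P (x - p j) + (x - p (j + 1)) := by
  rw [lev_stop hj (fun i hi hi' => by have := h (j + 1) i (by omega) hi'; omega)]
  simp only [lev]
  rw [lev_full (fun i hi => by have := h i j hi (by omega); omega)]
  omega

theorem lev_win {x j M : ℕ} (hP : 0 < P) (h : ∀ i j, i < j → j < M → p i + P ≤ p j)
    (hj : j + 2 ≤ M) :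
    ((j + 1) * P < lev P p x M + P ∧ lev P p x M < (j + 1) * P + P) ↔
      p j < x ∧ x < p (j + 1) + P := by
  have h0 := h j (j + 1) (by omega) (by omega)
  have e1 := lev_val (x := p j) h hj le_rfl (by omega)
  have e2 := lev_val (x := p (j + 1) + P) h hj (by omega) le_rfl
  rw [add_mul]
  constructor
  · rintro ⟨a, b⟩
    constructor
    · by_contra c
      have := lev_mono (P := P) (p := p) (not_lt.1 c) M
      omega
    · by_contra c
      have := lev_mono (P := P) (p := p) (not_lt.1 c) M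
      omega
  · rintro ⟨a, b⟩
    rw [lev_val h hj a.le b.le]
    omega

end Pool.Agent.Work.MP_b730b2_lc
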