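import Pool.Agent.Work.MP_b730b2_lc.Ext

/-! Matching the statistics of objects. -/

namespace Pool.Agent.Work.MP_b730b2_lc

open Set

variable {c : ℕ} {V W : Type}

namespace LG

/-- Bounded components in all zones. -/
def Bd (Z : LG c V) (r D : ℕ) : Prop := ∀ k x, (Z.G.comp (Z.zone r k) x).ncard ≤ D

/-- Existence of a height function with bounded components. -/
def Bg (G : Gr c V) (r D : ℕ) : Prop := ∃ g : V → ℕ, (∀ v, g v ≤ r) ∧
  (∀ v w, G.E v w → g v ≤ g w + 1) ∧ Bd ⟨G, g, g⟩ r D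

variable {q M : ℕ}

/-- The potential. -/
noncomputable def dfc [Finite V] {Z : LG c V} (Z' : LG c W) (S : Set (V × W))
    (o : Z.Ok (RR c q M)) (t : ℕ) : ℕ :=
  haveI := Fintype.ofFinite (Option Bool × (Key c q ⊕ PTy c q))
  ∑ x : Option Bool × (Key c q ⊕ PTy c q), (t - (MO Z' S o x.1 x.2).ncard)

theorem Agr.dfc_eq [Finite V] [Finite W] {Z : LG c V} {Z' : LG c W} {S : Set (V × W)}
    (h : Agr Z Z' S) (o : Z.Ok (RR c q M)) (o' : Z'.Ok (RR c q M)) (t : ℕ) :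
    dfc Z' S o t = dfc Z (Prod.swap '' S) o' t := by
  simp only [dfc, h.MO_eq o o']

/-- A position of the matching procedure. -/
structure St (Z : LG c V) (Z' : LG c W) (S : Set (V × W)) (r n s D : ℕ) : Prop where
  ef : EF Z.G.str Z'.G.str n S
  ag : ∀ p ∈ S, Z.f p.1 = Z'.f p.2 ∧ Z.rho p.1 = Z'.rho p.2
  card : S.ncard ≤ s
  bd : Z.Bd r D
  bd' : Z'.Bd r D

theorem St.agr {Z : LG c V} {Z' : LG c W} {S : Set (V × W)} {r n s D : ℕ}
    (h : St Z Z' S r n s D) : Agr Z Z' S := ⟨h.ef.pi, h.ag⟩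

theorem St.swap {Z : LG c V} {Z' : LG c W} {S : Set (V × W)} {r n s D : ℕ}
    (h : St Z Z' S r n s D) : St Z' Z (Prod.swap '' S) r n s D :=
  ⟨h.ef.symm, h.agr.swap.2, by rw [ncard_image_of_injective _ Prod.swap_injective]; exact h.card,
    h.bd', h.bd⟩

theorem step [Finite V] [Finite W] {Z : LG c V} {Z' : LG c W} {S : Set (V × W)}
    {n s D Δ D0 t : ℕ} (o : Z.Ok (RR c q M)) (o' : Z'.Ok (RR c q M))
    (h : St Z Z' S (RR c q M) (n + (D + D * Δ)) s D) (hn : RR c q M + 1 ≤ n)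
    (d : Z.G.Deg Δ) (d' : Z'.G.Deg Δ) (bg : Bg Z'.G (RR c q M) D0)
    {k : Option Bool} {τ : Key c q ⊕ PTy c q} {C : Set V}
    (hC : C ∈ cls (Z.Obj (RR c q M) k) (LG.oty q M o k) τ) (hC' : C ∉ MO Z' S o k τ)
    (ht : (MO Z' S o k τ).ncard < t) :
    ∃ (Z'' : LG c W) (_ : Z''.Ok (RR c q M)) (S' : Set (V × W)), Z''.G = Z'.G ∧
      St Z Z'' S' (RR c q M) n (s + (D + D * Δ))
        (D + ((s + (D + D * Δ)) * (Δ + 1) ^ RR c q M + D0 +
          (s + (D + D * Δ)) * (Δ + 1) ^ RR c q M * Δ * D0)) ∧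
      dfc Z'' S' o t < dfc Z' S o t := by
  classical
  set r := RR c q M with hr
  have hCD : C.ncard ≤ D := by
    obtain ⟨⟨v, -, rfl⟩, -⟩ := hC
    exact h.bd k v
  have hX : (C ∪ Z.G.nb C).ncard ≤ D + D * Δ :=
    (ncard_union_le _ _).trans (Nat.add_le_add hCD
      ((Gr.ncard_nb d C).trans (Nat.mul_le_mul_right _ hCD)))
  obtain ⟨S', s1, -, s3, s4, s5⟩ := EF.play (A := Z.G.str) (B := Z'.G.str) (n := n) rfl
    (C ∪ Z.G.nb C) (toFinite _) (toFinite S) (h.ef.of_le (by omega))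
  have hs : S'.ncard ≤ s + (D + D * Δ) := by have := h.card; omega
  have uq : ∀ v w v', (v, v') ∈ S' → (w, v') ∈ S' → v = w := fun v w v' a b =>
    (s3.pi _ a _ b).1.2 rfl
  obtain ⟨g, g1, g2, g3⟩ := bg
  let φ : W → ℕ := fun v' => if h : ∃ v, (v, v') ∈ S' then Z.f h.choose else 0
  have hφ : ∀ v v', (v, v') ∈ S' → φ v' = Z.f v := by
    intro v v' a
    have e : ∃ v, (v, v') ∈ S' := ⟨v, a⟩
    simp only [φ, dif_pos e]
    rw [uq _ _ _ e.choose_spec a]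
  obtain ⟨F, F1, F2, F3, F4⟩ := Gr.lip_extend (G := Z'.G) (r := r) (Prod.snd '' S') φ g
    (by
      rintro _ ⟨⟨v, v'⟩, a, rfl⟩
      rw [hφ v v' a]; exact o.le v)
    (by
      rintro _ ⟨⟨v, v'⟩, a, rfl⟩ _ ⟨⟨w, w'⟩, b, rfl⟩ e he nr
      rw [hφ v v' a, hφ w w' b]
      exact (Gr.near_transfer (s3.of_le (by omega)) a b nr).lip o.lip) g1 g2
  obtain ⟨B, hB⟩ := (finite_range Z.rho).bddAbove
  let ρ : W → ℕ := fun v' => if h : ∃ v, (v, v') ∈ S' then Z.rho h.choose else B + 1 + Z'.rho v'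
  have hρ : ∀ v v', (v, v') ∈ S' → ρ v' = Z.rho v := by
    intro v v' a
    have e : ∃ v, (v, v') ∈ S' := ⟨v, a⟩
    simp only [ρ, dif_pos e]
    rw [uq _ _ _ e.choose_spec a]
  have hρ' : ∀ v', ¬ (∃ v, (v, v') ∈ S') → ρ v' = B + 1 + Z'.rho v' := by
    intro v' e
    simp only [ρ, dif_neg e]
  refine ⟨⟨Z'.G, F, ρ⟩, ⟨F1, F2, ?_⟩, S', rfl, ⟨s3, ?_, hs, ?_, ?_⟩, ?_⟩
  · intro x y e
    change ρ x = ρ y at e
    by_cases c1 : ∃ v, (v, x) ∈ S' <;> by_cases c2 : ∃ v, (v, y) ∈ S'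
    · obtain ⟨v, a⟩ := c1
      obtain ⟨w, b⟩ := c2
      rw [hρ v x a, hρ w y b] at e
      exact (s3.pi _ a _ b).1.1 (o.inj e)
    · obtain ⟨v, a⟩ := c1
      rw [hρ v x a, hρ' y c2] at e
      have := hB ⟨v, rfl⟩
      omega
    · obtain ⟨w, b⟩ := c2
      rw [hρ w y b, hρ' x c1] at e
      have := hB ⟨w, rfl⟩
      omega
    · rw [hρ' x c1, hρ' y c2] at e
      exact o'.inj (by omega)
  · rintro ⟨v, v'⟩ a
    exact ⟨((F3 v' ⟨_, a, rfl⟩).trans (hφ v v' a)).symm, (hρ v v' a).symm⟩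
  · intro k x
    exact (h.bd k x).trans (Nat.le_add_right _ _)
  · intro k x
    have b1 := Gr.comp_bound (G := Z'.G) d' (A := (LG.mk Z'.G F ρ).zone r k)
      (A0 := (LG.mk Z'.G g g).zone r k) (N := Z'.G.ball (Prod.snd '' S') r)
      (by
        intro v hv hv'
        have := F4 v hv'
        rcases k with _ | _ | _ <;> simpa [zone, this] using hv) (g3 k) x
    have b2 : (Z'.G.ball (Prod.snd '' S') r).ncard ≤ (s + (D + D * Δ)) * (Δ + 1) ^ r :=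
      (Gr.ncard_ball d' _ r).trans (Nat.mul_le_mul_right _ ((ncard_image_le).trans hs))
    have b3 := Nat.mul_le_mul_right D0 (Nat.mul_le_mul_right Δ b2)
    exact b1.trans (by omega)
  · have sub : ∀ k τ, MO Z' S o k τ ⊆ MO (LG.mk Z'.G F ρ) S' o k τ := by
      rintro k τ C ⟨a, b⟩
      refine ⟨a, fun v hv => ?_⟩
      obtain ⟨v', b1, b2, b3⟩ := b v hv
      exact ⟨v', s1 b1, fun w e => (b2 w e).imp fun _ h => s1 h,
        fun w e => (b3 w e).imp fun _ h => s1 h⟩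
    have new : C ∈ MO (LG.mk Z'.G F ρ) S' o k τ := by
      refine ⟨hC, fun v hv => ?_⟩
      obtain ⟨v', a⟩ := s5 v (Or.inl hv)
      have nbr : ∀ w, Z.G.E v w → ∃ w', (w, w') ∈ S' := fun w e =>
        s5 w (Or.inr (mem_biUnion hv e))
      refine ⟨v', a, nbr, fun w' e => ?_⟩
      obtain ⟨w, -, b⟩ := (s3.of_le (show 0 + 1 ≤ n by omega)).2.2 w' trivial
      obtain ⟨w'', b'⟩ := nbr w (((b _ (Or.inr a) _ (Or.inl rfl)).2.2 ()).2 e)
      have : w'' = w' := (b _ (Or.inr b') _ (Or.inl rfl)).1.1 rfl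
      exact ⟨w, this ▸ b'⟩
    refine Finset.sum_lt_sum (fun x _ => ?_) ⟨(k, τ), @Finset.mem_univ _ (Fintype.ofFinite _) _, ?_⟩
    · have := ncard_le_ncard (sub x.1 x.2)
      omega
    · have := ncard_lt_ncard (show MO Z' S o k τ ⊂ MO (LG.mk Z'.G F ρ) S' o k τ from
        ⟨sub k τ, fun hc => hC' (hc new)⟩)
      simp only
      omega

theorem matching (c q M Δ D0 t : ℕ) : ∀ m s D : ℕ, ∃ n, ∀ (V W : Type) [Finite V] [Finite W]
    (Z : LG c V) (Z' : LG c W) (S : Set (V × W)) (o : Z.Ok (RR c q M)) (_ : Z'.Ok (RR c q M)),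
    St Z Z' S (RR c q M) n s D → Z.G.Deg Δ → Z'.G.Deg Δ → Bg Z.G (RR c q M) D0 →
    Bg Z'.G (RR c q M) D0 → dfc Z' S o t < m →
    ∃ (Y : LG c V) (Y' : LG c W) (h : Y.Ok (RR c q M)) (h' : Y'.Ok (RR c q M)),
      Y.G = Z.G ∧ Y'.G = Z'.G ∧
      ∀ k, Sz t (Y.Obj (RR c q M) k) (LG.oty q M h k) (Y'.Obj (RR c q M) k) (LG.oty q M h' k) := by
  intro m
  induction m with
  | zero => exact fun s D => ⟨0, fun _ _ _ _ _ _ _ _ _ _ _ _ _ _ h => absurd h (by omega)⟩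
  | succ m ih =>
    intro s D
    obtain ⟨n, hn⟩ := ih (s + (D + D * Δ)) (D + ((s + (D + D * Δ)) * (Δ + 1) ^ RR c q M + D0 +
          (s + (D + D * Δ)) * (Δ + 1) ^ RR c q M * Δ * D0))
    refine ⟨max n (RR c q M + 1) + (D + D * Δ), ?_⟩
    intro V W _ _ Z Z' S o o' h d d' bg bg' hm
    by_cases c1 : ∃ k τ C, C ∈ cls (Z.Obj (RR c q M) k) (LG.oty q M o k) τ ∧
        C ∉ MO Z' S o k τ ∧ (MO Z' S o k τ).ncard < t
    · obtain ⟨k, τ, C, a1, a2, a3⟩ := c1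
      obtain ⟨Z'', o'', S', e, st, lt⟩ := step o o' h (le_max_right _ _) d d' bg' a1 a2 a3
      obtain ⟨Y, Y', y, y', e1, e2, z⟩ := hn V W Z Z'' S' o o''
        ⟨st.ef.of_le (le_max_left _ _), st.ag, st.card, st.bd, st.bd'⟩ d (e ▸ d') bg (e ▸ bg')
        (by omega)
      exact ⟨Y, Y', y, y', e1, e2.trans e, z⟩
    by_cases c2 : ∃ k τ C, C ∈ cls (Z'.Obj (RR c q M) k) (LG.oty q M o' k) τ ∧
        C ∉ MO Z (Prod.swap '' S) o' k τ ∧ (MO Z (Prod.swap '' S) o' k τ).ncard < t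
    · obtain ⟨k, τ, C, a1, a2, a3⟩ := c2
      obtain ⟨Z'', o'', S', e, st, lt⟩ := step o' o h.swap (le_max_right _ _) d' d bg a1 a2 a3
      rw [← h.agr.dfc_eq o o'] at lt
      obtain ⟨Y', Y, y', y, e1, e2, z⟩ := hn W V Z' Z'' S' o' o''
        ⟨st.ef.of_le (le_max_left _ _), st.ag, st.card, st.bd, st.bd'⟩ d' (e ▸ d) bg' (e ▸ bg)
        (by omega)
      exact ⟨Y, Y', y, y', e2.trans e, e1, fun k => (z k).symm⟩
    refine ⟨Z, Z', o, o', rfl, rfl, fun k τ => ?_⟩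
    have e := h.agr.MO_eq o o' k τ
    have s1 : MO Z' S o k τ ⊆ cls (Z.Obj (RR c q M) k) (LG.oty q M o k) τ := fun _ h => h.1
    have s2 : MO Z (Prod.swap '' S) o' k τ ⊆ cls (Z'.Obj (RR c q M) k) (LG.oty q M o' k) τ :=
      fun _ h => h.1
    by_cases c3 : (MO Z' S o k τ).ncard < t
    · left
      rw [← Subset.antisymm s1 (fun C hC => by_contra fun hc => c1 ⟨k, τ, C, hC, hc, c3⟩),
        ← Subset.antisymm s2 (fun C hC => by_contra fun hc => c2 ⟨k, τ, C, hC, hc, e ▸ c3⟩), e]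
    · right
      have := ncard_le_ncard s1
      have := ncard_le_ncard s2
      omega

end LG

/-- Equivalent graphs of bounded degree with bounded height functions have equivalent orders. -/
theorem orders_main (c q Δ : ℕ) (D0 : ℕ → ℕ) : ∃ n, ∀ (V W : Type) [Finite V] [Finite W]
    (G : Gr c V) (H : Gr c W), G.Deg Δ → H.Deg Δ → (∀ r, LG.Bg G r (D0 r)) →
    (∀ r, LG.Bg H r (D0 r)) → EF G.str H.str n ∅ →
    ∃ (o : LinearOrder V) (o' : LinearOrder W),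
      EF (G.ostr (@LT.lt V o.toLT)) (H.ostr (@LT.lt W o'.toLT)) q ∅ := by
  obtain ⟨t, M, h0⟩ := obj_main q
  obtain ⟨n, hn⟩ := LG.matching c q M Δ (D0 (RR c q M)) t
    (@Fintype.card (Option Bool × (Key c q ⊕ PTy c q)) (Fintype.ofFinite _) * t + 1)
    0 (D0 (RR c q M))
  refine ⟨n, fun V W _ _ G H d d' bg bg' h => ?_⟩
  obtain ⟨g, g1, g2, g3⟩ := bg (RR c q M)
  obtain ⟨g', g1', g2', g3'⟩ := bg' (RR c q M)
  obtain ⟨ρ, hρ⟩ := exists_injective_nat V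
  obtain ⟨ρ', hρ'⟩ := exists_injective_nat W
  obtain ⟨Y, Y', y, y', e1, e2, z⟩ := hn V W ⟨G, g, ρ⟩ ⟨H, g', ρ'⟩ ∅ ⟨g1, g2, hρ⟩ ⟨g1', g2', hρ'⟩
    ⟨h, by simp, by simp, g3, g3'⟩ d d' (bg _) (bg' _) (by
      refine Nat.lt_succ_of_le ?_
      exact Finset.sum_le_card_nsmul _ _ t (fun x _ => Nat.sub_le _ _))
  have := h0 c V W Y Y' y y' z
  rwa [e1, e2] at this

end Pool.Agent.Work.MP_b730b2_lc
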