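import Pool.Agent.Work.MP_b730b2_lc.Lay
import Pool.Agent.Work.MP_b730b2_lc.Lev

/-! The layered graph attached to a height function. -/

namespace Pool.Agent.Work.MP_b730b2_lc

open Set

variable {c : ℕ} {V W : Type}

/-- Connection inside a set. -/
def Gr.Conn (G : Gr c V) (A : Set V) : V → V → Prop :=
  Relation.ReflTransGen (fun a b => G.E a b ∧ a ∈ A ∧ b ∈ A)

/-- The component of a vertex inside a set. -/
def Gr.comp (G : Gr c V) (A : Set V) (x : V) : Set V := {y | G.Conn A x y}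

namespace Gr

variable {G : Gr c V} {A B : Set V} {x y : V}

theorem Conn.symm (h : G.Conn A x y) : G.Conn A y x := by
  induction h with
  | refl => exact Relation.ReflTransGen.refl
  | tail _ h ih => exact Relation.ReflTransGen.head ⟨G.symm _ _ h.1, h.2.2, h.2.1⟩ ih

theorem mem_comp_self : x ∈ G.comp A x := Relation.ReflTransGen.refl

theorem comp_eq (h : y ∈ G.comp A x) : G.comp A y = G.comp A x := by
  ext z
  exact ⟨fun hz => Relation.ReflTransGen.trans h hz,
    fun hz => Relation.ReflTransGen.trans (Conn.symm h) hz⟩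

theorem comp_edge (h : G.E x y) (hx : x ∈ A) (hy : y ∈ A) : G.comp A x = G.comp A y :=
  (comp_eq (Relation.ReflTransGen.single ⟨h, hx, hy⟩)).symm

theorem comp_sub (hx : x ∈ A) : G.comp A x ⊆ A := by
  intro y hy
  induction hy with
  | refl => exact hx
  | tail _ h _ => exact h.2.2

theorem comp_mono (h : A ⊆ B) : G.comp A x ⊆ G.comp B x := by
  intro y hy
  induction hy with
  | refl => exact Relation.ReflTransGen.refl
  | tail _ h' ih => exact Relation.ReflTransGen.tail ih ⟨h'.1, h h'.2.1, h h'.2.2⟩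

end Gr

/-- Graphs with a height function and a numbering. -/
structure LG (c : ℕ) (V : Type) where
  G : Gr c V
  f : V → ℕ
  rho : V → ℕ

/-- Window size. -/
abbrev PP (q : ℕ) : ℕ := 2 * (2 ^ q + 1)

/-- Types of unit windows. -/
abbrev Key (c q : ℕ) : Type := Ty (Fin c ⊕ Fin (2 * PP q)) Bool q 0

/-- Types of pieces. -/
abbrev PTy (c q : ℕ) : Type := Ty ((Fin c ⊕ Fin (2 * PP q)) ⊕ Key c q) (Option Bool) q 0

/-- Number of candidate positions. -/
noncomputable def R0 (c q M : ℕ) : ℕ := (mono_path (Key c q) M).choose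

/-- The total height. -/
noncomputable def RR (c q M : ℕ) : ℕ := PP q * (R0 c q M + 1)

/-- The chosen positions. -/
noncomputable def pth {c q : ℕ} (M : ℕ) (χ : ℕ → ℕ → Key c q) : ℕ → ℕ :=
  ((mono_path (Key c q) M).choose_spec χ).choose

/-- The chosen colour. -/
noncomputable def col {c q : ℕ} (M : ℕ) (χ : ℕ → ℕ → Key c q) : Key c q :=
  ((mono_path (Key c q) M).choose_spec χ).choose_spec.choose

theorem pth_spec {c q : ℕ} (M : ℕ) (χ : ℕ → ℕ → Key c q) : (∀ i < M, pth M χ i < R0 c q M) ∧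
    ∀ i, i + 1 < M → pth M χ i < pth M χ (i + 1) ∧ χ (pth M χ i) (pth M χ (i + 1)) = col M χ :=
  ((mono_path (Key c q) M).choose_spec χ).choose_spec.choose_spec

theorem pth_gap {c q : ℕ} (M : ℕ) (χ : ℕ → ℕ → Key c q) (i j : ℕ) (hi : i < j) (hj : j < M) :
    PP q * pth M χ i + PP q ≤ PP q * pth M χ j := by
  rw [← mul_add_one]
  refine Nat.mul_le_mul_left _ ?_
  induction hi with
  | refl => exact ((pth_spec M χ).2 i hj).1
  | @step j _ ih =>
    have h1 := ih (by omega)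
    have h2 := ((pth_spec M χ).2 j hj).1
    simp only [Nat.succ_eq_add_one]
    omega

theorem pth_top {c q : ℕ} (M : ℕ) (χ : ℕ → ℕ → Key c q) {x : ℕ} (hx : RR c q M ≤ x) :
    lev (PP q) (fun i => PP q * pth M χ i) x M = M * PP q := by
  refine lev_full fun i hi => le_trans ?_ hx
  rw [← mul_add_one]
  exact Nat.mul_le_mul_left _ (by have := (pth_spec M χ).1 i hi; omega)

namespace LG

variable (Z : LG c V) (q M : ℕ)

/-- The three zones. -/
def zone (r : ℕ) : Option Bool → Set V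
  | none => {v | 0 < Z.f v ∧ Z.f v < r}
  | some false => {v | Z.f v < r}
  | some true => {v | 0 < Z.f v}

/-- The objects of a given kind. -/
def Obj (r : ℕ) (k : Option Bool) : Set (Set V) :=
  {C | ∃ v ∈ Z.zone r k, C = Z.G.comp (Z.zone r k) v}

/-- Candidate windows of a unit. -/
def XW (C : Set V) (a b : ℕ) : Str (Fin c ⊕ Fin (2 * PP q)) Bool V where
  dom := {v | v ∈ C ∧ a < Z.f v ∧ Z.f v < b + PP q}
  U i v := match i with
    | Sum.inl i => Z.G.C i v
    | Sum.inr i => min (PP q) (Z.f v - a) + (Z.f v - b) = i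
  R b v w := if b then Z.rho v < Z.rho w else Z.G.E v w

/-- The colouring of pairs of positions. -/
def chi (C : Set V) (a b : ℕ) : Key c q := tp0 (Z.XW q C (PP q * a) (PP q * b)) q

/-- The unit of a vertex. -/
def un (v : V) : Set V := Z.G.comp (Z.zone (RR c q M) none) v

/-- The collapsed level. -/
noncomputable def lam (v : V) : ℕ :=
  lev (PP q) (fun i => PP q * pth M (Z.chi q (Z.un q M v)) i) (Z.f v) M

/-- Basic conditions. -/
structure Ok (r : ℕ) : Prop where
  le : ∀ v, Z.f v ≤ r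
  lip : ∀ v w, Z.G.E v w → Z.f v ≤ Z.f w + 1
  inj : Function.Injective Z.rho

variable {Z q M}

theorem lam_pos {v : V} (h : 0 < Z.lam q M v) : 0 < Z.f v := by
  by_contra c
  rw [lam, show Z.f v = 0 by omega, lev_zero] at h
  omega

theorem lam_lt {v : V} (h : Z.lam q M v < M * PP q) : Z.f v < RR c q M := by
  by_contra c
  rw [lam, pth_top _ _ (not_lt.1 c)] at h
  omega

theorem lam_zone {b : Bool} {v : V} (h : if b then 0 < Z.lam q M v else Z.lam q M v < M * PP q) :
    v ∈ Z.zone (RR c q M) (some b) := by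
  cases b
  · exact lam_lt h
  · exact lam_pos h

theorem zone_sub (r : ℕ) (b : Bool) : Z.zone r none ⊆ Z.zone r (some b) := by
  cases b
  · exact fun _ h => h.2
  · exact fun _ h => h.1

theorem lam_lip (h : Z.Ok (RR c q M)) (v w : V) (e : Z.G.E v w) :
    Z.lam q M v ≤ Z.lam q M w + 1 := by
  have h1 := h.lip v w e
  have h2 : ∀ χ : ℕ → ℕ → Key c q, lev (PP q) (fun i => PP q * pth M χ i) (Z.f v) M ≤
      lev (PP q) (fun i => PP q * pth M χ i) (Z.f w) M + 1 := fun χ =>
    (lev_mono h1 M).trans (lev_lip _ M (pth_gap M χ))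
  by_cases c1 : v ∈ Z.zone (RR c q M) none
  · by_cases c2 : w ∈ Z.zone (RR c q M) none
    · have : Z.un q M v = Z.un q M w := Gr.comp_edge e c1 c2
      rw [lam, lam, this]
      exact h2 _
    · refine (h2 _).trans (le_of_eq ?_)
      simp only [zone, mem_ofPred_eq, not_and_or, not_lt] at c2
      rcases c2 with c2 | c2
      · rw [lam, Nat.le_zero.1 c2, lev_zero, lev_zero]
      · rw [lam, pth_top _ _ c2, pth_top _ _ c2]
  · refine le_trans (le_of_eq ?_) (h2 _)
    simp only [zone, mem_ofPred_eq, not_and_or, not_lt] at c1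
    rcases c1 with c1 | c1
    · rw [lam, Nat.le_zero.1 c1, lev_zero, lev_zero]
    · rw [lam, pth_top _ _ c1, pth_top _ _ c1]

variable (q M)

/-- The layered graph, with given piece types. -/
noncomputable def lay0 [Finite V] (h : Z.Ok (RR c q M)) {T : Type} (ty : Bool → Set V → T) :
    Lay c (Key c q) T V (Set V) M (PP q) where
  G := Z.G
  lam := Z.lam q M
  un := Z.un q M
  D := Z.Obj (RR c q M) none
  key C := col M (Z.chi q C)
  u C := sInf (Z.rho '' C)
  rho := Z.rho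
  pc b v := Z.G.comp (Z.zone (RR c q M) (some b)) v
  up b C := ⋃ v ∈ C, Z.G.comp (Z.zone (RR c q M) (some b)) v
  Dp b := Z.Obj (RR c q M) (some b)
  ty := ty
  lam_le v := lev_le _ _
  lip := lam_lip h
  D_fin := toFinite _
  Dp_fin _ := toFinite _
  un_mem v h1 h2 := ⟨v, ⟨lam_pos h1, lam_lt h2⟩, rfl⟩
  un_edge v w e h1 h2 h3 h4 := Gr.comp_edge e ⟨lam_pos h1, lam_lt h2⟩ ⟨lam_pos h3, lam_lt h4⟩
  u_inj := by
    rintro _ ⟨v, -, rfl⟩ _ ⟨w, -, rfl⟩ e
    obtain ⟨x, hx, e1⟩ := Nat.sInf_mem (s := Z.rho '' Z.G.comp (Z.zone (RR c q M) none) v)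
      ⟨_, v, Gr.mem_comp_self, rfl⟩
    obtain ⟨y, hy, e2⟩ := Nat.sInf_mem (s := Z.rho '' Z.G.comp (Z.zone (RR c q M) none) w)
      ⟨_, w, Gr.mem_comp_self, rfl⟩
    have : x = y := h.inj (e1.trans (e.trans e2.symm))
    subst this
    rw [← Gr.comp_eq hx, ← Gr.comp_eq hy]
  rho_inj := h.inj
  pc_mem b v hv := ⟨v, lam_zone hv, rfl⟩
  pc_edge b v w e h1 h2 := Gr.comp_edge e (lam_zone h1) (lam_zone h2)
  pc_un b v _ _ := by
    ext z
    simp only [mem_iUnion]
    constructor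
    · intro hz; exact ⟨v, Gr.mem_comp_self, hz⟩
    · rintro ⟨w, hw, hz⟩
      rwa [Gr.comp_eq (Gr.comp_mono (zone_sub _ b) hw)] at hz

/-- The layered graph. -/
noncomputable def lay [Finite V] (h : Z.Ok (RR c q M)) :
    Lay c (Key c q) (PTy c q) V (Set V) M (PP q) :=
  lay0 q M h (fun b C => tp0 ((lay0 q M h (fun _ _ => ())).PW b C) q)

/-- The type of an object. -/
noncomputable def oty [Finite V] (h : Z.Ok (RR c q M)) :
    Option Bool → Set V → Key c q ⊕ PTy c q
  | none, C => Sum.inl ((lay q M h).key C)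
  | some b, C => Sum.inr ((lay q M h).ty b C)

variable {q M}

theorem UW_XW [Finite V] (h : Z.Ok (RR c q M)) {i : ℕ} (hi : 1 ≤ i) (hi' : i + 1 ≤ M) {x : Set V}
    (hx : x ∈ (lay q M h).D) : tp0 ((lay q M h).UW i x) q = (lay q M h).key x := by
  obtain ⟨j, rfl⟩ : ∃ j, i = j + 1 := ⟨i - 1, by omega⟩
  obtain ⟨v, -, rfl⟩ := hx
  set x := Z.G.comp (Z.zone (RR c q M) none) v with hx
  have e0 := ((pth_spec M (Z.chi q x)).2 j (by omega)).2
  change _ = col M (Z.chi q x)
  rw [← e0, chi, tp0_iff]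
  have hw := fun y => lev_win (P := PP q) (p := fun i => PP q * pth M (Z.chi q x) i) (x := y)
    (j := j) (M := M) (by positivity) (pth_gap M _) (by omega)
  have hd : ((lay q M h).UW (j + 1) x).dom = (Z.XW q x (PP q * pth M (Z.chi q x) j)
      (PP q * pth M (Z.chi q x) (j + 1))).dom := by
    ext w
    change (((j + 1) * PP q < Z.lam q M w + PP q ∧ Z.lam q M w < (j + 1) * PP q + PP q) ∧
      Z.un q M w = x) ↔ (w ∈ x ∧ _)
    constructor
    · rintro ⟨h1, h2⟩
      rw [lam, h2, hw] at h1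
      exact ⟨h2 ▸ Gr.mem_comp_self, h1⟩
    · rintro ⟨h1, h2⟩
      have h3 : Z.un q M w = x := Gr.comp_eq h1
      rw [lam, h3, hw]
      exact ⟨h2, rfl⟩
  refine EF.of_iso (T := {p | p.1 ∈ ((lay q M h).UW (j + 1) x).dom ∧ p.2 = p.1}) ?_
    (fun a ha => ⟨a, hd ▸ ha, ha, rfl⟩) (fun a ha => ⟨a, hd ▸ ha, hd ▸ ha, rfl⟩) q
  rintro ⟨a, a'⟩ ⟨ha, e1⟩ ⟨b, b'⟩ ⟨-, e2⟩
  simp only at ha e1 e2
  subst e1 e2
  refine ⟨Iff.rfl, fun i => ?_, fun _ => Iff.rfl⟩
  rcases i with i | i
  · exact Iff.rfl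
  · change Z.lam q M a' + PP q = (j + 1) * PP q + i ↔
      min (PP q) (Z.f a' - PP q * pth M (Z.chi q x) j) +
        (Z.f a' - PP q * pth M (Z.chi q x) (j + 1)) = i
    have h2 : Z.un q M a' = x := ha.2
    rw [hd] at ha
    rw [lam, h2, lev_val (pth_gap M _) (j := j) (by omega) ha.2.1.le ha.2.2.le, add_mul]
    omega

end LG

theorem obj_main (q : ℕ) : ∃ n0 M, ∀ (c : ℕ) (V W : Type) [Finite V] [Finite W]
    (Z : LG c V) (Z' : LG c W) (h : Z.Ok (RR c q M)) (h' : Z'.Ok (RR c q M)),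
    (∀ k, Sz n0 (Z.Obj (RR c q M) k) (LG.oty q M h k) (Z'.Obj (RR c q M) k) (LG.oty q M h' k)) →
    ∃ (o : LinearOrder V) (o' : LinearOrder W),
      EF (Z.G.ostr (@LT.lt V o.toLT)) (Z'.G.ostr (@LT.lt W o'.toLT)) q ∅ := by
  obtain ⟨n0, M, -, h0⟩ := lay_main q
  refine ⟨n0, M, fun c V W _ _ Z Z' h h' hs => ?_⟩
  refine h0 c _ _ V _ W _ (LG.lay q M h) (LG.lay q M h') ?_ ?_ ?_ ?_
  · intro κ
    have := hs none (Sum.inl κ)
    simp only [cls, LG.oty, Sum.inl.injEq] at this
    exact this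
  · intro b κ
    have := hs (some b) (Sum.inr κ)
    simp only [cls, LG.oty, Sum.inr.injEq] at this
    exact this
  · intro i j h1 h2 h3 h4 x hx y hy e
    rw [← tp0_iff, LG.UW_XW h h1 h2 hx, LG.UW_XW h' h3 h4 hy, e]
  · intro b x _ y _ e
    exact tp0_iff.1 e

end Pool.Agent.Work.MP_b730b2_lc
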