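import Pool.Agent.Work.MP_b730b2_lc.Pump
import Mathlib.Order.Interval.Set.Nat
import Mathlib.Data.Fintype.Sum

/-! Pairs of linear orders: padding, imitation and decomposition. -/

namespace Pool.Agent.Work.MP_b730b2_lc

open Set

variable {Ω Ω' : Type}

/-- A set with two orders. -/
def CS (D : Set Ω) (o o' : Ω → ℕ) : Str Empty Bool Ω where
  dom := D
  U := fun e _ => e.elim
  R b x y := if b then o' x < o' y else o x < o y

/-- The canonical model of a permutation. -/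
def NS (n : ℕ) (g : ℕ → ℕ) : Str Empty Bool ℕ := CS (Iio n) id g

/-- Permutations which translate a long interval. -/
def Pad (L n : ℕ) (g : ℕ → ℕ) : Prop :=
  BijOn g (Iio n) (Iio n) ∧ ∃ s, s + L ≤ n ∧ ∀ j < L, g (s + j) = g s + j

theorem bij_of_inj {n : ℕ} {g : ℕ → ℕ} (h1 : ∀ x < n, g x < n)
    (h2 : ∀ x < n, ∀ y < n, g x = g y → x = y) : BijOn g (Iio n) (Iio n) :=
  ((finite_Iio n).injOn_iff_bijOn_of_mapsTo (fun x hx => h1 x hx)).1
    (fun x hx y hy h => h2 x hx y hy h)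

theorem CS_NS {D : Set Ω} {o o' : Ω → ℕ} {n : ℕ} {g : ℕ → ℕ} (h : BijOn o D (Iio n))
    (h' : ∀ x ∈ D, o' x = g (o x)) (q : ℕ) : EF (CS D o o') (NS n g) q ∅ := by
  refine EF.of_iso (T := {p | p.1 ∈ D ∧ p.2 = o p.1}) ?_ ?_ ?_ q
  · rintro ⟨x, x'⟩ ⟨hx, e1⟩ ⟨y, y'⟩ ⟨hy, e2⟩
    simp only at hx hy e1 e2
    subst e1 e2
    refine ⟨⟨fun e => congrArg o e, fun e => h.injOn hx hy e⟩, fun e => e.elim, fun b => ?_⟩
    cases b
    · simp [CS, NS]
    · simp [CS, NS, h' x hx, h' y hy]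
  · intro a ha
    exact ⟨o a, h.mapsTo ha, ha, rfl⟩
  · intro b hb
    obtain ⟨a, ha, rfl⟩ := h.surjOn hb
    exact ⟨a, ha, ha, rfl⟩

theorem Pad.succ {q n : ℕ} {g : ℕ → ℕ} (h : Pad (2 ^ q) n g) :
    ∃ g', Pad (2 ^ q) (n + 1) g' ∧ EF (NS n g) (NS (n + 1) g') q ∅ := by
  obtain ⟨hb, s, hs, hg⟩ := h
  have hL : 0 < 2 ^ q := by positivity
  have hq : s + (0 + 1) * 2 ^ q ≤ s + 2 ^ q + 1 := by omega
  generalize hLe : 2 ^ q = L at hs hg hL ⊢
  have hin : ∀ x, s ≤ x → x < s + L → g x + s = g s + x := by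
    intro x h1 h2
    have := hg (x - s) (by omega)
    rw [show s + (x - s) = x by omega] at this
    omega
  have hlt : ∀ x < n, g x < n := fun x hx => hb.mapsTo hx
  have hinj : ∀ x < n, ∀ y < n, g x = g y → x = y := fun x hx y hy e => hb.injOn hx hy e
  have hout : ∀ x < n, x < s ∨ s + L ≤ x → g x < g s ∨ g s + L ≤ g x := by
    intro x hx h1
    by_contra hc
    have h2 := hg (g x - g s) (by omega)
    have := hinj x hx (s + (g x - g s)) (by omega) (by omega)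
    omega
  have hgs : g s + L ≤ n := by
    have h1 := hg (L - 1) (by omega)
    have h2 := hlt (s + (L - 1)) (by omega)
    omega
  let g' : ℕ → ℕ := fun x => if x < s + L then (if g x < g s + L then g x else g x + 1)
    else if x = s + L then g s + L else (if g (x - 1) < g s + L then g (x - 1) else g (x - 1) + 1)
  refine ⟨g', ⟨bij_of_inj ?_ ?_, s, by omega, ?_⟩, ?_⟩
  · intro x hx
    have a1 := hlt x
    have a2 := hlt (x - 1)
    simp only [g']
    split_ifs <;> omega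
  · intro x hx y hy
    have a1 := hinj x
    have a2 := hinj (x - 1)
    have b1 := fun h => a1 h y
    have b2 := fun h => a1 h (y - 1)
    have b3 := fun h => a2 h y
    have b4 := fun h => a2 h (y - 1)
    simp only [g']
    split_ifs <;> omega
  · intro j hj
    have := hg j hj
    simp only [g']
    split_ifs <;> omega
  · refine EF.pump (n := n) (s := s) (e := s + L) (g := 0) rfl rfl hs (by rw [hLe]; omega) ?_
    rintro l u h1 h2 h3 ⟨x, x'⟩ hp ⟨y, y'⟩ hp'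
    simp only [mem_ofPred_eq] at hp hp'
    refine ⟨by simp only; omega, fun e => e.elim, fun b => ?_⟩
    cases b
    · simp only [CS, NS, id]; simp; omega
    · have a1 := hin x
      have a2 := hin y
      have a3 := hout x
      have a4 := hout y
      have a5 := hin (x + 1)
      have a6 := hin (y + 1)
      simp only [CS, NS, if_true, g']
      rcases hp with ⟨c1, rfl⟩ | ⟨c1, c2, rfl⟩ <;> rcases hp' with ⟨d1, rfl⟩ | ⟨d1, d2, rfl⟩ <;>
        (try simp only [Nat.add_sub_cancel]) <;> split_ifs <;> omega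

theorem Pad.up {q n n' : ℕ} {g : ℕ → ℕ} (h : Pad (2 ^ q) n g) (hn : n ≤ n') :
    ∃ g', Pad (2 ^ q) n' g' ∧ EF (NS n g) (NS n' g') q ∅ := by
  induction hn with
  | refl => exact ⟨g, h, EF.refl0 _ _⟩
  | step _ ih =>
    obtain ⟨g1, h1, e1⟩ := ih
    obtain ⟨g2, h2, e2⟩ := h1.succ
    exact ⟨g2, h2, e1.trans0 e2⟩

/-- Permutations translating a long interval can be imitated at every large size. -/
theorem imitate (q : ℕ) : ∃ n0, ∀ n g, Pad (2 ^ q) n g → ∀ n', n0 ≤ n' →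
    ∃ h, BijOn h (Iio n') (Iio n') ∧ EF (NS n g) (NS n' h) q ∅ := by
  have : ∀ τ : Ty Empty Bool q 0, ∃ m, (∃ n g, Pad (2 ^ q) n g ∧ tp0 (NS n g) q = τ) →
      ∃ g, Pad (2 ^ q) m g ∧ tp0 (NS m g) q = τ := by
    intro τ
    by_cases h : ∃ n g, Pad (2 ^ q) n g ∧ tp0 (NS n g) q = τ
    · obtain ⟨n, hn⟩ := h
      exact ⟨n, fun _ => hn⟩
    · exact ⟨0, fun h' => absurd h' h⟩
  choose m hm using this
  obtain ⟨n0, hn0⟩ := (finite_range m).bddAbove
  refine ⟨n0, fun n g hg n' hn' => ?_⟩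
  obtain ⟨g0, h0, e0⟩ := hm _ ⟨n, g, hg, rfl⟩
  obtain ⟨h, h1, e1⟩ := h0.up ((hn0 ⟨_, rfl⟩).trans hn')
  exact ⟨h, h1.1, (tp0_iff.1 e0.symm).trans0 e1⟩

theorem decomp {L n : ℕ} (hn : (L + 2) * L ≤ n) {γ : ℕ → ℕ} (hγ : BijOn γ (Iio n) (Iio n)) :
    ∃ g1 g2, Pad L n g1 ∧ Pad L n g2 ∧ ∀ x < n, g2 (g1 x) = γ x := by
  classical
  obtain ⟨t, ht, ht'⟩ : ∃ t ∈ Finset.range (L + 1),
      t ∉ (Finset.range L).image (fun x => γ x / L) := by
    apply Finset.exists_mem_notMem_of_card_lt_card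
    exact lt_of_le_of_lt Finset.card_image_le (by simp)
  have ht1 : t * L + L ≤ n := by
    have : t ≤ L := by simpa [Nat.lt_succ_iff] using ht
    nlinarith
  have hdis : ∀ x < L, ¬ (t * L ≤ γ x ∧ γ x < t * L + L) := by
    rintro x hx ⟨h1, h2⟩
    apply ht'
    refine Finset.mem_image.2 ⟨x, by simpa using hx, ?_⟩
    exact Nat.div_eq_of_lt_le h1 (by linarith)
  have h2L : L + L ≤ n := by nlinarith
  generalize t * L = c at *
  let f : Fin n → ℕ := fun x => if x.1 < L then x.1 else L + (γ x - c)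
  obtain ⟨G, hG⟩ := Set.MapsTo.exists_equiv_extend_of_card_eq (α := Fin n)
    (t := Finset.range n) (by simp) (s := {x | x.1 < L ∨ (c ≤ γ x ∧ γ x < c + L)}) (f := f)
    (by
      intro x hx
      simp only [mem_ofPred_eq] at hx
      simp only [Finset.coe_range, mem_Iio, f]
      split_ifs <;> omega)
    (by
      intro x hx y hy
      simp only [mem_ofPred_eq] at hx hy
      have := hγ.injOn x.2 y.2
      simp only [f, Fin.ext_iff]
      split_ifs <;> omega)
  let g1 : ℕ → ℕ := fun x => if h : x < n then (G ⟨x, h⟩).1 else x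
  have b1 : BijOn g1 (Iio n) (Iio n) := by
    refine bij_of_inj ?_ ?_
    · intro x hx
      simp only [g1, dif_pos hx]
      exact Finset.mem_range.1 (G ⟨x, hx⟩).2
    · intro x hx y hy e
      simp only [g1, dif_pos hx, dif_pos hy] at e
      have := G.injective (Subtype.ext e)
      simpa using this
  have e1 : ∀ x < L, g1 x = x := by
    intro x hx
    have hx' : x < n := by omega
    simp only [g1, dif_pos hx']
    rw [hG _ (Or.inl hx)]
    simp [f, hx]
  have e2 : ∀ x < n, c ≤ γ x → γ x < c + L → g1 x = L + (γ x - c) := by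
    intro x hx h1 h2
    simp only [g1, dif_pos hx]
    rw [hG _ (Or.inr ⟨h1, h2⟩)]
    have : ¬ x < L := fun h => hdis x h ⟨h1, h2⟩
    simp [f, this]
  have inv := b1.invOn_invFunOn
  have e3 : ∀ x < n, γ (Function.invFunOn g1 (Iio n) (g1 x)) = γ x := by
    intro x hx
    rw [inv.1 hx]
  have e4 : ∀ j < L, γ (Function.invFunOn g1 (Iio n) (L + j)) = c + j := by
    intro j hj
    obtain ⟨x, hx, e⟩ := hγ.surjOn (show c + j ∈ Iio n from (by omega : c + j < n))
    have := e2 x hx (by omega) (by omega)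
    rw [show L + j = g1 x by omega, e3 x hx, e]
  refine ⟨g1, γ ∘ Function.invFunOn g1 (Iio n), ⟨b1, 0, by omega, ?_⟩,
    ⟨hγ.comp (b1.symm inv.symm), L, h2L, ?_⟩, e3⟩
  · intro j hj
    rw [zero_add, e1 j hj, e1 0 (by omega), zero_add]
  · intro j hj
    have := e4 0 (by omega)
    simp only [Function.comp, e4 j hj]
    rw [add_zero] at this
    omega

/-- Two steps suffice, and each can be imitated. -/
theorem two_steps (q : ℕ) : ∃ n0, ∀ n n', (n = n' ∨ (n0 ≤ n ∧ n0 ≤ n')) →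
    ∀ γ, BijOn γ (Iio n) (Iio n) → ∃ g1 g2 h1 h2, BijOn g1 (Iio n) (Iio n) ∧
      BijOn g2 (Iio n) (Iio n) ∧ BijOn h1 (Iio n') (Iio n') ∧ BijOn h2 (Iio n') (Iio n') ∧
      EF (NS n g1) (NS n' h1) q ∅ ∧ EF (NS n g2) (NS n' h2) q ∅ ∧ ∀ x < n, g2 (g1 x) = γ x := by
  obtain ⟨n0, h0⟩ := imitate q
  refine ⟨max n0 ((2 ^ q + 2) * 2 ^ q), fun n n' h γ hγ => ?_⟩
  rcases h with rfl | ⟨h1, h2⟩
  · exact ⟨id, γ, id, γ, bijOn_id _, hγ, bijOn_id _, hγ, EF.refl0 _ _, EF.refl0 _ _, fun _ _ => rfl⟩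
  · obtain ⟨g1, g2, p1, p2, e⟩ := decomp (le_of_max_le_right h1) hγ
    obtain ⟨h1, b1, e1⟩ := h0 n g1 p1 n' (le_of_max_le_left h2)
    obtain ⟨h2, b2, e2⟩ := h0 n g2 p2 n' (le_of_max_le_left h2)
    exact ⟨g1, g2, h1, h2, p1.1, p2.1, b1, b2, e1, e2, e⟩

end Pool.Agent.Work.MP_b730b2_lc
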