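import Pool.Agent.Work.MP_b730b2_lc.EF

/-! Pumping, words and layered structures. -/

namespace Pool.Agent.Work.MP_b730b2_lc

variable {ι κ V W Γ : Type}

/-- Inserting one point into a long homogeneous interval. -/
theorem EF.pump {A B : Str ι κ ℕ} {n s e g q : ℕ} (hA : A.dom = {x | x < n})
    (hB : B.dom = {x | x < n + 1}) (he : e ≤ n) (hs : s + (g + 1) * 2 ^ q ≤ e + 1)
    (hpi : ∀ l u, s ≤ l → l + g ≤ u → u ≤ e →
      PI A B {p | (p.1 < l ∧ p.2 = p.1) ∨ (u ≤ p.1 ∧ p.1 < n ∧ p.2 = p.1 + 1)}) :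
    EF A B q ∅ := by
  refine EF.of_inv (fun m S => ∃ l u, s ≤ l ∧ l + (g + 1) * 2 ^ m ≤ u + 1 ∧ u ≤ e ∧
    S ⊆ {p | (p.1 < l ∧ p.2 = p.1) ∨ (u ≤ p.1 ∧ p.1 < n ∧ p.2 = p.1 + 1)}) ?_ ?_ ?_ q ∅
    ⟨s, e, le_rfl, hs, le_rfl, Set.empty_subset _⟩
  · rintro m S ⟨l, u, h1, h2, h3, h4⟩
    have : (g + 1) * 1 ≤ (g + 1) * 2 ^ m := Nat.mul_le_mul_left _ Nat.one_le_two_pow
    exact (hpi l u h1 (by omega) h3).mono h4
  · rintro m S ⟨l, u, h1, h2, h3, h4⟩ a ha
    rw [hA] at ha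
    rw [hB]
    have ha' : a < n := ha
    rw [pow_succ, ← mul_assoc] at h2
    have h0 : 0 < (g + 1) * 2 ^ m := by positivity
    generalize (g + 1) * 2 ^ m = F at *
    by_cases c : a + 1 < l + F
    · refine ⟨a, (by omega : a < n + 1), max l (a + 1), u, by omega, by omega, h3, ?_⟩
      rintro p (rfl | hp)
      · left; exact ⟨by simp, rfl⟩
      · rcases h4 hp with h | h
        · left; exact ⟨by omega, h.2⟩
        · right; exact h
    · refine ⟨a + 1, (by omega : a + 1 < n + 1), l, min u a, h1, by omega, by omega, ?_⟩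
      rintro p (rfl | hp)
      · right; exact ⟨by simp, ha', rfl⟩
      · rcases h4 hp with h | h
        · left; exact h
        · right; exact ⟨by omega, h.2⟩
  · rintro m S ⟨l, u, h1, h2, h3, h4⟩ b hb
    rw [hB] at hb
    rw [hA]
    have hb' : b < n + 1 := hb
    rw [pow_succ, ← mul_assoc] at h2
    have h0 : 0 < (g + 1) * 2 ^ m := by positivity
    generalize (g + 1) * 2 ^ m = F at *
    by_cases c : b < l + F
    · refine ⟨b, (by omega : b < n), max l (b + 1), u, by omega, by omega, h3, ?_⟩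
      rintro p (rfl | hp)
      · left; exact ⟨by simp, rfl⟩
      · rcases h4 hp with h | h
        · left; exact ⟨by omega, h.2⟩
        · right; exact h
    · refine ⟨b - 1, (by omega : b - 1 < n), l, min u (b - 1), h1, by omega, by omega, ?_⟩
      rintro p (rfl | hp)
      · right; exact ⟨by simp, by omega, by simp; omega⟩
      · rcases h4 hp with h | h
        · left; exact h
        · right; exact ⟨by omega, h.2⟩

/-- The structure of a word. -/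
def Word (w : List Γ) : Str Γ (Fin 3) ℕ where
  dom := {x | x < w.length}
  U s i := w[i]? = some s
  R k i j := if k = 0 then i < j else i + k = j

theorem Word.pump (u v : List Γ) (x : Γ) {n q : ℕ} (hn : 4 * 2 ^ q ≤ n) :
    EF (Word (u ++ List.replicate n x ++ v)) (Word (u ++ List.replicate (n + 1) x ++ v)) q ∅ := by
  refine EF.pump (n := u.length + n + v.length) (s := u.length) (e := u.length + n) (g := 3)
    (by simp [Word, add_assoc]) (by simp only [Word, List.length_append, List.length_replicate]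
                                    congr; funext y; congr 1; omega) (by omega) (by omega) ?_
  intro l r h1 h2 h3 p hp p' hp'
  have e1 : ∀ i, i < u.length + n → (u ++ List.replicate n x ++ v)[i]? =
      (u ++ List.replicate (n + 1) x ++ v)[i]? := by
    intro i hi
    simp only [List.getElem?_append, List.length_append, List.length_replicate,
      List.getElem?_replicate]
    split_ifs <;> first | rfl | omega
  have e2 : ∀ i, u.length ≤ i → (u ++ List.replicate n x ++ v)[i]? =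
      (u ++ List.replicate (n + 1) x ++ v)[i + 1]? := by
    intro i hi
    simp only [List.getElem?_append, List.length_append, List.length_replicate,
      List.getElem?_replicate]
    split_ifs <;> first | rfl | omega | (congr 1; omega)
  refine ⟨?_, fun s => ?_, fun k => ?_⟩
  · simp only [Set.mem_ofPred_eq] at hp hp'; omega
  · simp only [Word]
    rcases hp with h | h
    · rw [h.2, e1 _ (by omega)]
    · rw [h.2.2, e2 _ (by omega)]
  · simp only [Set.mem_ofPred_eq] at hp hp'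
    have := k.2
    simp only [Word]
    split_ifs <;> omega

theorem anchor_cases {w w' : List Γ} {i j i' j' : ℕ} (P : ℕ)
    (h1 : Ag (Word w) (Word w') (i, j) (i', j')) (h2 : Ag (Word w) (Word w') (i', j') (i, j)) :
    i * P + j' * P = i' * P + j * P ∨ (i * P + 3 * P ≤ i' * P ∧ j * P + 3 * P ≤ j' * P) ∨
      (i' * P + 3 * P ≤ i * P ∧ j' * P + 3 * P ≤ j * P) := by
  have a0 := h1.1
  have a1 := h1.2.2 0
  have a2 := h1.2.2 1
  have a3 := h1.2.2 2
  have b2 := h2.2.2 1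
  have b3 := h2.2.2 2
  simp [Word] at a0 a1 a2 a3 b2 b3
  simp only [← add_mul]
  by_cases c : i + j' = i' + j
  · left; rw [c]
  · right
    by_cases d : i < i'
    · left
      exact ⟨Nat.mul_le_mul_right _ (by omega), Nat.mul_le_mul_right _ (by omega)⟩
    · right
      exact ⟨Nat.mul_le_mul_right _ (by omega), Nat.mul_le_mul_right _ (by omega)⟩

/-- Locality for structures whose elements are arranged in layers. -/
theorem EF.layered {ι' κ' : Type} {A : Str ι κ V} {B : Str ι κ W} (lam : V → ℕ) (mu : W → ℕ)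
    {P q : ℕ} (hP : P = 2 * (2 ^ q + 1)) (w w' : List Γ)
    (C : ℕ → Str ι' κ' V) (D : ℕ → Str ι' κ' W)
    (hlam : ∀ a ∈ A.dom, lam a + P ≤ w.length * P) (hmu : ∀ b ∈ B.dom, mu b + P ≤ w'.length * P)
    (hC : ∀ i a, a ∈ (C i).dom ↔ a ∈ A.dom ∧ i * P < lam a + P ∧ lam a < i * P + P)
    (hD : ∀ j b, b ∈ (D j).dom ↔ b ∈ B.dom ∧ j * P < mu b + P ∧ mu b < j * P + P)
    (hwin : ∀ i < w.length, ∀ j < w'.length, w[i]? = w'[j]? → EF (C i) (D j) q ∅)
    (hrel : ∀ i j (p : V × W), p.1 ∈ (C i).dom → p.2 ∈ (D j).dom → Ag (C i) (D j) p p →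
      lam p.1 + j * P = mu p.2 + i * P)
    (hsame : ∀ i j (p p' : V × W), p.1 ∈ (C i).dom → p.2 ∈ (D j).dom → p'.1 ∈ (C i).dom →
      p'.2 ∈ (D j).dom → Ag (C i) (D j) p p' → Ag A B p p')
    (hfar : ∀ p p' : V × W, p.1 ∈ A.dom → p.2 ∈ B.dom → p'.1 ∈ A.dom → p'.2 ∈ B.dom →
      Ag A B p p → Ag A B p' p' → lam p.1 + 1 < lam p'.1 → mu p.2 + 1 < mu p'.2 →
      Ag A B p p' ∧ Ag A B p' p)
    (h : EF (Word w) (Word w') q ∅) : EF A B q ∅ := by
  let J : ℕ → Set ((V × W) × ℕ × ℕ) → Prop := fun n T => n ≤ q ∧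
    EF (Word w) (Word w') n (Prod.snd '' T) ∧
    (∀ t ∈ T, t.1.1 ∈ (C t.2.1).dom ∧ t.1.2 ∈ (D t.2.2).dom ∧
      t.2.1 * P + 2 ^ n ≤ lam t.1.1 + P ∧ lam t.1.1 + 2 ^ n ≤ t.2.1 * P + P ∧
      EF (C t.2.1) (D t.2.2) n {p | (p, t.2) ∈ T}) ∧
    ∀ t ∈ T, ∀ t' ∈ T, t.2 ≠ t'.2 →
      (lam t.1.1 + 2 ^ n < lam t'.1.1 ∧ mu t.1.2 + 2 ^ n < mu t'.1.2) ∨
      (lam t'.1.1 + 2 ^ n < lam t.1.1 ∧ mu t'.1.2 + 2 ^ n < mu t.1.2)
  have rel : ∀ n T, J n T → ∀ t ∈ T, lam t.1.1 + t.2.2 * P = mu t.1.2 + t.2.1 * P := by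
    intro n T hJ t ht
    obtain ⟨a1, a2, -, -, a3⟩ := hJ.2.2.1 t ht
    exact hrel _ _ _ a1 a2 (a3.pi _ ht _ ht)
  have key : ∀ n T, J (n + 1) T → ∀ i < w.length, ∀ j < w'.length,
      EF (Word w) (Word w') n (insert (i, j) (Prod.snd '' T)) →
      EF (C i) (D j) (n + 1) {p | (p, (i, j)) ∈ T} := by
    intro n T hJ i hi j hj e
    by_cases hS : ∃ p, (p, (i, j)) ∈ T
    · obtain ⟨p, hp⟩ := hS
      exact (hJ.2.2.1 _ hp).2.2.2.2
    · have : {p | (p, (i, j)) ∈ T} = ∅ := by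
        ext p; simp only [Set.mem_ofPred_eq, Set.mem_empty_iff_false, iff_false]
        exact fun hp => hS ⟨p, hp⟩
      rw [this]
      refine (hwin i hi j hj ?_).of_le hJ.1
      have := ((e.pi _ (Or.inl rfl) _ (Or.inl rfl)).2.1 w[i]).1 (by simp [Word])
      simp only [Word] at this
      rw [this]; simp
  have step : ∀ n T, J (n + 1) T → ∀ a b i j, a ∈ (C i).dom → b ∈ (D j).dom →
      EF (Word w) (Word w') n (insert (i, j) (Prod.snd '' T)) →
      EF (C i) (D j) n (insert (a, b) {p | (p, (i, j)) ∈ T}) →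
      i * P + 2 ^ n ≤ lam a + P → lam a + 2 ^ n ≤ i * P + P →
      (∀ t ∈ T, t.2 ≠ (i, j) →
        (lam a + 2 ^ n < lam t.1.1 ∧ mu b + 2 ^ n < mu t.1.2) ∨
        (lam t.1.1 + 2 ^ n < lam a ∧ mu t.1.2 + 2 ^ n < mu b)) →
      J n (insert ((a, b), (i, j)) T) := by
    rintro n T ⟨h0, h1, h2, h3⟩ a b i j ha hb e1 e2 m1 m2 hf
    have hp : 2 ^ (n + 1) = 2 * 2 ^ n := by ring
    refine ⟨by omega, by rw [Set.image_insert_eq]; exact e1, ?_, ?_⟩
    · have e3 : EF (C i) (D j) n {p | (p, (i, j)) ∈ insert ((a, b), (i, j)) T} := by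
        refine e2.mono ?_
        rintro p (hp | hp)
        · exact Or.inl (congrArg Prod.fst hp)
        · exact Or.inr hp
      rintro t (rfl | ht)
      · exact ⟨ha, hb, m1, m2, e3⟩
      · obtain ⟨a1, a2, a3, a4, a5⟩ := h2 t ht
        refine ⟨a1, a2, by omega, by omega, ?_⟩
        by_cases c : t.2 = (i, j)
        · rw [c]; exact e3
        · refine a5.pred.mono ?_
          rintro p (hp | hp)
          · exact absurd (congrArg Prod.snd hp) c
          · exact hp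
    · rintro t (rfl | ht) t' (rfl | ht') hne
      · exact absurd rfl hne
      · exact hf t' ht' hne.symm
      · exact (hf t ht hne).symm
      · rcases h3 t ht t' ht' hne with h | h
        · left; omega
        · right; omega
  have near : ∀ n T, J (n + 1) T → ∀ t ∈ T, ∀ a b, a ∈ (C t.2.1).dom → b ∈ (D t.2.2).dom →
      EF (C t.2.1) (D t.2.2) n (insert (a, b) {p | (p, t.2) ∈ T}) →
      (lam a ≤ lam t.1.1 + 2 ^ n ∧ lam t.1.1 ≤ lam a + 2 ^ n ∨
        mu b ≤ mu t.1.2 + 2 ^ n ∧ mu t.1.2 ≤ mu b + 2 ^ n) →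
      J n (insert ((a, b), t.2) T) := by
    intro n T hJ t ht a b ha hb e hn
    have r1 := rel _ _ hJ t ht
    have r2 : lam a + t.2.2 * P = mu b + t.2.1 * P :=
      hrel _ _ (a, b) ha hb (e.pi _ (Or.inl rfl) _ (Or.inl rfl))
    have hp : 2 ^ (n + 1) = 2 * 2 ^ n := by ring
    obtain ⟨-, -, a3, a4, -⟩ := hJ.2.2.1 t ht
    refine step n T hJ a b t.2.1 t.2.2 ha hb ?_ e (by omega) (by omega) ?_
    · rw [Set.insert_eq_of_mem (Set.mem_image_of_mem Prod.snd ht)]; exact hJ.2.1.pred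
    · intro t' ht' hne
      rcases hJ.2.2.2 t ht t' ht' (Ne.symm hne) with h | h
      · left; omega
      · right; omega
  have far : ∀ n T, J (n + 1) T → ∀ a b i j, a ∈ (C i).dom → b ∈ (D j).dom →
      EF (Word w) (Word w') n (insert (i, j) (Prod.snd '' T)) →
      EF (C i) (D j) n (insert (a, b) {p | (p, (i, j)) ∈ T}) →
      ((i * P ≤ lam a + (2 ^ q + 1) ∧ lam a < i * P + (2 ^ q + 1) ∧ ∀ t ∈ T,
          ¬ (lam a ≤ lam t.1.1 + 2 ^ n ∧ lam t.1.1 ≤ lam a + 2 ^ n)) ∨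
        (j * P ≤ mu b + (2 ^ q + 1) ∧ mu b < j * P + (2 ^ q + 1) ∧ ∀ t ∈ T,
          ¬ (mu b ≤ mu t.1.2 + 2 ^ n ∧ mu t.1.2 ≤ mu b + 2 ^ n))) →
      J n (insert ((a, b), (i, j)) T) := by
    intro n T hJ a b i j ha hb e1 e2 hf
    have r2 : lam a + j * P = mu b + i * P :=
      hrel _ _ (a, b) ha hb (e2.pi _ (Or.inl rfl) _ (Or.inl rfl))
    have hq : 2 ^ n ≤ 2 ^ q := Nat.pow_le_pow_right (by norm_num) (by have := hJ.1; omega)
    refine step n T hJ a b i j ha hb e1 e2 (by omega) (by omega) ?_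
    intro t ht _
    have r1 := rel _ _ hJ t ht
    obtain ⟨a1, a2, -⟩ := hJ.2.2.1 t ht
    have c1 := ((hC _ _).1 a1).2
    have c2 := ((hD _ _).1 a2).2
    have c3 := ((hC _ _).1 ha).2
    have c4 := ((hD _ _).1 hb).2
    have ac : i * P + t.2.2 * P = t.2.1 * P + j * P ∨
        (i * P + 3 * P ≤ t.2.1 * P ∧ j * P + 3 * P ≤ t.2.2 * P) ∨
        (t.2.1 * P + 3 * P ≤ i * P ∧ t.2.2 * P + 3 * P ≤ j * P) :=
      anchor_cases P (e1.pi (i, j) (Or.inl rfl) t.2 (Or.inr ⟨t, ht, rfl⟩))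
      (e1.pi t.2 (Or.inr ⟨t, ht, rfl⟩) (i, j) (Or.inl rfl))
    rcases hf with ⟨-, -, hf⟩ | ⟨-, -, hf⟩
    · have := hf t ht
      omega
    · have := hf t ht
      omega
  have anch : ∀ x len : ℕ, x + P ≤ len * P → ∃ i < len, i * P ≤ x + (2 ^ q + 1) ∧
      x < i * P + (2 ^ q + 1) := by
    intro x len hx
    have hP0 : 0 < P := by rw [hP]; positivity
    have e := Nat.div_add_mod (x + (2 ^ q + 1)) P
    have e' := Nat.mod_lt (x + (2 ^ q + 1)) hP0
    rw [mul_comm] at e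
    refine ⟨(x + (2 ^ q + 1)) / P, ?_, by omega, by omega⟩
    exact lt_of_mul_lt_mul_right (a := P) (by omega) (Nat.zero_le _)
  refine EF.of_inv (fun n S => ∃ T, J n T ∧ S = Prod.fst '' T) ?_ ?_ ?_ q ∅
    ⟨∅, ⟨le_rfl, by simpa using h, by simp, by simp⟩, by simp⟩
  · rintro n S ⟨T, hJ, rfl⟩ _ ⟨t, ht, rfl⟩ _ ⟨t', ht', rfl⟩
    obtain ⟨a1, a2, -, -, a3⟩ := hJ.2.2.1 t ht
    obtain ⟨b1, b2, -, -, b3⟩ := hJ.2.2.1 t' ht'
    by_cases c : t.2 = t'.2
    · exact hsame _ _ _ _ a1 a2 (c ▸ b1) (c ▸ b2) (a3.pi _ ht _ (by rw [c]; exact ht'))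
    · have s1 := hsame _ _ _ _ a1 a2 a1 a2 (a3.pi _ ht _ ht)
      have s2 := hsame _ _ _ _ b1 b2 b1 b2 (b3.pi _ ht' _ ht')
      have : 1 ≤ 2 ^ n := Nat.one_le_two_pow
      rcases hJ.2.2.2 t ht t' ht' c with h | h
      · exact (hfar _ _ ((hC _ _).1 a1).1 ((hD _ _).1 a2).1 ((hC _ _).1 b1).1 ((hD _ _).1 b2).1
          s1 s2 (by omega) (by omega)).1
      · exact (hfar _ _ ((hC _ _).1 b1).1 ((hD _ _).1 b2).1 ((hC _ _).1 a1).1 ((hD _ _).1 a2).1
          s2 s1 (by omega) (by omega)).2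
  · rintro n S ⟨T, hJ, rfl⟩ a ha
    have hp : 2 ^ (n + 1) = 2 * 2 ^ n := by ring
    have h1 : 1 ≤ 2 ^ n := Nat.one_le_two_pow
    by_cases c : ∃ t ∈ T, lam a ≤ lam t.1.1 + 2 ^ n ∧ lam t.1.1 ≤ lam a + 2 ^ n
    · obtain ⟨t, ht, c⟩ := c
      obtain ⟨-, -, a3, a4, a5⟩ := hJ.2.2.1 t ht
      have ha' : a ∈ (C t.2.1).dom := (hC _ _).2 ⟨ha, by omega, by omega⟩
      obtain ⟨b, hb, e⟩ := a5.2.1 a ha'
      exact ⟨b, ((hD _ _).1 hb).1, _, near n T hJ t ht a b ha' hb e (Or.inl c),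
        by rw [Set.image_insert_eq]⟩
    · obtain ⟨i, hi, m1, m2⟩ := anch _ _ (hlam a ha)
      obtain ⟨j, hj, e1⟩ := hJ.2.1.2.1 i hi
      have ha' : a ∈ (C i).dom := (hC _ _).2 ⟨ha, by omega, by omega⟩
      obtain ⟨b, hb, e2⟩ := (key n T hJ i hi j hj e1).2.1 a ha'
      exact ⟨b, ((hD _ _).1 hb).1, _, far n T hJ a b i j ha' hb e1 e2
        (Or.inl ⟨m1, m2, fun t ht h => c ⟨t, ht, h⟩⟩), by rw [Set.image_insert_eq]⟩
  · rintro n S ⟨T, hJ, rfl⟩ b hb
    have hp : 2 ^ (n + 1) = 2 * 2 ^ n := by ring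
    have h1 : 1 ≤ 2 ^ n := Nat.one_le_two_pow
    by_cases c : ∃ t ∈ T, mu b ≤ mu t.1.2 + 2 ^ n ∧ mu t.1.2 ≤ mu b + 2 ^ n
    · obtain ⟨t, ht, c⟩ := c
      obtain ⟨-, -, a3, a4, a5⟩ := hJ.2.2.1 t ht
      have r1 := rel _ _ hJ t ht
      have hb' : b ∈ (D t.2.2).dom := (hD _ _).2 ⟨hb, by omega, by omega⟩
      obtain ⟨a, ha, e⟩ := a5.2.2 b hb'
      exact ⟨a, ((hC _ _).1 ha).1, _, near n T hJ t ht a b ha hb' e (Or.inr c),
        by rw [Set.image_insert_eq]⟩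
    · obtain ⟨j, hj, m1, m2⟩ := anch _ _ (hmu b hb)
      obtain ⟨i, hi, e1⟩ := hJ.2.1.2.2 j hj
      have hb' : b ∈ (D j).dom := (hD _ _).2 ⟨hb, by omega, by omega⟩
      obtain ⟨a, ha, e2⟩ := (key n T hJ i hi j hj e1).2.2 b hb'
      exact ⟨a, ((hC _ _).1 ha).1, _, far n T hJ a b i j ha hb' e1 e2
        (Or.inr ⟨m1, m2, fun t ht h => c ⟨t, ht, h⟩⟩), by rw [Set.image_insert_eq]⟩

end Pool.Agent.Work.MP_b730b2_lc
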