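import Pool.Agent.Work.MP_b730b2_lc.Match
import Mathlib.Combinatorics.SimpleGraph.Acyclic

/-! Separators in graphs of bounded tree-width. -/

namespace Pool.Agent.Work.MP_b730b2_lc

open Set

variable {c : ℕ} {V : Type}

/-- Tree-width at most `k`. -/
def Gr.TW (G : Gr c V) (k : ℕ) : Prop :=
  ∃ (m : ℕ) (T : SimpleGraph (Fin m)) (B : Fin m → Finset V),
    T.IsTree ∧ (∀ v : V, ∃ t, v ∈ B t) ∧ (∀ x y : V, G.E x y → ∃ t, x ∈ B t ∧ y ∈ B t) ∧
    (∀ v : V, (T.induce {t | v ∈ B t}).Connected) ∧ ∀ t, (B t).card ≤ k + 1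

/-- Walks avoiding a node. -/
def Av {α : Type} (T : SimpleGraph α) (t : α) : α → α → Prop :=
  Relation.ReflTransGen (fun x y => T.Adj x y ∧ x ≠ t ∧ y ≠ t)

theorem Av.reach {α : Type} {T : SimpleGraph α} {t t' a b : α} (h : Av T t a b) :
    (T.deleteEdges {s(t, t')}).Reachable a b := by
  induction h with
  | refl => rfl
  | @tail x y _ e ih =>
    refine ih.trans (SimpleGraph.Adj.reachable ?_)
    rw [SimpleGraph.deleteEdges_adj]
    refine ⟨e.1, fun h => ?_⟩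
    rcases Sym2.eq_iff.1 (mem_singleton_iff.1 h) with h | h
    · exact e.2.1 h.1
    · exact e.2.2 h.2

theorem exists_av {α : Type} {T : SimpleGraph α} {t w : α} (h : T.Reachable t w) :
    w = t ∨ ∃ u, T.Adj t u ∧ Av T t u w := by
  rw [SimpleGraph.reachable_iff_reflTransGen] at h
  induction h with
  | refl => exact Or.inl rfl
  | @tail x y _ e ih =>
    by_cases c : y = t
    · exact Or.inl c
    · right
      by_cases d : x = t
      · exact ⟨y, d ▸ e, Relation.ReflTransGen.refl⟩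
      · obtain ⟨u, a, b⟩ := ih.resolve_left d
        exact ⟨u, a, Relation.ReflTransGen.tail b ⟨e, d, c⟩⟩

theorem av_of_induce {α : Type} {T : SimpleGraph α} {A : Set α} {t : α} (ht : t ∉ A)
    (h : (T.induce A).Connected) {a b : α} (ha : a ∈ A) (hb : b ∈ A) : Av T t a b := by
  have := h.preconnected ⟨a, ha⟩ ⟨b, hb⟩
  rw [SimpleGraph.reachable_iff_reflTransGen] at this
  have key : ∀ x y : A, Relation.ReflTransGen (T.induce A).Adj x y → Av T t x y := by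
    intro x y h
    induction h with
    | refl => exact Relation.ReflTransGen.refl
    | @tail y z _ e ih =>
      exact Relation.ReflTransGen.tail ih ⟨e, fun h => ht (h ▸ y.2), fun h => ht (h ▸ z.2)⟩
  exact key _ _ this

theorem Gr.TW.sep [Finite V] {G : Gr c V} {k : ℕ} (h : G.TW k) (S : Set V) :
    ∃ X : Set V, X.ncard ≤ k + 1 ∧ ∀ x, x ∉ X → 2 * (S ∩ G.comp Xᶜ x).ncard ≤ S.ncard := by
  classical
  obtain ⟨m, T, B, hT, h1, h2, h3, h4⟩ := h
  by_contra hc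
  simp only [not_exists, not_and, not_forall, not_le] at hc
  have : ∀ t, ∃ x, x ∉ B t ∧ S.ncard < 2 * (S ∩ G.comp (B t : Set V)ᶜ x).ncard ∧
      ∃ u, T.Adj t u ∧ ∀ y ∈ G.comp (B t : Set V)ᶜ x, ∀ w, y ∈ B w → Av T t u w := by
    intro t
    obtain ⟨x, hx, hx'⟩ := hc (B t) (by simpa using h4 t)
    obtain ⟨w0, hw0⟩ := h1 x
    obtain ⟨u, a, b⟩ := (exists_av (hT.connected.preconnected t w0)).resolve_left
      (fun e => hx (e ▸ hw0))
    refine ⟨x, hx, hx', u, a, fun y hy => ?_⟩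
    induction hy with
    | refl =>
      intro w hw
      exact Relation.ReflTransGen.trans b
        (av_of_induce (A := {t | x ∈ B t}) hx (h3 x) hw0 hw)
    | @tail y z _ e ih =>
      intro w hw
      obtain ⟨w1, c1, c2⟩ := h2 y z e.1
      exact Relation.ReflTransGen.trans (ih w1 c1)
        (av_of_induce (A := {t | z ∈ B t}) e.2.2 (h3 z) c2 hw)
  choose x hx hx' σ hσ hσ' using this
  obtain ⟨t, -, t', -, hne, e⟩ := Finset.exists_ne_map_eq_of_card_lt_of_maps_to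
    (s := Finset.univ) (t := T.edgeFinset) (f := fun t => s(t, σ t))
    (by have := hT.card_edgeFinset; simp only [Finset.card_univ]; omega)
    (fun t _ => by simpa using hσ t)
  have e' : t = σ t' ∧ σ t = t' := (Sym2.eq_iff.1 e).resolve_left (fun h => hne h.1)
  have : ((S ∩ G.comp (B t : Set V)ᶜ (x t)) ∩ (S ∩ G.comp (B t' : Set V)ᶜ (x t'))).Nonempty := by
    by_contra hn
    have h5 := ncard_union_eq (disjoint_iff_inter_eq_empty.2 (not_nonempty_iff_eq_empty.1 hn))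
    have h6 := ncard_le_ncard (union_subset (inter_subset_left (s := S)
      (t := G.comp (B t : Set V)ᶜ (x t))) (inter_subset_left (s := S)
      (t := G.comp (B t' : Set V)ᶜ (x t'))))
    have := hx' t
    have := hx' t'
    omega
  obtain ⟨y, ⟨-, y1⟩, -, y2⟩ := this
  obtain ⟨w, hw⟩ := h1 y
  have a1 := (hσ' t y y1 w hw).reach (t' := t')
  have a2 := (hσ' t' y y2 w hw).reach (t' := t)
  rw [e'.2] at a1
  rw [← e'.1, Sym2.eq_swap] at a2
  exact SimpleGraph.isBridge_iff.1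
    (SimpleGraph.isAcyclic_iff_forall_adj_isBridge.1 hT.isAcyclic (e'.2 ▸ hσ t))
    (a2.trans a1.symm)

theorem Gr.TW.split [Finite V] {G : Gr c V} {k : ℕ} (h : G.TW k) (S : Set V)
    (hS : 2 * (k + 1) ≤ S.ncard) : ∃ X P : Set V, X.ncard ≤ k + 1 ∧ (∀ x ∈ P, x ∉ X) ∧
      (∀ x ∈ P, ∀ y, y ∉ X → G.E x y → y ∈ P) ∧ S.ncard ≤ 4 * (S ∩ P).ncard ∧
      4 * (S ∩ P).ncard < 3 * S.ncard := by
  obtain ⟨X, h1, h2⟩ := h.sep S
  obtain ⟨P, ⟨p1, p2, p3⟩, p4⟩ := exists_min_image {P : Set V | (∀ x ∈ P, x ∉ X) ∧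
      (∀ x ∈ P, ∀ y, y ∉ X → G.E x y → y ∈ P) ∧ S.ncard ≤ 4 * (S ∩ P).ncard} Set.ncard
    (toFinite _) ⟨Xᶜ, fun _ h => h, fun _ _ _ h _ => h, by
      have := ncard_le_ncard (show S ⊆ S ∩ Xᶜ ∪ X from fun v hv => by
        by_cases c : v ∈ X
        · exact Or.inr c
        · exact Or.inl ⟨hv, c⟩)
      have := ncard_union_le (S ∩ Xᶜ) X
      omega⟩
  refine ⟨X, P, h1, p1, p2, p3, ?_⟩
  obtain ⟨x, -, hx⟩ : (S ∩ P).Nonempty := by
    rw [← ncard_pos]; omega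
  have q1 : ¬ S.ncard ≤ 4 * (S ∩ (P \ G.comp Xᶜ x)).ncard := by
    intro hc
    have := p4 (P \ G.comp Xᶜ x) ⟨fun y hy => p1 y hy.1, fun y hy z hz e =>
      ⟨p2 y hy.1 z hz e, fun hc => hy.2 (Relation.ReflTransGen.tail hc
        ⟨G.symm _ _ e, hz, p1 y hy.1⟩)⟩, hc⟩
    have := ncard_lt_ncard (show P \ G.comp Xᶜ x ⊂ P from
      ⟨sdiff_subset, fun hc => (hc hx).2 Gr.mem_comp_self⟩)
    omega
  have q2 := h2 x (p1 x hx)
  have q3 := ncard_le_ncard (show S ∩ P ⊆ S ∩ (P \ G.comp Xᶜ x) ∪ S ∩ G.comp Xᶜ x from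
    fun v hv => by
      by_cases c : v ∈ G.comp Xᶜ x
      · exact Or.inr ⟨hv.1, c⟩
      · exact Or.inl ⟨hv.1, hv.2, c⟩)
  have := ncard_union_le (S ∩ (P \ G.comp Xᶜ x)) (S ∩ G.comp Xᶜ x)
  omega

end Pool.Agent.Work.MP_b730b2_lc
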